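import Mathlib

/-!
Basic notions for the linear bound (MP_a8780a_co).
-/

set_option autoImplicit false

namespace Pool.Agent.Lib.A8780

/-- `A` is the arc relation of a tournament. -/
structure Tour {V : Type*} (A : V → V → Prop) : Prop where
  irr : ∀ v, ¬ A v v
  asym : ∀ u v, A u v → ¬ A v u
  tot : ∀ u v, u ≠ v → A u v ∨ A v u

/-- all arcs reversed -/
def rev {V : Type*} (A : V → V → Prop) : V → V → Prop := fun a b => A b a

theorem Tour.rev {V : Type*} {A : V → V → Prop} (hT : Tour A) : Tour (rev A) where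
  irr v := hT.irr v
  asym u v h := hT.asym v u h
  tot u v h := (hT.tot u v h).symm

open Classical in
/-- the out-neighbours of `v` (the in-neighbours are `outN (rev A) v`) -/
noncomputable def outN {V : Type*} [Fintype V] (A : V → V → Prop) (v : V) : Finset V :=
  Finset.univ.filter (fun u => A v u)

@[simp] theorem mem_outN {V : Type*} [Fintype V] (A : V → V → Prop) (v u : V) :
    u ∈ outN A v ↔ A v u := by
  simp [outN]

/-- reachability inside `S` -/
def RIn {V : Type*} (A : V → V → Prop) (S : Set V) (u v : V) : Prop :=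
  Relation.ReflTransGen (fun a b => a ∈ S ∧ b ∈ S ∧ A a b) u v

theorem RIn.refl {V : Type*} {A : V → V → Prop} {S : Set V} (u : V) : RIn A S u u :=
  Relation.ReflTransGen.refl

theorem RIn.trans {V : Type*} {A : V → V → Prop} {S : Set V} {u v w : V}
    (h1 : RIn A S u v) (h2 : RIn A S v w) : RIn A S u w :=
  Relation.ReflTransGen.trans h1 h2

theorem RIn.single {V : Type*} {A : V → V → Prop} {S : Set V} {u v : V}
    (hu : u ∈ S) (hv : v ∈ S) (h : A u v) : RIn A S u v :=
  Relation.ReflTransGen.single ⟨hu, hv, h⟩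

theorem RIn.mono {V : Type*} {A : V → V → Prop} {S S' : Set V} (hS : S ⊆ S') {u v : V}
    (h : RIn A S u v) : RIn A S' u v := by
  unfold RIn at h ⊢
  induction h with
  | refl => exact Relation.ReflTransGen.refl
  | tail _ hbc ih => exact Relation.ReflTransGen.tail ih ⟨hS hbc.1, hS hbc.2.1, hbc.2.2⟩

theorem RIn.swap {V : Type*} {A : V → V → Prop} {S : Set V} {u v : V}
    (h : RIn A S u v) : RIn (Pool.Agent.Lib.A8780.rev A) S v u := by
  unfold RIn at h ⊢
  induction h with
  | refl => exact Relation.ReflTransGen.refl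
  | tail _ hbc ih => exact Relation.ReflTransGen.head ⟨hbc.2.1, hbc.1, hbc.2.2⟩ ih

/-- `k`-strong on `S`: at least `k + 1` vertices, and strongly connected after deleting fewer than
`k` vertices. -/
def KStrong {V : Type*} (A : V → V → Prop) (k : ℕ) (S : Finset V) : Prop :=
  k + 1 ≤ S.card ∧ ∀ X : Finset V, X.card + 1 ≤ k →
    ∀ u ∈ S, ∀ v ∈ S, u ∉ X → v ∉ X → RIn A {w | w ∈ S ∧ w ∉ X} u v

theorem rev_rev {V : Type*} (A : V → V → Prop) : rev (rev A) = A := rfl

end Pool.Agent.Lib.A8780
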