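import Pool.Agent.Lib.A8780.Basic

/-!
The criterion for a part to be `k`-strong.
-/

set_option autoImplicit false

namespace Pool.Agent.Lib.A8780

variable {V : Type*} {A : V → V → Prop}

/-- after deleting fewer than `k` other vertices, `v` still reaches inside `P` a vertex with the
property `L`. -/
def Good (A : V → V → Prop) (k : ℕ) (P : Set V) (L : V → Prop) (v : V) : Prop :=
  ∀ X : Finset V, X.card + 1 ≤ k → v ∉ X →
    ∃ v0, L v0 ∧ v0 ∈ P ∧ v0 ∉ X ∧ RIn A {w | w ∈ P ∧ w ∉ X} v v0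

theorem Good.base {k : ℕ} {P : Set V} {L : V → Prop} {v : V} (hv : v ∈ P) (h : L v) :
    Good A k P L v := fun _ _ hX => ⟨v, h, hv, hX, RIn.refl v⟩

theorem Good.step {k : ℕ} {P : Set V} {L : V → Prop} {v : V} (hv : v ∈ P) (T : Finset V)
    (hT : k ≤ T.card) (h : ∀ u ∈ T, u ∈ P ∧ A v u ∧ Good A k P L u) :
    Good A k P L v := by
  intro X hX hvX
  obtain ⟨u, huT, huX⟩ : ∃ u ∈ T, u ∉ X := by
    by_contra hcon
    push_neg at hcon
    have := Finset.card_le_card (show T ⊆ X from hcon)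
    omega
  obtain ⟨hu1, hu2, hu3⟩ := h u huT
  obtain ⟨v0, h1, h2, h3, h4⟩ := hu3 X hX huX
  exact ⟨v0, h1, h2, h3, 
    (RIn.single (S := {w | w ∈ P ∧ w ∉ X}) ⟨hv, hvX⟩ ⟨hu1, huX⟩ hu2).trans h4⟩

/-- all vertices of a part are good if they are supported by good ones -/
theorem good_all {k : ℕ} (P : Set V) (L O1 : V → Prop) (F : Finset V)
    (h1 : ∀ v ∈ P, O1 v → L v)
    (h2 : ∀ f ∈ P, f ∈ F → L f ∨ ∃ T : Finset V, k ≤ T.card ∧ ∀ u ∈ T, u ∈ P ∧ A f u ∧ L u)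
    (h3 : ∀ w ∈ P, w ∉ F → O1 w ∨ ∃ T : Finset V, k ≤ T.card ∧ (∀ u ∈ T, u ∈ P ∧ A w u) ∧
      ((∀ u ∈ T, u ∈ F) ∨ (∀ u ∈ T, O1 u))) :
    ∀ v ∈ P, Good A k P L v := by
  have hF : ∀ f ∈ P, f ∈ F → Good A k P L f := by
    intro f hf hfF
    rcases h2 f hf hfF with h | ⟨T, hT, h⟩
    · exact Good.base hf h
    · exact Good.step hf T hT (fun u hu => ⟨(h u hu).1, (h u hu).2.1,
        Good.base (h u hu).1 (h u hu).2.2⟩)
  intro v hv
  by_cases hvF : v ∈ F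
  · exact hF v hv hvF
  rcases h3 v hv hvF with h | ⟨T, hT, hT1, hT2⟩
  · exact Good.base hv (h1 v hv h)
  · refine Good.step hv T hT (fun u hu => ⟨(hT1 u hu).1, (hT1 u hu).2, ?_⟩)
    rcases hT2 with h | h
    · exact hF u (hT1 u hu).1 (h u hu)
    · exact Good.base (hT1 u hu).1 (h1 u (hT1 u hu).1 (h u hu))

/-- the core: `4 k` disjoint blocks `C m ⊆ P`, inside each of which all of `Ao m` reaches all of
`Bi m`; a vertex with an arc to (or in) at least `3 k` of the `Ao m` reaches each vertex with an arc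
from (or in) at least `3 k` of the `Bi m`, after deletion of fewer than `k` vertices. -/
theorem core_conn [DecidableEq V] {k : ℕ} (P : Set V) (C Ao Bi : Fin (4 * k) → Finset V)
    (hCP : ∀ m, ∀ v ∈ C m, v ∈ P) (hCd : ∀ m m', m ≠ m' → Disjoint (C m) (C m'))
    (hAo : ∀ m, Ao m ⊆ C m) (hBi : ∀ m, Bi m ⊆ C m)
    (hreach : ∀ m, ∀ u ∈ Ao m, ∀ w ∈ Bi m, RIn A (↑(C m) : Set V) u w)
    (X : Finset V) (hX : X.card + 1 ≤ k) (u v : V) (hu : u ∈ P) (huX : u ∉ X)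
    (hv : v ∈ P) (hvX : v ∉ X) (s1 s2 : Finset (Fin (4 * k)))
    (hs1 : ∀ m ∈ s1, ∃ w ∈ Ao m, w = u ∨ A u w) (hs2 : ∀ m ∈ s2, ∃ w ∈ Bi m, w = v ∨ A w v)
    (hc1 : 3 * k ≤ s1.card) (hc2 : 3 * k ≤ s2.card) :
    RIn A {w | w ∈ P ∧ w ∉ X} u v := by
  classical
  -- blocks which meet `X`
  set b := (Finset.univ : Finset (Fin (4 * k))).filter (fun m => ¬ Disjoint (C m) X) with hb
  have hbc : b.card ≤ X.card := by
    have h1 : ∀ m : Fin (4 * k), ∃ x : V, m ∈ b → (x ∈ C m ∧ x ∈ X) := by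
      intro m
      by_cases hm : m ∈ b
      · have h2 := (Finset.mem_filter.1 hm).2
        rw [Finset.not_disjoint_iff] at h2
        obtain ⟨x, hx⟩ := h2
        exact ⟨x, fun _ => hx⟩
      · exact ⟨u, fun h => absurd h hm⟩
    choose g hg using h1
    apply Finset.card_le_card_of_injOn g (fun m hm => (hg m hm).2)
    intro m hm m' hm' hmm
    by_contra hne
    exact Finset.disjoint_left.1 (hCd m m' hne) (hg m hm).1 (hmm ▸ (hg m' hm').1)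
  have hex : ∃ m, m ∈ s1 ∧ m ∈ s2 ∧ m ∉ b := by
    by_contra hcon
    push_neg at hcon
    have h1 : s1 ∩ s2 ⊆ b := by
      intro m hm
      rw [Finset.mem_inter] at hm
      exact hcon m hm.1 hm.2
    have h2 := Finset.card_le_card h1
    have h3 := Finset.card_union_add_card_inter s1 s2
    have h4 : (s1 ∪ s2).card ≤ 4 * k := by
      have := Finset.card_le_univ (s1 ∪ s2)
      simpa using this
    omega
  obtain ⟨m, hm1, hm2, hm3⟩ := hex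
  have hdis : Disjoint (C m) X := by
    by_contra h
    exact hm3 (Finset.mem_filter.2 ⟨Finset.mem_univ _, h⟩)
  have hCX : ∀ w ∈ C m, w ∈ P ∧ w ∉ X :=
    fun w hw => ⟨hCP m w hw, Finset.disjoint_left.1 hdis hw⟩
  obtain ⟨w1, hw1, hw1'⟩ := hs1 m hm1
  obtain ⟨w2, hw2, hw2'⟩ := hs2 m hm2
  have e1 : RIn A {w | w ∈ P ∧ w ∉ X} u w1 := by
    rcases hw1' with rfl | h
    · exact RIn.refl _
    · exact RIn.single ⟨hu, huX⟩ (hCX w1 (hAo m hw1)) h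
  have e2 : RIn A {w | w ∈ P ∧ w ∉ X} w2 v := by
    rcases hw2' with rfl | h
    · exact RIn.refl _
    · exact RIn.single (hCX w2 (hBi m hw2)) ⟨hv, hvX⟩ h
  exact e1.trans (((hreach m w1 hw1 w2 hw2).mono (fun w hw => hCX w hw)).trans e2)

/-- the part is `k`-strong -/
theorem part_strong [DecidableEq V] {k : ℕ} (P : Set V) (C Ao Bi : Fin (4 * k) → Finset V)
    (hCP : ∀ m, ∀ v ∈ C m, v ∈ P) (hCd : ∀ m m', m ≠ m' → Disjoint (C m) (C m'))
    (hAo : ∀ m, Ao m ⊆ C m) (hBi : ∀ m, Bi m ⊆ C m)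
    (hreach : ∀ m, ∀ u ∈ Ao m, ∀ w ∈ Bi m, RIn A (↑(C m) : Set V) u w)
    (L L' : V → Prop)
    (hL : ∀ v, L v → ∃ s : Finset (Fin (4 * k)), 3 * k ≤ s.card ∧
      ∀ m ∈ s, ∃ w ∈ Ao m, w = v ∨ A v w)
    (hL' : ∀ v, L' v → ∃ s : Finset (Fin (4 * k)), 3 * k ≤ s.card ∧
      ∀ m ∈ s, ∃ w ∈ Bi m, w = v ∨ A w v)
    (hG : ∀ v ∈ P, Good A k P L v) (hG' : ∀ v ∈ P, Good (rev A) k P L' v)
    (X : Finset V) (hX : X.card + 1 ≤ k) (u v : V) (hu : u ∈ P) (huX : u ∉ X)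
    (hv : v ∈ P) (hvX : v ∉ X) : RIn A {w | w ∈ P ∧ w ∉ X} u v := by
  obtain ⟨u0, h1, h2, h3, h4⟩ := hG u hu X hX huX
  obtain ⟨v0, g1, g2, g3, g4⟩ := hG' v hv X hX hvX
  obtain ⟨s1, hs1, hs1'⟩ := hL u0 h1
  obtain ⟨s2, hs2, hs2'⟩ := hL' v0 g1
  have h5 := core_conn P C Ao Bi hCP hCd hAo hBi hreach X hX u0 v0 h2 h3 g2 g3 s1 s2 hs1' hs2'
    hs1 hs2
  exact h4.trans (h5.trans g4.swap)

end Pool.Agent.Lib.A8780
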