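import Mathlib

/-!
First moment bound for a uniformly random colouring with `r` colours: on average over all
`f : V → Fin r`, `∑ i, (1/2) ^ #(X i ∩ f⁻¹(c i))` equals `∑ i, (1 - 1/(2r)) ^ #(X i)`.  Then
`split`: given at most `2 ^ l` large sets for each colour, there is a colouring of the ground set
such that each set gets `k` elements of its colour.
-/

set_option autoImplicit false

namespace Pool.Agent.Lib.A8780

theorem random_colour {V ι : Type*} [Fintype V] [DecidableEq V] (r : ℕ) (hr : 0 < r)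
    (s : Finset ι) (X : ι → Finset V) (c : ι → Fin r) (m : ι → ℕ) :
    ∃ f : V → Fin r,
      ((s.filter (fun i => ((X i).filter (fun v => f v = c i)).card < m i)).card : ℝ) ≤
        ∑ i ∈ s, 2 ^ m i * (1 - 1 / (2 * (r : ℝ))) ^ (X i).card := by
  classical
  have hr0 : (0 : ℝ) < r := by exact_mod_cast hr
  set w : ι → V → Fin r → ℝ := fun i v a => if v ∈ X i ∧ a = c i then 1 / 2 else 1 with hw
  have key : ∀ (i : ι) (f : V → Fin r),
      ∏ v, w i v (f v) = (1 / 2 : ℝ) ^ ((X i).filter (fun v => f v = c i)).card := by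
    intro i f
    have : (X i).filter (fun v => f v = c i) =
        Finset.univ.filter (fun v => v ∈ X i ∧ f v = c i) := by
      ext v; simp
    rw [this, hw]
    simp only
    rw [Finset.prod_ite]
    simp
  have hsum : ∀ i : ι, ∑ f : V → Fin r, ∏ v, w i v (f v) =
      (r : ℝ) ^ (Fintype.card V) * (1 - 1 / (2 * (r : ℝ))) ^ (X i).card := by
    intro i
    rw [← Fintype.piFinset_univ, ← Finset.prod_univ_sum]
    have h1 : ∀ v, ∑ a, w i v a = (r : ℝ) * (if v ∈ X i then (1 - 1 / (2 * (r : ℝ))) else 1) := by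
      intro v
      by_cases hv : v ∈ X i
      · simp only [hw, hv, true_and, if_true]
        have : ∀ a : Fin r, (if a = c i then (1 / 2 : ℝ) else 1) = 1 - (if a = c i then 1 / 2 else 0) := by
          intro a; split_ifs <;> norm_num
        simp_rw [this]
        rw [Finset.sum_sub_distrib]
        simp
        field_simp
      · simp [hw, hv]
    simp_rw [h1]
    rw [Finset.prod_mul_distrib, Finset.prod_const, Finset.card_univ, Finset.prod_ite]
    simp
  have htot : ∑ f : V → Fin r, ∑ i ∈ s, (2 : ℝ) ^ m i * ∏ v, w i v (f v) =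
      ∑ _f : V → Fin r, ∑ i ∈ s, (2 : ℝ) ^ m i * (1 - 1 / (2 * (r : ℝ))) ^ (X i).card := by
    rw [Finset.sum_comm]
    simp_rw [← Finset.mul_sum, hsum]
    rw [Finset.sum_const, Finset.card_univ, Fintype.card_fun, Fintype.card_fin, nsmul_eq_mul,
      Finset.mul_sum]
    push_cast
    apply Finset.sum_congr rfl
    intro i _
    ring
  have : Nonempty (V → Fin r) := ⟨fun _ => ⟨0, hr⟩⟩
  obtain ⟨f, -, hf⟩ := Finset.exists_le_of_sum_le (s := Finset.univ)
    Finset.univ_nonempty (le_of_eq htot)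
  refine ⟨f, le_trans ?_ hf⟩
  rw [Finset.card_filter]
  push_cast
  apply Finset.sum_le_sum
  intro i _
  rw [key]
  split_ifs with h
  · have h2 : (2 : ℝ) ^ m i * (1 / 2) ^ ((X i).filter (fun v => f v = c i)).card =
        2 ^ (m i - ((X i).filter (fun v => f v = c i)).card) := by
      rw [one_div, inv_pow, ← div_eq_mul_inv, pow_sub₀ _ (by norm_num) h.le]
      rfl
    rw [h2]
    exact one_le_pow₀ (by norm_num)
  · positivity

theorem split {V ι κ : Type*} [Fintype V] [DecidableEq V] [DecidableEq κ]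
    (k l : ℕ) (J : Finset κ) (s : Finset ι) (X : ι → Finset V) (c : ι → κ)
    (hcJ : ∀ i ∈ s, c i ∈ J)
    (hL : ∀ j ∈ J, (s.filter (fun i => c i = j)).card ≤ 2 ^ l)
    (hX : ∀ i ∈ s, 64 * (k + l + 4) * J.card ≤ (X i).card) :
    ∃ f : V → Option κ, ∀ i ∈ s, k ≤ ((X i).filter (fun v => f v = some (c i))).card := by
  classical
  induction' hn : J.card using Nat.strong_induction_on with n ih generalizing J s X
  rcases Nat.eq_zero_or_pos n with h0 | hpos
  · refine ⟨fun _ => none, ?_⟩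
    intro i hi
    have h1 := hcJ i hi
    have h2 : J = ∅ := by rw [← Finset.card_eq_zero]; omega
    rw [h2] at h1
    simp at h1
  have hs : s.card ≤ 2 ^ l * n := by
    have h1 := Finset.card_eq_sum_card_fiberwise (f := c) (s := s) (t := J) hcJ
    rw [h1, ← hn, mul_comm]
    calc ∑ b ∈ J, (s.filter (fun i => c i = b)).card ≤ ∑ b ∈ J, 2 ^ l :=
          Finset.sum_le_sum hL
      _ = J.card * 2 ^ l := by rw [Finset.sum_const, smul_eq_mul]
  rw [hn] at hX
  -- `w`
  have hw : l + n + 3 ≤ (k + l + 4) * n := by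
    nlinarith
  -- first split into two halves
  have hn2 : (n : ℝ) ≤ 2 ^ n := by exact_mod_cast Nat.lt_two_pow_self.le
  obtain ⟨g, hg⟩ := random_colour 2 (by norm_num) (s ×ˢ (Finset.univ : Finset (Fin 2)))
    (fun p => X p.1) (fun p => p.2) (fun p => ((X p.1).card + 3) / 4)
  have hyb : ∀ i ∈ s, 16 * (l + n + 3) ≤ ((X i).card + 3) / 4 := by
    intro i hi
    have h1 := hX i hi
    have h2 : 64 * (l + n + 3) ≤ 64 * ((k + l + 4) * n) := Nat.mul_le_mul_left _ hw
    have h3 : 64 * ((k + l + 4) * n) = 64 * (k + l + 4) * n := by ring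
    omega
  have hterm : ∀ i ∈ s, (2 : ℝ) ^ (((X i).card + 3) / 4) * (1 - 1 / (2 * ((2 : ℕ) : ℝ))) ^ (X i).card ≤
      3 * (1 / 2) ^ (9 * (l + n + 3)) := by
    intro i hi
    set y := ((X i).card + 3) / 4 with hy
    have h1 : 4 * y - 3 ≤ (X i).card := by omega
    have hy3 : 4 * y = (4 * y - 3) + 3 := by
      have := hyb i hi
      omega
    have h34 : (1 - 1 / (2 * ((2 : ℕ) : ℝ))) = 3 / 4 := by norm_num
    rw [h34]
    have h2 : (3 / 4 : ℝ) ^ (X i).card ≤ (3 / 4) ^ (4 * y - 3) :=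
      pow_le_pow_of_le_one (by norm_num) (by norm_num) h1
    have h3 : (3 / 4 : ℝ) ^ (4 * y - 3) * (3 / 4) ^ 3 = (3 / 4) ^ (4 * y) := by
      rw [← pow_add, ← hy3]
    have h4 : (3 / 4 : ℝ) ^ (4 * y) = (81 / 256) ^ y := by
      rw [pow_mul]; norm_num
    have h5 : (2 : ℝ) ^ y * (3 / 4) ^ (4 * y - 3) ≤ 3 * (2 / 3) ^ y := by
      have h6 : (2 : ℝ) ^ y * (81 / 256) ^ y = (81 / 128) ^ y := by
        rw [← mul_pow]; norm_num
      have h7 : (81 / 128 : ℝ) ^ y ≤ (2 / 3) ^ y :=
        pow_le_pow_left₀ (by norm_num) (by norm_num) y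
      have h8 : (3 / 4 : ℝ) ^ (4 * y - 3) = (81 / 256) ^ y * (64 / 27) := by
        rw [← h4, ← h3]; ring
      rw [h8, ← mul_assoc, h6]
      have : (0 : ℝ) ≤ (2 / 3) ^ y := by positivity
      nlinarith
    have h9 : (2 / 3 : ℝ) ^ y ≤ (1 / 2) ^ (9 * (l + n + 3)) := by
      calc (2 / 3 : ℝ) ^ y ≤ (2 / 3) ^ (16 * (l + n + 3)) :=
            pow_le_pow_of_le_one (by norm_num) (by norm_num) (hyb i hi)
        _ = ((2 / 3) ^ 16) ^ (l + n + 3) := by rw [pow_mul]
        _ ≤ ((1 / 2) ^ 9) ^ (l + n + 3) :=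
            pow_le_pow_left₀ (by norm_num) (by norm_num) _
        _ = (1 / 2) ^ (9 * (l + n + 3)) := by rw [pow_mul]
    calc (2 : ℝ) ^ y * (3 / 4) ^ (X i).card ≤ 2 ^ y * (3 / 4) ^ (4 * y - 3) :=
          mul_le_mul_of_nonneg_left h2 (by positivity)
      _ ≤ 3 * (2 / 3) ^ y := h5
      _ ≤ 3 * (1 / 2) ^ (9 * (l + n + 3)) := by linarith
  have hsR : (s.card : ℝ) ≤ 2 ^ l * n := by exact_mod_cast hs
  have hsR' : (s.card : ℝ) ≤ 2 ^ l * 2 ^ n := le_trans hsR (by gcongr)
  have hfail1 : (((s ×ˢ (Finset.univ : Finset (Fin 2))).filter (fun p =>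
      ((X p.1).filter (fun v => g v = p.2)).card < ((X p.1).card + 3) / 4)).card : ℝ) < 1 := by
    refine lt_of_le_of_lt hg ?_
    calc ∑ p ∈ s ×ˢ (Finset.univ : Finset (Fin 2)),
          (2 : ℝ) ^ (((X p.1).card + 3) / 4) * (1 - 1 / (2 * ((2 : ℕ) : ℝ))) ^ (X p.1).card
        ≤ ∑ _p ∈ s ×ˢ (Finset.univ : Finset (Fin 2)), 3 * (1 / 2) ^ (9 * (l + n + 3)) := by
          apply Finset.sum_le_sum
          intro p hp
          exact hterm p.1 (Finset.mem_product.1 hp).1
      _ = (s.card : ℝ) * 2 * (3 * (1 / 2) ^ (9 * (l + n + 3))) := by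
          rw [Finset.sum_const, Finset.card_product, nsmul_eq_mul]
          simp
      _ ≤ (2 ^ l * 2 ^ n) * 2 * (3 * (1 / 2) ^ (9 * (l + n + 3))) := by gcongr
      _ ≤ (2 ^ l * 2 ^ n) * 2 * (3 * (1 / 2) ^ (l + n + 3)) := by
          have : (1 / 2 : ℝ) ^ (9 * (l + n + 3)) ≤ (1 / 2) ^ (l + n + 3) :=
            pow_le_pow_of_le_one (by norm_num) (by norm_num) (by omega)
          gcongr
      _ = (2 * (1 / 2)) ^ l * (2 * (1 / 2)) ^ n * (6 * (1 / 2) ^ 3) := by
          rw [mul_pow, mul_pow, pow_add, pow_add]; ring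
      _ < 1 := by norm_num
  have hg1 : ∀ i ∈ s, ∀ a : Fin 2,
      ((X i).card + 3) / 4 ≤ ((X i).filter (fun v => g v = a)).card := by
    intro i hi a
    by_contra hcon
    push_neg at hcon
    have h1 : (i, a) ∈ (s ×ˢ (Finset.univ : Finset (Fin 2))).filter (fun p =>
      ((X p.1).filter (fun v => g v = p.2)).card < ((X p.1).card + 3) / 4) := by
      rw [Finset.mem_filter]
      exact ⟨Finset.mem_product.2 ⟨hi, Finset.mem_univ _⟩, hcon⟩
    have h2 := Finset.card_pos.2 ⟨_, h1⟩
    have h3 : (1 : ℝ) ≤ (((s ×ˢ (Finset.univ : Finset (Fin 2))).filter (fun p =>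
      ((X p.1).filter (fun v => g v = p.2)).card < ((X p.1).card + 3) / 4)).card : ℝ) := by
      exact_mod_cast h2
    linarith
  -- second colouring
  let e : {x // x ∈ J} ≃ Fin n := J.equivFinOfCardEq hn
  let c' : ι → Fin n := fun i => if h : c i ∈ J then e ⟨c i, h⟩ else ⟨0, hpos⟩
  obtain ⟨h, hh⟩ := random_colour n hpos s (fun i => (X i).filter (fun v => g v = 0)) c'
    (fun _ => k)
  have hfail2 : 4 * (s.filter (fun i => (((X i).filter (fun v => g v = 0)).filter
      (fun v => h v = c' i)).card < k)).card ≤ n := by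
    have hnR : (0 : ℝ) < n := by exact_mod_cast hpos
    have hn1 : (1 : ℝ) ≤ n := by exact_mod_cast hpos
    have hbase0 : (0 : ℝ) ≤ 1 - 1 / (2 * (n : ℝ)) := by
      rw [sub_nonneg, div_le_one (by positivity)]; linarith
    have hbase1 : 1 - 1 / (2 * (n : ℝ)) ≤ 1 := by
      have : (0 : ℝ) ≤ 1 / (2 * (n : ℝ)) := by positivity
      linarith
    have h2n : (1 - 1 / (2 * (n : ℝ))) ^ (2 * n) ≤ 1 / 2 := by
      have h1 : 1 - 1 / (2 * (n : ℝ)) ≤ Real.exp (-(1 / (2 * (n : ℝ)))) :=
        Real.one_sub_le_exp_neg _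
      calc (1 - 1 / (2 * (n : ℝ))) ^ (2 * n) ≤ (Real.exp (-(1 / (2 * (n : ℝ))))) ^ (2 * n) :=
            pow_le_pow_left₀ hbase0 h1 _
        _ = Real.exp (-1) := by
            rw [← Real.exp_nat_mul]
            congr 1
            push_cast
            field_simp
        _ ≤ 1 / 2 := by
            rw [Real.exp_neg]
            have := Real.exp_one_gt_d9
            rw [inv_eq_one_div, div_le_div_iff₀ (by positivity) (by norm_num)]
            linarith
    have hterm2 : ∀ i ∈ s, (2 : ℝ) ^ k * (1 - 1 / (2 * (n : ℝ))) ^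
        ((X i).filter (fun v => g v = 0)).card ≤ (1 / 2) ^ (l + 2) := by
      intro i hi
      have h1 : 16 * (k + l + 4) * n ≤ ((X i).filter (fun v => g v = 0)).card := by
        have h2 := hg1 i hi 0
        have h3 := hX i hi
        have h4 : 64 * (k + l + 4) * n = 4 * (16 * (k + l + 4) * n) := by ring
        omega
      have h5 : (1 - 1 / (2 * (n : ℝ))) ^ ((X i).filter (fun v => g v = 0)).card ≤
          (1 / 2) ^ (8 * (k + l + 4)) := by
        calc (1 - 1 / (2 * (n : ℝ))) ^ ((X i).filter (fun v => g v = 0)).card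
            ≤ (1 - 1 / (2 * (n : ℝ))) ^ (16 * (k + l + 4) * n) :=
              pow_le_pow_of_le_one hbase0 hbase1 h1
          _ = ((1 - 1 / (2 * (n : ℝ))) ^ (2 * n)) ^ (8 * (k + l + 4)) := by
              rw [← pow_mul]; congr 1; ring
          _ ≤ (1 / 2) ^ (8 * (k + l + 4)) :=
              pow_le_pow_left₀ (by positivity) h2n _
      calc (2 : ℝ) ^ k * (1 - 1 / (2 * (n : ℝ))) ^ ((X i).filter (fun v => g v = 0)).card
          ≤ 2 ^ k * (1 / 2) ^ (8 * (k + l + 4)) := by gcongr
        _ ≤ 2 ^ k * (1 / 2) ^ (k + (l + 2)) := by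
            have : (1 / 2 : ℝ) ^ (8 * (k + l + 4)) ≤ (1 / 2) ^ (k + (l + 2)) :=
              pow_le_pow_of_le_one (by norm_num) (by norm_num) (by omega)
            gcongr
        _ = (2 * (1 / 2)) ^ k * (1 / 2) ^ (l + 2) := by
            rw [pow_add, mul_pow]; ring
        _ = (1 / 2) ^ (l + 2) := by norm_num
    have h6 : ((s.filter (fun i => (((X i).filter (fun v => g v = 0)).filter
      (fun v => h v = c' i)).card < k)).card : ℝ) ≤ n / 4 := by
      refine le_trans hh ?_
      calc ∑ i ∈ s, (2 : ℝ) ^ k * (1 - 1 / (2 * (n : ℝ))) ^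
            ((X i).filter (fun v => g v = 0)).card ≤ ∑ _i ∈ s, (1 / 2 : ℝ) ^ (l + 2) :=
            Finset.sum_le_sum hterm2
        _ = s.card * (1 / 2) ^ (l + 2) := by rw [Finset.sum_const, nsmul_eq_mul]
        _ ≤ (2 ^ l * n) * (1 / 2) ^ (l + 2) := by gcongr
        _ = (2 * (1 / 2)) ^ l * (n / 4) := by rw [pow_add, mul_pow]; ring
        _ = n / 4 := by norm_num
    have h7 : (4 : ℝ) * ((s.filter (fun i => (((X i).filter (fun v => g v = 0)).filter
      (fun v => h v = c' i)).card < k)).card : ℝ) ≤ n := by linarith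
    exact_mod_cast h7
  set bad := s.filter (fun i => (((X i).filter (fun v => g v = 0)).filter
      (fun v => h v = c' i)).card < k) with hbad
  set J' := bad.image c with hJ'
  have hJ'J : J' ⊆ J := by
    intro j hj
    obtain ⟨i, hi, rfl⟩ := Finset.mem_image.1 hj
    exact hcJ i (Finset.mem_filter.1 hi).1
  have hJ'c : J'.card ≤ bad.card := Finset.card_image_le
  obtain ⟨f', hf'⟩ := ih J'.card (by omega) J' (s.filter (fun i => c i ∈ J'))
    (fun i => (X i).filter (fun v => g v = 1))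
    (fun i hi => (Finset.mem_filter.1 hi).2)
    (by
      intro j hj
      refine le_trans (Finset.card_le_card ?_) (hL j (hJ'J hj))
      intro i hi
      rw [Finset.mem_filter] at hi ⊢
      exact ⟨(Finset.mem_filter.1 hi.1).1, hi.2⟩)
    (by
      intro i hi
      have hi' := (Finset.mem_filter.1 hi).1
      have h2 := hg1 i hi' 1
      have h3 := hX i hi'
      have h4 : 4 * (64 * (k + l + 4) * J'.card) = 64 * (k + l + 4) * (4 * J'.card) := by ring
      have h5 : 64 * (k + l + 4) * (4 * J'.card) ≤ 64 * (k + l + 4) * n :=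
        Nat.mul_le_mul_left _ (by omega)
      omega)
    rfl
  refine ⟨fun v => if g v = 0 then some ((e.symm (h v)) : κ) else f' v, ?_⟩
  intro i hi
  by_cases hci : c i ∈ J'
  · refine le_trans (hf' i (Finset.mem_filter.2 ⟨hi, hci⟩)) (Finset.card_le_card ?_)
    intro v hv
    rw [Finset.mem_filter, Finset.mem_filter] at hv
    rw [Finset.mem_filter]
    refine ⟨hv.1.1, ?_⟩
    beta_reduce
    rw [if_neg (by rw [hv.1.2]; decide)]
    exact hv.2
  · have h1 : i ∉ bad := fun h => hci (Finset.mem_image_of_mem c h)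
    rw [hbad, Finset.mem_filter] at h1
    push_neg at h1
    refine le_trans (h1 hi) (Finset.card_le_card ?_)
    intro v hv
    rw [Finset.mem_filter, Finset.mem_filter] at hv
    rw [Finset.mem_filter]
    refine ⟨hv.1.1, ?_⟩
    beta_reduce
    rw [if_pos hv.1.2, hv.2]
    simp only [c', dif_pos (hcJ i hi), Equiv.symm_apply_apply]

end Pool.Agent.Lib.A8780
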