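import Pool.Agent.Lib.A8780.Basic
import Pool.Agent.Lib.A8780.Colour

/-!
One round of choosing supports, the balanced splitting into four, and the greedy choice of a
disjoint family.
-/

set_option autoImplicit false

namespace Pool.Agent.Lib.A8780

/-- One round: `π` is a partial assignment of parts; the demand `i` wants `k` vertices of `X i` to be
assigned to the part `c i`. -/
theorem round {V ι : Type*} [Fintype V] [DecidableEq V] {t : ℕ} (k l : ℕ)
    (π : V → Option (Fin t)) (G : Finset V) (hG : ∀ v ∈ G, π v = none)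
    (s : Finset ι) (c : ι → Fin t) (X : ι → Finset V)
    (hXG : ∀ i ∈ s, X i ⊆ G)
    (hL : ∀ j, (s.filter (fun i => c i = j)).card ≤ 2 ^ l)
    (hX : ∀ i ∈ s, 64 * (k + l + 4) * t ≤ (X i).card) :
    ∃ π' : V → Option (Fin t),
      (∀ v j, π v = some j → π' v = some j) ∧
      (∀ v j, π' v = some j → π v = some j ∨ ∃ i ∈ s, c i = j ∧ v ∈ X i) ∧
      (∀ i ∈ s, k ≤ ((X i).filter (fun v => π' v = some (c i))).card) ∧
      (∀ j, (Finset.univ.filter (fun v => π' v = some j ∧ π v ≠ some j)).card ≤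
        k * (s.filter (fun i => c i = j)).card) := by
  classical
  obtain ⟨f, hf⟩ := split k l (Finset.univ : Finset (Fin t)) s X c (fun _ _ => Finset.mem_univ _)
    (fun j _ => hL j) (by simpa using hX)
  have hT : ∀ i : ι, ∃ T : Finset V, i ∈ s → (T ⊆ (X i).filter (fun v => f v = some (c i)) ∧
      T.card = k) := by
    intro i
    by_cases hi : i ∈ s
    · obtain ⟨T, h1, h2⟩ := Finset.exists_subset_card_eq (hf i hi)
      exact ⟨T, fun _ => ⟨h1, h2⟩⟩
    · exact ⟨∅, fun h => absurd h hi⟩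
  choose T hT using hT
  have hTX : ∀ i ∈ s, ∀ v ∈ T i, v ∈ X i ∧ f v = some (c i) := by
    intro i hi v hv
    exact Finset.mem_filter.1 ((hT i hi).1 hv)
  refine ⟨fun v => if ∃ i ∈ s, v ∈ T i then f v else π v, ?_, ?_, ?_, ?_⟩
  · intro v j hv
    beta_reduce
    rw [if_neg]
    · exact hv
    · rintro ⟨i, hi, hvi⟩
      have := hG v (hXG i hi (hTX i hi v hvi).1)
      rw [this] at hv
      exact absurd hv (by simp)
  · intro v j hv
    beta_reduce at hv
    split_ifs at hv with h
    · obtain ⟨i, hi, hvi⟩ := h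
      have h1 := hTX i hi v hvi
      rw [h1.2] at hv
      exact Or.inr ⟨i, hi, by simpa using hv, h1.1⟩
    · exact Or.inl hv
  · intro i hi
    rw [← (hT i hi).2]
    apply Finset.card_le_card
    intro v hv
    have h1 := hTX i hi v hv
    rw [Finset.mem_filter]
    refine ⟨h1.1, ?_⟩
    beta_reduce
    rw [if_pos ⟨i, hi, hv⟩]
    exact h1.2
  · intro j
    have hsub : Finset.univ.filter (fun v =>
        (fun v => if ∃ i ∈ s, v ∈ T i then f v else π v) v = some j ∧ π v ≠ some j) ⊆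
        (s.filter (fun i => c i = j)).biUnion T := by
      intro v hv
      rw [Finset.mem_filter] at hv
      obtain ⟨-, h1, h2⟩ := hv
      beta_reduce at h1
      split_ifs at h1 with h
      · obtain ⟨i, hi, hvi⟩ := h
        have h3 := hTX i hi v hvi
        rw [h3.2] at h1
        rw [Finset.mem_biUnion]
        exact ⟨i, Finset.mem_filter.2 ⟨hi, by simpa using h1⟩, hvi⟩
      · exact absurd h1 h2
    calc _ ≤ ((s.filter (fun i => c i = j)).biUnion T).card := Finset.card_le_card hsub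
      _ ≤ (s.filter (fun i => c i = j)).card * k := by
          apply Finset.card_biUnion_le_card_mul
          intro i hi
          exact ((hT i (Finset.mem_filter.1 hi).1).2).le
      _ = k * (s.filter (fun i => c i = j)).card := by ring

/-- balanced splitting into four -/
theorem split4 {V ι : Type*} [Fintype V] [DecidableEq V] (s : Finset ι) (X : ι → Finset V)
    (h : ∑ i ∈ s, (15 / 16 : ℝ) ^ (X i).card < 1 / 8) :
    ∃ f : V → Fin 4, ∀ i ∈ s, ∀ a,
      (X i).card ≤ 16 * ((X i).filter (fun v => f v = a)).card := by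
  classical
  obtain ⟨f, hf⟩ := random_colour 4 (by norm_num) (s ×ˢ (Finset.univ : Finset (Fin 4)))
    (fun p => X p.1) (fun p => p.2) (fun p => ((X p.1).card + 15) / 16)
  have hterm : ∀ x : ℕ, (2 : ℝ) ^ ((x + 15) / 16) * (1 - 1 / (2 * ((4 : ℕ) : ℝ))) ^ x ≤
      2 * (15 / 16) ^ x := by
    intro x
    rcases Nat.eq_zero_or_pos x with h0 | h0
    · subst h0; norm_num
    set y := (x + 15) / 16 with hy
    have hy1 : 1 ≤ y := by omega
    have hy2 : 16 * (y - 1) ≤ x := by omega
    have h78 : (1 - 1 / (2 * ((4 : ℕ) : ℝ))) = 7 / 8 := by norm_num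
    rw [h78]
    have h1 : (2 : ℝ) ^ y = 2 * 2 ^ (y - 1) := by
      rw [← pow_succ']; congr 1; omega
    have h2 : (2 : ℝ) ^ (y - 1) ≤ (15 / 14) ^ x := by
      calc (2 : ℝ) ^ (y - 1) ≤ ((15 / 14) ^ 16) ^ (y - 1) :=
            pow_le_pow_left₀ (by norm_num) (by norm_num) _
        _ = (15 / 14) ^ (16 * (y - 1)) := by rw [pow_mul]
        _ ≤ (15 / 14) ^ x := pow_le_pow_right₀ (by norm_num) hy2
    calc (2 : ℝ) ^ y * (7 / 8) ^ x = 2 * (2 ^ (y - 1) * (7 / 8) ^ x) := by rw [h1]; ring
      _ ≤ 2 * ((15 / 14) ^ x * (7 / 8) ^ x) := by gcongr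
      _ = 2 * (15 / 16) ^ x := by rw [← mul_pow]; norm_num
  have hlt : (((s ×ˢ (Finset.univ : Finset (Fin 4))).filter (fun p =>
      ((X p.1).filter (fun v => f v = p.2)).card < ((X p.1).card + 15) / 16)).card : ℝ) < 1 := by
    refine lt_of_le_of_lt hf ?_
    calc ∑ p ∈ s ×ˢ (Finset.univ : Finset (Fin 4)),
          (2 : ℝ) ^ (((X p.1).card + 15) / 16) * (1 - 1 / (2 * ((4 : ℕ) : ℝ))) ^ (X p.1).card
        ≤ ∑ p ∈ s ×ˢ (Finset.univ : Finset (Fin 4)), 2 * (15 / 16) ^ (X p.1).card :=
          Finset.sum_le_sum (fun p _ => hterm _)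
      _ = 8 * ∑ i ∈ s, (15 / 16 : ℝ) ^ (X i).card := by
          rw [Finset.sum_product]
          simp only [Finset.sum_const, Finset.card_univ, Fintype.card_fin, nsmul_eq_mul]
          rw [Finset.mul_sum]
          apply Finset.sum_congr rfl
          intro i _
          push_cast
          ring
      _ < 1 := by linarith
  refine ⟨f, ?_⟩
  intro i hi a
  by_contra hcon
  push_neg at hcon
  have h1 : (i, a) ∈ (s ×ˢ (Finset.univ : Finset (Fin 4))).filter (fun p =>
      ((X p.1).filter (fun v => f v = p.2)).card < ((X p.1).card + 15) / 16) := by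
    rw [Finset.mem_filter]
    refine ⟨Finset.mem_product.2 ⟨hi, Finset.mem_univ _⟩, ?_⟩
    show ((X i).filter (fun v => f v = a)).card < ((X i).card + 15) / 16
    omega
  have h2 := Finset.card_pos.2 ⟨_, h1⟩
  have h3 : (1 : ℝ) ≤ (((s ×ˢ (Finset.univ : Finset (Fin 4))).filter (fun p =>
      ((X p.1).filter (fun v => f v = p.2)).card < ((X p.1).card + 15) / 16)).card : ℝ) := by
    exact_mod_cast h2
  linarith

/-- numerical tail bound -/
theorem tail_bound (n : ℕ) (hn : 256 ≤ n) : ((n : ℝ) + 1) ^ 2 * (15 / 16) ^ n ≤ 1 / 200 := by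
  induction n, hn using Nat.le_induction with
  | base => norm_num
  | succ n hn ih =>
    have hn' : (256 : ℝ) ≤ n := by exact_mod_cast hn
    have h1 : ((n : ℝ) + 1 + 1) ^ 2 * (15 / 16) ≤ ((n : ℝ) + 1) ^ 2 := by nlinarith
    have h2 : (0 : ℝ) ≤ (15 / 16) ^ n := by positivity
    push_cast
    calc ((n : ℝ) + 1 + 1) ^ 2 * (15 / 16) ^ (n + 1)
        = (((n : ℝ) + 1 + 1) ^ 2 * (15 / 16)) * (15 / 16) ^ n := by rw [pow_succ]; ring
      _ ≤ ((n : ℝ) + 1) ^ 2 * (15 / 16) ^ n := by gcongr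
      _ ≤ 1 / 200 := ih

theorem sum_tail {V ι : Type*} (s : Finset ι) (X : ι → Finset V) (n : ℕ) (hn : 256 ≤ n)
    (hs : s.card ≤ 4 * (n + 1) ^ 2) (hX : ∀ i ∈ s, n ≤ (X i).card) :
    ∑ i ∈ s, (15 / 16 : ℝ) ^ (X i).card ≤ 1 / 50 := by
  have hs' : (s.card : ℝ) ≤ 4 * ((n : ℝ) + 1) ^ 2 := by exact_mod_cast hs
  calc ∑ i ∈ s, (15 / 16 : ℝ) ^ (X i).card ≤ ∑ _i ∈ s, (15 / 16 : ℝ) ^ n :=
        Finset.sum_le_sum (fun i hi => pow_le_pow_of_le_one (by norm_num) (by norm_num) (hX i hi))
    _ = s.card * (15 / 16) ^ n := by rw [Finset.sum_const, nsmul_eq_mul]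
    _ ≤ (4 * ((n : ℝ) + 1) ^ 2) * (15 / 16) ^ n := by gcongr
    _ = 4 * (((n : ℝ) + 1) ^ 2 * (15 / 16) ^ n) := by ring
    _ ≤ 4 * (1 / 200) := by
        have := tail_bound n hn
        linarith
    _ = 1 / 50 := by norm_num

/-- greedy choice of a disjoint family -/
theorem greedy_family {V ι : Type*} [DecidableEq V] [DecidableEq ι] (c : ℕ) (U0 : Finset V)
    (s : Finset ι) (Pr : ι → Finset V → Prop) (m : ℕ) (hm : U0.card + c * s.card ≤ m)
    (h : ∀ i ∈ s, ∀ U : Finset V, U.card ≤ m →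
      ∃ B, Disjoint B U ∧ B.card ≤ c ∧ Pr i B) :
    ∃ B : ι → Finset V, (∀ i ∈ s, Pr i (B i) ∧ (B i).card ≤ c ∧ Disjoint (B i) U0) ∧
      ∀ i ∈ s, ∀ j ∈ s, i ≠ j → Disjoint (B i) (B j) := by
  classical
  induction s using Finset.induction_on with
  | empty => exact ⟨fun _ => ∅, by simp, by simp⟩
  | insert a s ha ih =>
    rw [Finset.card_insert_of_notMem ha] at hm
    obtain ⟨B, hB1, hB2⟩ := ih (by nlinarith) (fun i hi => h i (Finset.mem_insert_of_mem hi))
    have hcard : (U0 ∪ s.biUnion B).card ≤ m := by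
      have h1 : (s.biUnion B).card ≤ s.card * c :=
        Finset.card_biUnion_le_card_mul _ _ _ (fun i hi => (hB1 i hi).2.1)
      have h2 := Finset.card_union_le U0 (s.biUnion B)
      nlinarith
    obtain ⟨Ba, h1, h2, h3⟩ := h a (Finset.mem_insert_self a s) (U0 ∪ s.biUnion B) hcard
    rw [Finset.disjoint_union_right] at h1
    have h4 : ∀ i ∈ s, Disjoint Ba (B i) := by
      intro i hi
      exact Finset.disjoint_of_subset_right (Finset.subset_biUnion_of_mem B hi) h1.2
    have hne : ∀ i ∈ s, i ≠ a := fun i hi hia => ha (hia ▸ hi)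
    refine ⟨fun i => if i = a then Ba else B i, ?_, ?_⟩
    · intro i hi
      rcases Finset.mem_insert.1 hi with rfl | hi'
      · simpa using ⟨h3, h2, h1.1⟩
      · simp only [hne i hi', if_false]
        exact hB1 i hi'
    · intro i hi j hj hij
      rcases Finset.mem_insert.1 hi with rfl | hi'
      · rcases Finset.mem_insert.1 hj with rfl | hj'
        · exact absurd rfl hij
        · simp only [hne j hj', if_false, if_true]
          exact h4 j hj'
      · rcases Finset.mem_insert.1 hj with rfl | hj'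
        · simp only [hne i hi', if_false, if_true]
          exact (h4 i hi').symm
        · simp only [hne i hi', hne j hj', if_false]
          exact hB2 i hi' j hj' hij

end Pool.Agent.Lib.A8780
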