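import Pool.Agent.Lib.A8780.Dom
import Pool.Agent.Lib.A8780.Round
import Pool.Agent.Lib.A8780.Core

/-!
Disjoint families of dominating sets, and other small pieces for the second phase.
-/

set_option autoImplicit false

namespace Pool.Agent.Lib.A8780

theorem blocks {V ι : Type*} [Fintype V] [DecidableEq V] [Fintype ι] [DecidableEq ι]
    {A : V → V → Prop} (hT : Tour A)
    (F U0 : Finset V) (z p : ι → V) (N q D m : ℕ)
    (hm : U0.card + 24 * Fintype.card ι ≤ m)
    (hp : ∀ i, p i ∉ F) (hz : ∀ i, z i ∉ F) (hpd : ∀ i, (outN A (p i)).card ≤ D)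
    (hzN : ∀ i, N ≤ (outN A (z i) ∩ F).card)
    (hF : ∀ f ∈ F, (∀ j, A f (z j)) ∨ D ≤ (outN A f ∩ F).card + q)
    (hND : N ≤ D) (hq : 20000 * (q + m + 30) ≤ N) :
    ∃ B E : ι → Finset V, (∀ i, B i ⊆ F) ∧ (∀ i, (B i).card ≤ 24) ∧
      (∀ i, Disjoint (B i) U0) ∧ (∀ i j, i ≠ j → Disjoint (B i) (B j)) ∧
      (∀ i, 1000 * (E i).card ≤ D) ∧
      (∀ i, ∀ v ∈ insert (z i) (B i),
        RIn A (↑(insert (z i) (insert (p i) (B i))) : Set V) v (p i)) ∧
      (∀ i, ∀ f ∈ F, (∀ j, A f (z j)) ∨ f ∈ E i ∨ f ∈ B i ∨ ∃ b ∈ insert (p i) (B i), A f b) := by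
  classical
  obtain ⟨B, hB1, hB2⟩ := greedy_family 24 U0 (Finset.univ : Finset ι)
    (fun i B => ∃ E : Finset V, B ⊆ F ∧ 1000 * E.card ≤ D ∧
      (∀ v ∈ insert (z i) B, RIn A (↑(insert (z i) (insert (p i) B)) : Set V) v (p i)) ∧
      (∀ f ∈ F, (∀ j, A f (z j)) ∨ f ∈ E ∨ f ∈ B ∨ ∃ b ∈ insert (p i) B, A f b)) m
    (by rw [Finset.card_univ]; exact hm)
    (by
      intro i _ U hU
      obtain ⟨B, E, h1, h2, h3, h4, h5⟩ := dom hT F U (fun f => ∀ j, A f (z j)) (p i) (z i) D N q
        (hp i) (hz i) (hpd i) (hzN i)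
        (fun f _ hf hcon => hT.asym _ _ hf (hcon i)) hF hND
        (le_trans (by gcongr) hq)
      refine ⟨B, ?_, h2, E, ?_, h3, h4, h5⟩
      · exact Finset.disjoint_of_subset_left h1 Finset.sdiff_disjoint
      · exact h1.trans Finset.sdiff_subset)
  choose E hE using fun i => (hB1 i (Finset.mem_univ i)).1
  exact ⟨B, E, fun i => (hE i).1, fun i => (hB1 i (Finset.mem_univ i)).2.1,
    fun i => (hB1 i (Finset.mem_univ i)).2.2,
    fun i j hij => hB2 i (Finset.mem_univ i) j (Finset.mem_univ j) hij,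
    fun i => (hE i).2.1, fun i => (hE i).2.2.1, fun i => (hE i).2.2.2⟩

theorem bad_bound {V : Type*} [Fintype V] [DecidableEq V] (k D : ℕ)
    (E : Fin (4 * k) → Finset V) (h : ∀ m, 1000 * (E m).card ≤ D) :
    250 * (Finset.univ.filter (fun v : V =>
      k < (Finset.univ.filter (fun m => v ∈ E m)).card)).card ≤ D := by
  classical
  set bad := Finset.univ.filter (fun v : V =>
      k < (Finset.univ.filter (fun m => v ∈ E m)).card) with hbad
  have h1 : bad.card * (k + 1) ≤ ∑ m, (E m).card := by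
    calc bad.card * (k + 1) = ∑ _v ∈ bad, (k + 1) := by rw [Finset.sum_const, smul_eq_mul]
      _ ≤ ∑ v ∈ bad, (Finset.univ.filter (fun m => v ∈ E m)).card :=
          Finset.sum_le_sum (fun v hv => (Finset.mem_filter.1 hv).2)
      _ = ∑ v ∈ bad, ∑ m, if v ∈ E m then 1 else 0 := by
          simp_rw [Finset.card_filter]
      _ = ∑ m, ∑ v ∈ bad, if v ∈ E m then 1 else 0 := Finset.sum_comm
      _ ≤ ∑ m, (E m).card := by
          apply Finset.sum_le_sum
          intro m _
          rw [← Finset.card_filter]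
          apply Finset.card_le_card
          intro v hv
          exact (Finset.mem_filter.1 hv).2
  have h2 : 1000 * ∑ m, (E m).card ≤ 4 * k * D := by
    rw [Finset.mul_sum]
    calc ∑ m, 1000 * (E m).card ≤ ∑ _m : Fin (4 * k), D := Finset.sum_le_sum (fun m _ => h m)
      _ = 4 * k * D := by rw [Finset.sum_const, Finset.card_univ, Fintype.card_fin, smul_eq_mul]
  by_contra hcon
  push Not at hcon
  have h3 : (k + 1) * D < (k + 1) * (250 * bad.card) := Nat.mul_lt_mul_of_pos_left hcon (by omega)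
  nlinarith

theorem pigeon_parts {V : Type*} [Fintype V] [DecidableEq V] (k t : ℕ)
    (hk : 0 < k) (ht : 0 < t) (S : Finset V) (M : Fin t × Fin (4 * k) → Finset V)
    (h : k * t ≤ (S ∩ Finset.univ.biUnion M).card) :
    ∃ j : Fin t, k ≤ (S ∩ Finset.univ.biUnion (fun m : Fin (4 * k) => M (j, m))).card := by
  classical
  by_contra hcon
  push Not at hcon
  have h1 : S ∩ Finset.univ.biUnion M ⊆ Finset.univ.biUnion (fun j : Fin t =>
      S ∩ Finset.univ.biUnion (fun m : Fin (4 * k) => M (j, m))) := by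
    intro v hv
    rw [Finset.mem_inter, Finset.mem_biUnion] at hv
    obtain ⟨hvS, ⟨j, m⟩, -, hvM⟩ := hv
    rw [Finset.mem_biUnion]
    refine ⟨j, Finset.mem_univ j, Finset.mem_inter.2 ⟨hvS, ?_⟩⟩
    rw [Finset.mem_biUnion]
    exact ⟨m, Finset.mem_univ m, hvM⟩
  have h2 := Finset.card_le_card h1
  have h3 : (Finset.univ.biUnion (fun j : Fin t =>
      S ∩ Finset.univ.biUnion (fun m : Fin (4 * k) => M (j, m)))).card ≤
      (Finset.univ : Finset (Fin t)).card * (k - 1) :=
    Finset.card_biUnion_le_card_mul _ _ _ (fun j _ => by have := hcon j; omega)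
  rw [Finset.card_univ, Fintype.card_fin] at h3
  have h4 : t * (k - 1) < k * t := by
    rw [mul_comm k t]
    exact Nat.mul_lt_mul_of_pos_left (by omega) ht
  omega

theorem cube_le (k : ℕ) : k ^ 3 ≤ 4 ^ k := by
  induction k with
  | zero => norm_num
  | succ n ih =>
    rcases Nat.lt_or_ge n 2 with h | h
    · interval_cases n <;> norm_num
    · rw [pow_succ 4 n]
      nlinarith [sq_nonneg (n : ℤ), Nat.mul_le_mul h h]

theorem sq_le_two_pow (k : ℕ) : k ^ 2 ≤ 2 * 2 ^ k := by
  induction k with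
  | zero => norm_num
  | succ n ih =>
    rcases Nat.lt_or_ge n 3 with h | h
    · interval_cases n <;> norm_num
    · rw [pow_succ 2 n]
      nlinarith

end Pool.Agent.Lib.A8780
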