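import Pool.Agent.Lib.A8780.Basic

/-!
Families of disjoint paths (lists of vertices) from `S` to `S'` of least total length.
-/

set_option autoImplicit false

namespace Pool.Agent.Lib.A8780

variable {V : Type*} {A : V → V → Prop}

/-- `P 0, …, P (M-1)` are pairwise disjoint directed paths, given as lists of vertices, each from a
vertex of `S` to a vertex of `S'`, and all avoid `X`. -/
structure PSys (A : V → V → Prop) (S S' X : Finset V) (M : ℕ) (P : Fin M → List V) : Prop where
  chain : ∀ i, (P i).IsChain A
  ne : ∀ i, P i ≠ []
  nodup : ∀ i, (P i).Nodup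
  head : ∀ i v, (P i).head? = some v → v ∈ S
  last : ∀ i v, (P i).getLast? = some v → v ∈ S'
  avoid : ∀ i, ∀ v ∈ P i, v ∉ X
  disj : ∀ i j, i ≠ j → List.Disjoint (P i) (P j)

/-- the family has the least total length -/
def PMin (A : V → V → Prop) (S S' X : Finset V) (M : ℕ) (P : Fin M → List V) : Prop :=
  PSys A S S' X M P ∧ ∀ P' : Fin M → List V, PSys A S S' X M P' →
    ∑ i, (P i).length ≤ ∑ i, (P' i).length

theorem exists_pmin {S S' X : Finset V} {M : ℕ} (h : ∃ P : Fin M → List V, PSys A S S' X M P) :
    ∃ P : Fin M → List V, PMin A S S' X M P := by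
  obtain ⟨P, hP, hmin⟩ := (measure (fun P : Fin M → List V => ∑ i, (P i).length)).wf.has_min
    {P | PSys A S S' X M P} h
  exact ⟨P, hP, fun P' hP' => not_lt.mp (hmin P' hP')⟩

theorem PSys.reverse {S S' X : Finset V} {M : ℕ} {P : Fin M → List V}
    (h : PSys A S S' X M P) : PSys (rev A) S' S X M (fun i => (P i).reverse) where
  chain i := by
    rw [List.isChain_reverse]
    exact h.chain i
  ne i := by simpa using h.ne i
  nodup i := List.nodup_reverse.mpr (h.nodup i)
  head i v hv := by
    rw [List.head?_reverse] at hv
    exact h.last i v hv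
  last i v hv := by
    rw [List.getLast?_reverse] at hv
    exact h.head i v hv
  avoid i v hv := h.avoid i v (List.mem_reverse.mp hv)
  disj i j hij := by
    intro a ha hb
    exact h.disj i j hij (List.mem_reverse.mp ha) (List.mem_reverse.mp hb)

theorem PMin.reverse {S S' X : Finset V} {M : ℕ} {P : Fin M → List V}
    (h : PMin A S S' X M P) : PMin (rev A) S' S X M (fun i => (P i).reverse) := by
  refine ⟨h.1.reverse, fun P' hP' => ?_⟩
  have h2 := h.2 _ (hP'.reverse)
  simpa using h2

/-- replacing one path of a least family -/
theorem PMin.replace {S S' X : Finset V} {M : ℕ} {P : Fin M → List V}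
    (h : PMin A S S' X M P) (i : Fin M) (l : List V) (hc : l.IsChain A) (hne : l ≠ [])
    (hnd : l.Nodup) (hh : ∀ v, l.head? = some v → v ∈ S) (hl : ∀ v, l.getLast? = some v → v ∈ S')
    (hX : ∀ v ∈ l, v ∉ X) (hd : ∀ v ∈ l, v ∈ P i ∨ ∀ j, v ∉ P j) :
    (P i).length ≤ l.length := by
  classical
  have hdis : ∀ j, j ≠ i → List.Disjoint l (P j) := by
    intro j hj v hv hvj
    rcases hd v hv with h1 | h1
    · exact h.1.disj i j (Ne.symm hj) h1 hvj
    · exact h1 j hvj
  have hP' : PSys A S S' X M (Function.update P i l) := by
    refine ⟨?_, ?_, ?_, ?_, ?_, ?_, ?_⟩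
    · intro j
      by_cases hj : j = i
      · subst hj; simpa using hc
      · simpa [hj] using h.1.chain j
    · intro j
      by_cases hj : j = i
      · subst hj; simpa using hne
      · simpa [hj] using h.1.ne j
    · intro j
      by_cases hj : j = i
      · subst hj; simpa using hnd
      · simpa [hj] using h.1.nodup j
    · intro j
      by_cases hj : j = i
      · subst hj; simpa using hh
      · simpa [hj] using h.1.head j
    · intro j
      by_cases hj : j = i
      · subst hj; simpa using hl
      · simpa [hj] using h.1.last j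
    · intro j
      by_cases hj : j = i
      · subst hj; simpa using hX
      · simpa [hj] using h.1.avoid j
    · intro j j' hjj
      by_cases hj : j = i
      · subst hj
        simpa [Ne.symm hjj] using hdis j' (Ne.symm hjj)
      · by_cases hj' : j' = i
        · subst hj'
          simpa [hj] using (hdis j hj).symm
        · simpa [hj, hj'] using h.1.disj j j' hjj
  have h2 := h.2 _ hP'
  have e1 : ∑ j, (P j).length = (P i).length + ∑ j ∈ Finset.univ.erase i, (P j).length :=
    (Finset.add_sum_erase _ _ (Finset.mem_univ i)).symm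
  have e2 : ∑ j, (Function.update P i l j).length
      = l.length + ∑ j ∈ Finset.univ.erase i, (P j).length := by
    rw [← Finset.add_sum_erase _ _ (Finset.mem_univ i)]
    congr 1
    · simp
    · refine Finset.sum_congr rfl fun j hj => ?_
      rw [Function.update_of_ne (Finset.ne_of_mem_erase hj)]
  omega

theorem split_drop {l : List V} {n : ℕ} {v : V} (hv : v ∈ l.drop n) :
    ∃ l1 l2, l = l1 ++ v :: l2 ∧ n ≤ l1.length := by
  obtain ⟨a, b, hab⟩ := List.append_of_mem hv
  refine ⟨l.take n ++ a, b, ?_, ?_⟩
  · rw [List.append_assoc, ← hab, List.take_append_drop]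
  · have hlen : 0 < (l.drop n).length := List.length_pos_of_mem hv
    rw [List.length_drop] at hlen
    rw [List.length_append, List.length_take]
    omega

/-- only the first vertex of a path of a least family is in `S` -/
theorem PMin.notMem_S {S S' X : Finset V} {M : ℕ} {P : Fin M → List V}
    (h : PMin A S S' X M P) (i : Fin M) (v : V) (hv : v ∈ (P i).drop 1) : v ∉ S := by
  intro hvS
  obtain ⟨l1, l2, hl, hlen⟩ := split_drop hv
  have hsub : ∀ x ∈ v :: l2, x ∈ P i := fun x hx => by rw [hl]; exact List.mem_append_right _ hx
  have h1 := h.replace i (v :: l2) ?_ (by simp) ?_ ?_ ?_ ?_ (fun x hx => Or.inl (hsub x hx))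
  · rw [hl, List.length_append] at h1
    omega
  · have := h.1.chain i
    rw [hl] at this
    exact this.right_of_append
  · have := h.1.nodup i
    rw [hl] at this
    exact (List.nodup_append.mp this).2.1
  · intro x hx
    simp only [List.head?_cons, Option.some.injEq] at hx
    exact hx ▸ hvS
  · intro x hx
    refine h.1.last i x ?_
    rw [hl, List.getLast?_append, hx]
    rfl
  · exact fun x hx => h.1.avoid i x (hsub x hx)

/-- an unused start vertex has no arc to the third or a later vertex -/
theorem PMin.start {S S' X : Finset V} {M : ℕ} {P : Fin M → List V}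
    (h : PMin A S S' X M P) (s : V) (hs : s ∈ S) (hsX : s ∉ X) (hsP : ∀ j, s ∉ P j)
    (i : Fin M) (v : V) (hv : v ∈ (P i).drop 2) : ¬ A s v := by
  intro hsv
  obtain ⟨l1, l2, hl, hlen⟩ := split_drop hv
  have hsub : ∀ x ∈ v :: l2, x ∈ P i := fun x hx => by rw [hl]; exact List.mem_append_right _ hx
  have h1 := h.replace i (s :: v :: l2) ?_ (by simp) ?_ ?_ ?_ ?_ ?_
  · rw [hl] at h1
    simp only [List.length_append, List.length_cons] at h1
    omega
  · have := h.1.chain i
    rw [hl] at this
    exact List.isChain_cons_cons.mpr ⟨hsv, this.right_of_append⟩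
  · have := h.1.nodup i
    rw [hl] at this
    exact List.nodup_cons.mpr ⟨fun hx => hsP i (hsub s hx), (List.nodup_append.mp this).2.1⟩
  · intro x hx
    simp only [List.head?_cons, Option.some.injEq] at hx
    exact hx ▸ hs
  · intro x hx
    refine h.1.last i x ?_
    rw [List.getLast?_cons_cons] at hx
    rw [hl, List.getLast?_append, hx]
    rfl
  · intro x hx
    rcases List.mem_cons.mp hx with rfl | hx
    · exact hsX
    · exact h.1.avoid i x (hsub x hx)
  · intro x hx
    rcases List.mem_cons.mp hx with rfl | hx
    · exact Or.inr hsP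
    · exact Or.inl (hsub x hx)

/-- no path of length two from an unused start vertex through an unused vertex to the fourth or a
later vertex -/
theorem PMin.via {S S' X : Finset V} {M : ℕ} {P : Fin M → List V}
    (h : PMin A S S' X M P) (s : V) (hs : s ∈ S) (hsX : s ∉ X) (hsP : ∀ j, s ∉ P j)
    (w : V) (hwX : w ∉ X) (hwP : ∀ j, w ∉ P j) (hws : w ≠ s) (hsw : A s w)
    (i : Fin M) (v : V) (hv : v ∈ (P i).drop 3) : ¬ A w v := by
  intro hwv
  obtain ⟨l1, l2, hl, hlen⟩ := split_drop hv
  have hsub : ∀ x ∈ v :: l2, x ∈ P i := fun x hx => by rw [hl]; exact List.mem_append_right _ hx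
  have h1 := h.replace i (s :: w :: v :: l2) ?_ (by simp) ?_ ?_ ?_ ?_ ?_
  · rw [hl] at h1
    simp only [List.length_append, List.length_cons] at h1
    omega
  · have := h.1.chain i
    rw [hl] at this
    exact List.isChain_cons_cons.mpr ⟨hsw, List.isChain_cons_cons.mpr ⟨hwv, this.right_of_append⟩⟩
  · have := h.1.nodup i
    rw [hl] at this
    refine List.nodup_cons.mpr ⟨fun hx => ?_, List.nodup_cons.mpr ⟨fun hx => hwP i (hsub w hx),
      (List.nodup_append.mp this).2.1⟩⟩
    rcases List.mem_cons.mp hx with hx | hx
    · exact hws hx.symm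
    · exact hsP i (hsub s hx)
  · intro x hx
    simp only [List.head?_cons, Option.some.injEq] at hx
    exact hx ▸ hs
  · intro x hx
    refine h.1.last i x ?_
    rw [List.getLast?_cons_cons, List.getLast?_cons_cons] at hx
    rw [hl, List.getLast?_append, hx]
    rfl
  · intro x hx
    rcases List.mem_cons.mp hx with rfl | hx
    · exact hsX
    · rcases List.mem_cons.mp hx with rfl | hx
      · exact hwX
      · exact h.1.avoid i x (hsub x hx)
  · intro x hx
    rcases List.mem_cons.mp hx with rfl | hx
    · exact Or.inr hsP
    · rcases List.mem_cons.mp hx with rfl | hx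
      · exact Or.inr hwP
      · exact Or.inl (hsub x hx)

/-- no forward chord from the first two vertices -/
theorem PMin.chord {S S' X : Finset V} {M : ℕ} {P : Fin M → List V}
    (h : PMin A S S' X M P) (i : Fin M) (u v : V) (hu : u ∈ (P i).take 2)
    (hv : v ∈ (P i).drop 3) : ¬ A u v := by
  intro huv
  obtain ⟨l1, l2, hl, hlen⟩ := split_drop hv
  -- split off the part up to `u`
  obtain ⟨m1, m2, hm⟩ := List.append_of_mem hu
  have hm1 : m1.length ≤ 1 := by
    have := congrArg List.length hm
    rw [List.length_take, List.length_append, List.length_cons] at this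
    omega
  have hPi : P i = m1 ++ u :: (m2 ++ (P i).drop 2) := by
    have := List.take_append_drop 2 (P i)
    rw [hm] at this
    rw [← List.cons_append, ← List.append_assoc, this]
  have hmem1 : ∀ x ∈ m1 ++ [u], x ∈ (P i).take 2 := by
    intro x hx
    rw [hm]
    rcases List.mem_append.mp hx with hx | hx
    · exact List.mem_append_left _ hx
    · rw [List.mem_singleton] at hx
      subst hx
      exact List.mem_append_right _ (List.mem_cons_self)
  have hsub : ∀ x ∈ v :: l2, x ∈ P i := fun x hx => by rw [hl]; exact List.mem_append_right _ hx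
  -- `v :: l2` is a sublist of the tail
  have hdrop : ∀ x ∈ v :: l2, x ∈ (P i).drop 2 := by
    intro x hx
    rw [hl, List.drop_append_of_le_length (by omega)]
    exact List.mem_append_right _ hx
  have hdisj : List.Disjoint ((P i).take 2) ((P i).drop 2) :=
    List.disjoint_take_drop (h.1.nodup i) le_rfl
  have h1 := h.replace i (m1 ++ u :: v :: l2) ?_ (by simp) ?_ ?_ ?_ ?_ ?_
  · rw [hl, List.length_append, List.length_append, List.length_cons, List.length_cons,
      List.length_cons] at h1
    omega
  · have hc := h.1.chain i
    have hc2 := hc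
    rw [hl] at hc2
    rw [hPi] at hc
    rw [List.isChain_append] at hc ⊢
    refine ⟨hc.1, List.isChain_cons_cons.mpr ⟨huv, hc2.right_of_append⟩, ?_⟩
    simpa using hc.2.2
  · rw [List.nodup_append]
    have hn := h.1.nodup i
    have hn2 := hn
    rw [hl] at hn2
    rw [hPi] at hn
    rw [List.nodup_append] at hn
    refine ⟨hn.1, List.nodup_cons.mpr ⟨fun hx => ?_, (List.nodup_append.mp hn2).2.1⟩, ?_⟩
    · exact hdisj hu (hdrop u hx)
    · intro a ha b hb hab
      subst hab
      rcases List.mem_cons.mp hb with rfl | hb
      · exact hn.2.2 a ha a (List.mem_cons_self) rfl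
      · exact hdisj (hmem1 a (List.mem_append_left _ ha)) (hdrop a hb)
  · intro x hx
    refine h.1.head i x ?_
    rw [hPi]
    rw [List.head?_append] at hx ⊢
    simpa using hx
  · intro x hx
    refine h.1.last i x ?_
    rw [List.getLast?_append, List.getLast?_cons_cons] at hx
    rw [hl, List.getLast?_append]
    cases hy : (v :: l2).getLast? with
    | none => simp at hy
    | some y =>
      rw [hy] at hx
      simpa using hx
  · intro x hx
    rcases List.mem_append.mp hx with hx | hx
    · exact h.1.avoid i x (List.mem_of_mem_take (hmem1 x (List.mem_append_left _ hx)))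
    · rcases List.mem_cons.mp hx with rfl | hx
      · exact h.1.avoid i x (List.mem_of_mem_take hu)
      · exact h.1.avoid i x (hsub x hx)
  · intro x hx
    rcases List.mem_append.mp hx with hx | hx
    · exact Or.inl (List.mem_of_mem_take (hmem1 x (List.mem_append_left _ hx)))
    · rcases List.mem_cons.mp hx with rfl | hx
      · exact Or.inl (List.mem_of_mem_take hu)
      · exact Or.inl (hsub x hx)

theorem chain_rin (T : Set V) : ∀ (l : List V), l.IsChain A → (∀ x ∈ l, x ∈ T) →
    ∀ a b, l.head? = some a → l.getLast? = some b → RIn A T a b := by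
  intro l
  induction l with
  | nil => intro _ _ a b ha; simp at ha
  | cons x l ih =>
    intro hc hT a b ha hb
    simp only [List.head?_cons, Option.some.injEq] at ha
    subst ha
    cases l with
    | nil =>
      simp only [List.getLast?_singleton, Option.some.injEq] at hb
      subst hb
      exact RIn.refl _
    | cons y l =>
      rw [List.isChain_cons_cons] at hc
      rw [List.getLast?_cons_cons] at hb
      have h1 : RIn A T y b := ih hc.2 (fun z hz => hT z (List.mem_cons_of_mem _ hz)) y b rfl hb
      exact (RIn.single (hT x (List.mem_cons_self))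
        (hT y (List.mem_cons_of_mem _ (List.mem_cons_self))) hc.1).trans h1

/-- a path is a walk inside its vertex set -/
theorem PSys.rin [DecidableEq V] {S S' X : Finset V} {M : ℕ} {P : Fin M → List V}
    (h : PSys A S S' X M P) (i : Fin M) (a b : V) (ha : (P i).head? = some a)
    (hb : (P i).getLast? = some b) : RIn A (↑(P i).toFinset : Set V) a b :=
  chain_rin _ (P i) (h.chain i) (fun x hx => by simpa using hx) a b ha hb

end Pool.Agent.Lib.A8780
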