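import Pool.Agent.Lib.A8780.Setup
import Pool.Agent.Lib.A8780.Paths

/-!
Case A: at least `4 k t` paths of the least family have at most three vertices.
-/

set_option autoImplicit false

namespace Pool.Agent.Lib.A8780

/-- a least family uses at most one vertex of `S` per path -/
theorem CA_free {V : Type*} [DecidableEq V] {A : V → V → Prop} {S S' X : Finset V} {M : ℕ}
    {P : Fin M → List V} (h : PMin A S S' X M P) :
    S.card ≤ (S \ Finset.univ.biUnion (fun i => (P i).toFinset)).card + M := by
  classical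
  have hsub : S ∩ Finset.univ.biUnion (fun i => (P i).toFinset) ⊆
      Finset.univ.image (fun i => (P i).head (h.1.ne i)) := by
    intro v hv
    rw [Finset.mem_inter, Finset.mem_biUnion] at hv
    obtain ⟨hvS, i, -, hvi⟩ := hv
    rw [List.mem_toFinset] at hvi
    rw [Finset.mem_image]
    refine ⟨i, Finset.mem_univ _, ?_⟩
    have hne := h.1.ne i
    have hcons : P i = (P i).head hne :: (P i).tail := (List.cons_head_tail hne).symm
    by_contra hcon
    have htail : v ∈ (P i).tail := by
      rw [hcons] at hvi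
      rcases List.mem_cons.mp hvi with h1 | h1
      · exact absurd h1.symm hcon
      · exact h1
    have hdrop : v ∈ (P i).drop 1 := by
      rw [List.drop_one]
      exact htail
    exact h.notMem_S i v hdrop hvS
  have h1 := Finset.card_le_card hsub
  have h2 : (Finset.univ.image (fun i => (P i).head (h.1.ne i))).card ≤ M := by
    refine Finset.card_image_le.trans ?_
    rw [Finset.card_univ, Fintype.card_fin]
  have h3 := Finset.card_sdiff_add_card_inter S
    (Finset.univ.biUnion (fun i => (P i).toFinset))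
  omega

/-- Proof plan.  `κ = k t`.  Take an injection `e` of `Fin t × Fin (4k)` into the short indices,
`S₀ = S \ ⋃ P i` has `≥ 4 κ` elements (`PMin.notMem_S`: a path has at most one vertex in `S`, so
the paths use at most `1800 κ` of the `1804 κ` elements), same for `S'₀` (by `PMin.reverse`), and
injections `z` into `S₀`, `z'` into `S'₀`.  `Q i = (P (e i)).toFinset ∪ {z i, z' i}`, `M i = ∅`,
`a i`, `b i` the ends of `P (e i)`, `F = univ \ (X ∪ S ∪ S' ∪ ⋃ (P (e i)).toFinset)`.  The
complement of `F` has at most `κ + 2 * 1804 κ + 12 κ ≤ 5409 κ` elements, so all of `hF1`, `hF2`,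
`hW` (first alternative, second options), `hcard` are immediate. -/
theorem caseA {V : Type*} [Fintype V] [DecidableEq V] {A : V → V → Prop} (hT : Tour A)
    (k t : ℕ) (hk : 0 < k) (ht : 0 < t) (K Dp Dm : ℕ) (hK : 1200000000 * (k * t) ≤ K)
    (Xs : Fin t → Finset V) (hXk : ∀ j, (Xs j).card ≤ k) (S S' : Finset V)
    (hdeg : ∀ v, K ≤ (outN A v).card) (hdeg' : ∀ v, K ≤ (outN (rev A) v).card)
    (hS : S.card = 1804 * (k * t)) (hS' : S'.card = 1804 * (k * t)) (hSS : Disjoint S S')
    (hSX : Disjoint S (Finset.univ.biUnion Xs)) (hSX' : Disjoint S' (Finset.univ.biUnion Xs))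
    (hSD : ∀ s ∈ S, (outN A s).card ≤ Dp)
    (hwD : ∀ w, w ∉ S → w ∉ Finset.univ.biUnion Xs → Dp ≤ (outN A w).card)
    (hSD' : ∀ s ∈ S', (outN (rev A) s).card ≤ Dm)
    (hwD' : ∀ w, w ∉ S' → w ∉ Finset.univ.biUnion Xs → Dm ≤ (outN (rev A) w).card)
    (P : Fin (1800 * (k * t)) → List V)
    (hP : PMin A S S' (Finset.univ.biUnion Xs) (1800 * (k * t)) P)
    (hshort : 4 * (k * t) ≤ (Finset.univ.filter (fun i => (P i).length ≤ 3)).card) :
    Nonempty (Setup A k t (120000000 * (k * t)) (5409 * (k * t)) Dp Dm Xs) := by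
  classical
  set X : Finset V := Finset.univ.biUnion Xs with hXdef
  have hXc : X.card ≤ k * t := by
    refine (Finset.card_biUnion_le_card_mul _ _ k (fun j _ => hXk j)).trans ?_
    rw [Finset.card_univ, Fintype.card_fin, mul_comm]
  -- the short indices
  set I : Finset (Fin (1800 * (k * t))) := Finset.univ.filter (fun i => (P i).length ≤ 3)
    with hIdef
  have hι : Fintype.card (Fin t × Fin (4 * k)) = 4 * (k * t) := by
    rw [Fintype.card_prod, Fintype.card_fin, Fintype.card_fin]
    ring
  obtain ⟨e0⟩ : Nonempty ((Fin t × Fin (4 * k)) ↪ I) := by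
    apply Function.Embedding.nonempty_of_card_le
    rw [hι, Fintype.card_coe]
    exact hshort
  set e : Fin t × Fin (4 * k) → Fin (1800 * (k * t)) := fun i => (e0 i).1 with hedef
  have he_inj : Function.Injective e := by
    intro i j hij
    exact e0.injective (Subtype.ext hij)
  have he_short : ∀ i, (P (e i)).length ≤ 3 := by
    intro i
    have h1 : (e0 i).1 ∈ I := (e0 i).2
    exact (Finset.mem_filter.mp h1).2
  -- free vertices
  set W : Finset V := Finset.univ.biUnion (fun i => (P i).toFinset) with hWdef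
  have hWmem : ∀ v, v ∉ W → ∀ i, v ∉ P i := by
    intro v hv i hvi
    apply hv
    rw [hWdef, Finset.mem_biUnion]
    exact ⟨i, Finset.mem_univ _, by rw [List.mem_toFinset]; exact hvi⟩
  have hS0 : 4 * (k * t) ≤ (S \ W).card := by
    have h1 := CA_free hP
    rw [← hWdef] at h1
    omega
  have hS0' : 4 * (k * t) ≤ (S' \ W).card := by
    have h1 := CA_free hP.reverse
    have h2 : Finset.univ.biUnion (fun i => ((P i).reverse).toFinset) = W := by
      rw [hWdef]
      congr 1
      funext i
      rw [List.toFinset_reverse]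
    rw [h2] at h1
    omega
  obtain ⟨z0⟩ : Nonempty ((Fin t × Fin (4 * k)) ↪ (S \ W : Finset V)) := by
    apply Function.Embedding.nonempty_of_card_le
    rw [hι, Fintype.card_coe]
    exact hS0
  obtain ⟨z0'⟩ : Nonempty ((Fin t × Fin (4 * k)) ↪ (S' \ W : Finset V)) := by
    apply Function.Embedding.nonempty_of_card_le
    rw [hι, Fintype.card_coe]
    exact hS0'
  set z : Fin t × Fin (4 * k) → V := fun i => (z0 i).1 with hzdef
  set z' : Fin t × Fin (4 * k) → V := fun i => (z0' i).1 with hzdef'
  have hz_inj : Function.Injective z := fun i j hij => z0.injective (Subtype.ext hij)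
  have hz_inj' : Function.Injective z' := fun i j hij => z0'.injective (Subtype.ext hij)
  have hzS : ∀ i, z i ∈ S := fun i => (Finset.mem_sdiff.mp (z0 i).2).1
  have hzW : ∀ i, z i ∉ W := fun i => (Finset.mem_sdiff.mp (z0 i).2).2
  have hzS' : ∀ i, z' i ∈ S' := fun i => (Finset.mem_sdiff.mp (z0' i).2).1
  have hzW' : ∀ i, z' i ∉ W := fun i => (Finset.mem_sdiff.mp (z0' i).2).2
  set U : Finset V := Finset.univ.biUnion (fun i => (P (e i)).toFinset) with hUdef
  have hUc : U.card ≤ 12 * (k * t) := by
    have h1 : U.card ≤ (Finset.univ : Finset (Fin t × Fin (4 * k))).card * 3 := by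
      apply Finset.card_biUnion_le_card_mul
      intro i _
      exact (List.toFinset_card_le _).trans (he_short i)
    rw [Finset.card_univ, hι] at h1
    omega
  set R : Finset V := X ∪ S ∪ S' ∪ U with hRdef
  have hRc : R.card ≤ 3621 * (k * t) := by
    have h1 := Finset.card_union_le (X ∪ S ∪ S') U
    have h2 := Finset.card_union_le (X ∪ S) S'
    have h3 := Finset.card_union_le X S
    rw [hRdef]
    omega
  set F : Finset V := Finset.univ \ R with hFdef
  have hFmem : ∀ v, v ∈ F ↔ v ∉ R := by
    intro v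
    rw [hFdef, Finset.mem_sdiff]
    simp
  have hRmem : ∀ v, v ∈ R ↔ v ∈ X ∨ v ∈ S ∨ v ∈ S' ∨ v ∈ U := by
    intro v
    rw [hRdef, Finset.mem_union, Finset.mem_union, Finset.mem_union]
    tauto
  have hcap : ∀ B : Finset V, B.card ≤ (B ∩ F).card + 3621 * (k * t) := by
    intro B
    have h1 : B ⊆ (B ∩ F) ∪ R := by
      intro v hv
      rw [Finset.mem_union, Finset.mem_inter, hFmem]
      by_cases hvR : v ∈ R
      · exact Or.inr hvR
      · exact Or.inl ⟨hv, hvR⟩
    have h2 := Finset.card_le_card h1
    have h3 := Finset.card_union_le (B ∩ F) R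
    omega
  have hkt : 1 ≤ k * t := Nat.mul_pos hk ht
  have hPS := hP.1
  have hhead : ∀ i, (P (e i)).head? = some ((P (e i)).head (hPS.ne (e i))) :=
    fun i => List.head?_eq_some_head (hPS.ne (e i))
  have hlast : ∀ i, (P (e i)).getLast? = some ((P (e i)).getLast (hPS.ne (e i))) :=
    fun i => List.getLast?_eq_some_getLast (hPS.ne (e i))
  have hUsub : ∀ i, ∀ v ∈ P (e i), v ∈ U := by
    intro i v hv
    rw [hUdef, Finset.mem_biUnion]
    exact ⟨i, Finset.mem_univ _, by rw [List.mem_toFinset]; exact hv⟩
  have hQmem : ∀ i v, v ∈ (P (e i)).toFinset ∪ {z i, z' i} ↔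
      v ∈ P (e i) ∨ v = z i ∨ v = z' i := by
    intro i v
    rw [Finset.mem_union, List.mem_toFinset, Finset.mem_insert, Finset.mem_singleton]
  refine ⟨{
    F := F
    Q := fun i => (P (e i)).toFinset ∪ {z i, z' i}
    M := fun _ => ∅
    a := fun i => (P (e i)).head (hPS.ne (e i))
    b := fun i => (P (e i)).getLast (hPS.ne (e i))
    z := z
    z' := z'
    hQd := ?_
    hQF := ?_
    hxQ := ?_
    hxF := ?_
    ha := ?_
    hb := ?_
    hz := ?_
    hz' := ?_
    hconn := ?_
    hMQ := ?_
    hE := ?_
    hM := ?_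
    hda := ?_
    hdz := ?_
    hdb := ?_
    hdz' := ?_
    hF1 := ?_
    hF2 := ?_
    hW := ?_
    hcard := ?_ }⟩
  · intro i j hij
    rw [Finset.disjoint_left]
    intro v hv hv'
    rw [hQmem] at hv hv'
    rcases hv with hv | rfl | rfl
    · rcases hv' with hv' | rfl | rfl
      · exact hPS.disj (e i) (e j) (fun h => hij (he_inj h)) hv hv'
      · exact hWmem _ (hzW j) _ hv
      · exact hWmem _ (hzW' j) _ hv
    · rcases hv' with hv' | hv' | hv'
      · exact hWmem _ (hzW i) _ hv'
      · exact hij (hz_inj hv')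
      · exact Finset.disjoint_left.mp hSS (hzS i) (hv' ▸ hzS' j)
    · rcases hv' with hv' | hv' | hv'
      · exact hWmem _ (hzW' i) _ hv'
      · exact Finset.disjoint_left.mp hSS (hzS j) (hv' ▸ hzS' i)
      · exact hij (hz_inj' hv')
  · intro i
    rw [Finset.disjoint_left]
    intro v hv hvF
    rw [hQmem] at hv
    rw [hFmem, hRmem] at hvF
    apply hvF
    rcases hv with hv | rfl | rfl
    · exact Or.inr (Or.inr (Or.inr (hUsub i v hv)))
    · exact Or.inr (Or.inl (hzS i))
    · exact Or.inr (Or.inr (Or.inl (hzS' i)))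
  · intro j i v hvj hv
    have hxj : v ∈ X := Finset.mem_biUnion.2 ⟨j, Finset.mem_univ j, hvj⟩
    rw [hQmem] at hv
    rcases hv with hv | hv | hv
    · exact hPS.avoid (e i) _ hv hxj
    · exact Finset.disjoint_left.mp hSX (hzS i) (hv ▸ hxj)
    · exact Finset.disjoint_left.mp hSX' (hzS' i) (hv ▸ hxj)
  · intro j v hvj hv
    rw [hFmem, hRmem] at hv
    exact hv (Or.inl (Finset.mem_biUnion.2 ⟨j, Finset.mem_univ j, hvj⟩))
  · intro i
    rw [hQmem]
    exact Or.inl (List.head_mem _)
  · intro i
    rw [hQmem]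
    exact Or.inl (List.getLast_mem _)
  · intro i
    rw [hQmem]
    exact Or.inr (Or.inl rfl)
  · intro i
    rw [hQmem]
    exact Or.inr (Or.inr rfl)
  · intro i
    refine (hPS.rin (e i) _ _ (hhead i) (hlast i)).mono ?_
    intro v hv
    exact Finset.mem_coe.mpr (Finset.mem_union_left _ (Finset.mem_coe.mp hv))
  · intro i
    exact Finset.empty_subset _
  · intro i
    rw [Finset.sdiff_empty]
    refine (Finset.card_union_le _ _).trans ?_
    have h1 : (P (e i)).toFinset.card ≤ 3 := (List.toFinset_card_le _).trans (he_short i)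
    have h2 : ({z i, z' i} : Finset V).card ≤ 2 := Finset.card_le_two
    omega
  · intro i v hv
    exact absurd hv (Finset.notMem_empty v)
  · intro i
    exact hSD _ (hPS.head (e i) _ (hhead i))
  · intro i
    exact hSD _ (hzS i)
  · intro i
    exact hSD' _ (hPS.last (e i) _ (hlast i))
  · intro i
    exact hSD' _ (hzS' i)
  · intro f hf
    rw [hFmem, hRmem] at hf
    right
    have h1 := hwD f (fun h => hf (Or.inr (Or.inl h))) (fun h => hf (Or.inl h))
    have h2 := hcap (outN A f)
    omega
  · intro f hf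
    rw [hFmem, hRmem] at hf
    right
    have h1 := hwD' f (fun h => hf (Or.inr (Or.inr (Or.inl h)))) (fun h => hf (Or.inl h))
    have h2 := hcap (outN (rev A) f)
    omega
  · intro w _
    left
    refine ⟨Or.inr ?_, Or.inr ?_⟩
    · have h1 := hdeg w
      have h2 := hcap (outN A w)
      omega
    · have h1 := hdeg' w
      have h2 := hcap (outN (rev A) w)
      omega
  · have h1 : Finset.univ \ (F ∪ Finset.univ.biUnion (fun _ : Fin t × Fin (4 * k) =>
        (∅ : Finset V))) ⊆ R := by
      intro v hv
      rw [Finset.mem_sdiff, Finset.mem_union, not_or, hFmem, not_not] at hv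
      exact hv.2.1
    have h2 := Finset.card_le_card h1
    omega

end Pool.Agent.Lib.A8780
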