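import Mathlib

/-!
Rounding lemma.  `x = 1/8` satisfies all the covering constraints; move inside the box
`[0,1]^I` along the kernel of the constraint matrix (and of the all-one functional) until at most
`Ys.card + 1` coordinates are fractional, then round all positive coordinates up.
-/

set_option autoImplicit false

namespace Pool.Agent.Lib.A8780

theorem repair_step {ι Y : Type*} [DecidableEq ι] (I : Finset ι) (Ys : Finset Y) (a : Y → ι → ℝ)
    (x : ι → ℝ) (h0 : ∀ i ∈ I, 0 ≤ x i) (h1 : ∀ i ∈ I, x i ≤ 1)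
    (hc : Ys.card + 1 < (I.filter (fun i => 0 < x i ∧ x i < 1)).card) :
    ∃ x' : ι → ℝ, (∀ i ∈ I, 0 ≤ x' i) ∧ (∀ i ∈ I, x' i ≤ 1) ∧
      (∀ y ∈ Ys, ∑ i ∈ I, a y i * x' i = ∑ i ∈ I, a y i * x i) ∧
      ∑ i ∈ I, x' i = ∑ i ∈ I, x i ∧
      (I.filter (fun i => 0 < x' i ∧ x' i < 1)).card <
        (I.filter (fun i => 0 < x i ∧ x i < 1)).card := by
  classical
  set F := I.filter (fun i => 0 < x i ∧ x i < 1) with hF
  let f : (F → ℝ) →ₗ[ℝ] ((Ys → ℝ) × ℝ) :=
    { toFun := fun v => (fun y => ∑ i : F, a y.1 i.1 * v i, ∑ i : F, v i)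
      map_add' := by
        intro v w
        ext y
        · simp [mul_add, Finset.sum_add_distrib]
        · simp [Finset.sum_add_distrib]
      map_smul' := by
        intro c v
        ext y
        · simp only [Pi.smul_apply, smul_eq_mul, RingHom.id_apply, Prod.smul_fst, Finset.mul_sum]
          exact Finset.sum_congr rfl fun i _ => by ring
        · simp [Finset.mul_sum] }
  have hker : LinearMap.ker f ≠ ⊥ := by
    apply LinearMap.ker_ne_bot_of_finrank_lt
    rw [Module.finrank_prod, Module.finrank_pi, Module.finrank_pi, Module.finrank_self]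
    simpa using hc
  obtain ⟨v, hv, hv0⟩ := (Submodule.ne_bot_iff _).mp hker
  rw [LinearMap.mem_ker] at hv
  have hvy : ∀ y ∈ Ys, ∑ i : F, a y i.1 * v i = 0 := by
    intro y hy
    exact congrFun (congrArg Prod.fst hv) ⟨y, hy⟩
  have hvs : ∑ i : F, v i = 0 := congrArg Prod.snd hv
  let w : ι → ℝ := fun i => if h : i ∈ F then v ⟨i, h⟩ else 0
  have hw : ∀ i, i ∉ F → w i = 0 := fun i hi => dif_neg hi
  have hsum : ∀ g : ι → ℝ, ∑ i ∈ I, g i * w i = ∑ i : F, g i.1 * v i := by
    intro g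
    have h2 : ∑ i ∈ I, g i * w i = ∑ i ∈ F, g i * w i := by
      refine (Finset.sum_subset (Finset.filter_subset _ _) ?_).symm
      intro i _ hi
      rw [hw i hi, mul_zero]
    rw [h2, ← Finset.sum_coe_sort F (fun i => g i * w i)]
    refine Finset.sum_congr rfl fun i _ => ?_
    simp only [w, i.2, dif_pos]
  have hwy : ∀ y ∈ Ys, ∑ i ∈ I, a y i * w i = 0 := fun y hy => by rw [hsum, hvy y hy]
  have hws : ∑ i ∈ I, w i = 0 := by
    have := hsum (fun _ => 1)
    simp only [one_mul] at this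
    rw [this, hvs]
  have hne : (F.filter (fun i => w i ≠ 0)).Nonempty := by
    by_contra hn
    rw [Finset.not_nonempty_iff_eq_empty, Finset.filter_eq_empty_iff] at hn
    apply hv0
    ext i
    have := hn i.2
    rw [not_not] at this
    have h3 : w i.1 = v i := by
      simp only [w, i.2, dif_pos]
    rw [h3] at this
    simpa using this
  let r : ι → ℝ := fun i => if 0 < w i then (1 - x i) / w i else x i / (-(w i))
  obtain ⟨i0, hi0, hmin⟩ := Finset.exists_min_image _ r hne
  rw [Finset.mem_filter] at hi0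
  obtain ⟨hi0F, hwi0⟩ := hi0
  have hFI : ∀ i ∈ F, i ∈ I ∧ 0 < x i ∧ x i < 1 := fun i hi => Finset.mem_filter.mp hi
  have hrpos : 0 < r i0 := by
    obtain ⟨_, hp, hq⟩ := hFI i0 hi0F
    simp only [r]
    split_ifs with h
    · exact div_pos (by linarith) h
    · have : w i0 < 0 := lt_of_le_of_ne (not_lt.mp h) hwi0
      exact div_pos hp (by linarith)
  have hbox : ∀ i ∈ I, 0 ≤ x i + r i0 * w i ∧ x i + r i0 * w i ≤ 1 := by
    intro i hi
    by_cases hiF : i ∈ F
    · by_cases hwi : w i = 0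
      · rw [hwi, mul_zero, add_zero]
        exact ⟨h0 i hi, h1 i hi⟩
      · have hle := hmin i (Finset.mem_filter.mpr ⟨hiF, hwi⟩)
        obtain ⟨_, hp, hq⟩ := hFI i hiF
        by_cases h : 0 < w i
        · have hr : r i = (1 - x i) / w i := if_pos h
          rw [hr, le_div_iff₀ h] at hle
          refine ⟨by positivity, by linarith⟩
        · have hneg : w i < 0 := lt_of_le_of_ne (not_lt.mp h) hwi
          have hr : r i = x i / (-(w i)) := if_neg h
          rw [hr, le_div_iff₀ (by linarith)] at hle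
          refine ⟨by linarith, ?_⟩
          nlinarith
    · rw [hw i hiF, mul_zero, add_zero]
      exact ⟨h0 i hi, h1 i hi⟩
  refine ⟨fun i => x i + r i0 * w i, fun i hi => (hbox i hi).1, fun i hi => (hbox i hi).2,
    ?_, ?_, ?_⟩
  · intro y hy
    have h2 : ∑ i ∈ I, a y i * (x i + r i0 * w i) =
        ∑ i ∈ I, a y i * x i + r i0 * ∑ i ∈ I, a y i * w i := by
      rw [Finset.mul_sum, ← Finset.sum_add_distrib]
      exact Finset.sum_congr rfl fun i _ => by ring
    rw [h2, hwy y hy, mul_zero, add_zero]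
  · rw [Finset.sum_add_distrib, ← Finset.mul_sum, hws, mul_zero, add_zero]
  · apply Finset.card_lt_card
    rw [Finset.ssubset_iff_of_subset]
    · refine ⟨i0, hi0F, ?_⟩
      rw [Finset.mem_filter]
      rintro ⟨_, hp, hq⟩
      change 0 < x i0 + r i0 * w i0 at hp
      change x i0 + r i0 * w i0 < 1 at hq
      by_cases h : 0 < w i0
      · have hr : r i0 = (1 - x i0) / w i0 := if_pos h
        rw [hr, div_mul_cancel₀ _ hwi0] at hq
        linarith
      · have hr : r i0 = x i0 / (-(w i0)) := if_neg h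
        rw [hr, div_neg, neg_mul, div_mul_cancel₀ _ hwi0] at hp
        linarith
    · intro i hi
      rw [Finset.mem_filter] at hi
      obtain ⟨hiI, hp, hq⟩ := hi
      by_contra hiF
      change 0 < x i + r i0 * w i at hp
      change x i + r i0 * w i < 1 at hq
      rw [hw i hiF, mul_zero, add_zero] at hp hq
      exact hiF (Finset.mem_filter.mpr ⟨hiI, hp, hq⟩)

theorem repair_real {ι Y : Type*} [DecidableEq ι] (I : Finset ι) (Ys : Finset Y) (a : Y → ι → ℝ) :
    ∀ (n : ℕ) (x : ι → ℝ), (∀ i ∈ I, 0 ≤ x i) → (∀ i ∈ I, x i ≤ 1) →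
    (I.filter (fun i => 0 < x i ∧ x i < 1)).card = n →
    ∃ x' : ι → ℝ, (∀ i ∈ I, 0 ≤ x' i) ∧ (∀ i ∈ I, x' i ≤ 1) ∧
      (∀ y ∈ Ys, ∑ i ∈ I, a y i * x' i = ∑ i ∈ I, a y i * x i) ∧
      ∑ i ∈ I, x' i = ∑ i ∈ I, x i ∧
      (I.filter (fun i => 0 < x' i ∧ x' i < 1)).card ≤ Ys.card + 1 := by
  intro n
  induction n using Nat.strong_induction_on with
  | _ n ih =>
    intro x h0 h1 hn
    by_cases hc : Ys.card + 1 < (I.filter (fun i => 0 < x i ∧ x i < 1)).card
    · obtain ⟨x1, a1, a2, a3, a4, a5⟩ := repair_step I Ys a x h0 h1 hc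
      obtain ⟨x2, b1, b2, b3, b4, b5⟩ := ih _ (hn ▸ a5) x1 a1 a2 rfl
      exact ⟨x2, b1, b2, fun y hy => (b3 y hy).trans (a3 y hy), b4.trans a4, b5⟩
    · exact ⟨x, h0, h1, fun _ _ => rfl, rfl, not_lt.mp hc⟩

theorem repair {ι Y : Type*} [DecidableEq ι] (I : Finset ι) (Ys : Finset Y) (a : Y → ι → ℕ)
    (D : ℕ) (h : ∀ y ∈ Ys, 8 * D ≤ ∑ i ∈ I, a y i) :
    ∃ U ⊆ I, 8 * U.card ≤ I.card + 8 * (Ys.card + 1) ∧ ∀ y ∈ Ys, D ≤ ∑ i ∈ U, a y i := by
  obtain ⟨x, h0, h1, hy, hs, hF⟩ := repair_real I Ys (fun y i => (a y i : ℝ)) _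
    (fun _ => (1 / 8 : ℝ)) (fun _ _ => by norm_num) (fun _ _ => by norm_num) rfl
  refine ⟨I.filter (fun i => 0 < x i), Finset.filter_subset _ _, ?_, ?_⟩
  · have h2 : I.filter (fun i => 0 < x i) = I.filter (fun i => 0 < x i ∧ x i < 1) ∪
        I.filter (fun i => x i = 1) := by
      ext i
      simp only [Finset.mem_filter, Finset.mem_union]
      constructor
      · rintro ⟨hi, hp⟩
        rcases (h1 i hi).lt_or_eq with h | h
        · exact Or.inl ⟨hi, hp, h⟩
        · exact Or.inr ⟨hi, h⟩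
      · rintro (⟨hi, hp, _⟩ | ⟨hi, h⟩)
        · exact ⟨hi, hp⟩
        · exact ⟨hi, by rw [h]; norm_num⟩
    have h3 : ((I.filter (fun i => x i = 1)).card : ℝ) ≤ ∑ i ∈ I, x i := by
      calc ((I.filter (fun i => x i = 1)).card : ℝ) = ∑ i ∈ I.filter (fun i => x i = 1), x i := by
            rw [Finset.sum_congr rfl (fun i hi => (Finset.mem_filter.mp hi).2)]
            simp
        _ ≤ ∑ i ∈ I, x i :=
            Finset.sum_le_sum_of_subset_of_nonneg (Finset.filter_subset _ _)
              fun i hi _ => h0 i hi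
    rw [hs] at h3
    simp only [Finset.sum_const, nsmul_eq_mul] at h3
    have h4 : 8 * (I.filter (fun i => x i = 1)).card ≤ I.card := by
      have : (8 : ℝ) * ((I.filter (fun i => x i = 1)).card : ℝ) ≤ (I.card : ℝ) := by linarith
      exact_mod_cast this
    have h5 : (I.filter (fun i => 0 < x i)).card ≤
        (I.filter (fun i => 0 < x i ∧ x i < 1)).card + (I.filter (fun i => x i = 1)).card := by
      rw [h2]
      exact Finset.card_union_le _ _
    omega
  · intro y hyY
    have h2 := h y hyY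
    have h3 : (D : ℝ) ≤ ∑ i ∈ I, (a y i : ℝ) * x i := by
      rw [hy y hyY, ← Finset.sum_mul]
      have : (8 : ℝ) * (D : ℝ) ≤ ∑ i ∈ I, (a y i : ℝ) := by exact_mod_cast h2
      linarith
    have h4 : ∑ i ∈ I, (a y i : ℝ) * x i ≤ ∑ i ∈ I.filter (fun i => 0 < x i), (a y i : ℝ) := by
      rw [Finset.sum_filter]
      refine Finset.sum_le_sum fun i hi => ?_
      split_ifs with hp
      · exact mul_le_of_le_one_right (by positivity) (h1 i hi)
      · have : x i = 0 := le_antisymm (not_lt.mp hp) (h0 i hi)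
        rw [this, mul_zero]
    have : (D : ℝ) ≤ ((∑ i ∈ I.filter (fun i => 0 < x i), a y i : ℕ) : ℝ) := by
      rw [Nat.cast_sum]
      exact h3.trans h4
    exact_mod_cast this

end Pool.Agent.Lib.A8780
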