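import Mathlib

/-!
Selecting a large subfamily with small mutual weights: take `g : I → Fin 16` with the least
internal weight (average over all `g` is `1/16` of the total), drop the `i` with internal weight
`> 1/2` (at most half of `I`), and take the best colour.
-/

set_option autoImplicit false

namespace Pool.Agent.Lib.A8780

/-- internal weight of the colouring `g` -/
private def W {ι : Type*} [DecidableEq ι] (c : ι → ι → ℚ) (I : Finset ι) (g : ι → Fin 16) : ℚ :=
  ∑ i ∈ I, ∑ j ∈ I.erase i, if g i = g j then c i j else 0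

private theorem exists_colour {ι : Type*} [DecidableEq ι] (c : ι → ι → ℚ) (I : Finset ι) :
    ∃ g : ι → Fin 16, 16 * W c I g ≤ ∑ i ∈ I, ∑ j ∈ I.erase i, c i j := by
  induction I using Finset.induction_on with
  | empty => exact ⟨fun _ => 0, by simp [W]⟩
  | insert a I ha ih =>
    obtain ⟨g, hg⟩ := ih
    -- choose the colour of a
    have hcol : ∃ k : Fin 16, 16 * (∑ j ∈ I, if g j = k then c a j + c j a else 0) ≤
        ∑ j ∈ I, (c a j + c j a) := by
      by_contra hcon
      push Not at hcon
      have h1 : ∑ k : Fin 16, (∑ j ∈ I, (c a j + c j a)) <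
          ∑ k : Fin 16, 16 * (∑ j ∈ I, if g j = k then c a j + c j a else 0) :=
        Finset.sum_lt_sum_of_nonempty Finset.univ_nonempty (fun k _ => hcon k)
      have h2 : ∀ j ∈ I, (∑ k : Fin 16, if g j = k then c a j + c j a else 0) =
          c a j + c j a := by
        intro j _
        rw [Finset.sum_ite_eq]
        simp
      have h3 : ∑ k : Fin 16, ∑ j ∈ I, (if g j = k then c a j + c j a else 0) =
          ∑ j ∈ I, (c a j + c j a) := by
        rw [Finset.sum_comm]
        exact Finset.sum_congr rfl h2
      rw [← Finset.mul_sum, h3] at h1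
      simp at h1
    obtain ⟨k, hk⟩ := hcol
    refine ⟨Function.update g a k, ?_⟩
    have her : ∀ i ∈ I, (insert a I).erase i = insert a (I.erase i) := by
      intro i hi
      have hia : a ≠ i := fun h => ha (h ▸ hi)
      rw [Finset.erase_insert_of_ne hia]
    have hna : ∀ i, a ∉ I.erase i := fun i h => ha (Finset.mem_of_mem_erase h)
    have hne : ∀ i ∈ I, i ≠ a := fun i hi h => ha (h ▸ hi)
    have e1 : W c (insert a I) (Function.update g a k) =
        (∑ j ∈ I, if g j = k then c a j + c j a else 0) + W c I g := by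
      unfold W
      rw [Finset.sum_insert ha, Finset.erase_insert ha]
      have h1 : ∀ i ∈ I, (∑ j ∈ (insert a I).erase i,
          if Function.update g a k i = Function.update g a k j then c i j else 0) =
          (if g i = k then c i a else 0) + ∑ j ∈ I.erase i, if g i = g j then c i j else 0 := by
        intro i hi
        rw [her i hi, Finset.sum_insert (hna i), Function.update_self,
          Function.update_of_ne (hne i hi)]
        congr 1
        refine Finset.sum_congr rfl fun j hj => ?_
        rw [Function.update_of_ne (hne j (Finset.mem_of_mem_erase hj))]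
      rw [Finset.sum_congr rfl h1, Finset.sum_add_distrib, ← add_assoc, Function.update_self]
      congr 1
      rw [← Finset.sum_add_distrib]
      refine Finset.sum_congr rfl fun j hj => ?_
      rw [Function.update_of_ne (hne j hj)]
      by_cases h : g j = k
      · simp [h]
      · have h' : ¬ k = g j := fun e => h e.symm
        simp [h, h']
    have e2 : (∑ i ∈ insert a I, ∑ j ∈ (insert a I).erase i, c i j) =
        (∑ j ∈ I, (c a j + c j a)) + ∑ i ∈ I, ∑ j ∈ I.erase i, c i j := by
      rw [Finset.sum_insert ha, Finset.erase_insert ha]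
      have h1 : ∀ i ∈ I, (∑ j ∈ (insert a I).erase i, c i j) =
          c i a + ∑ j ∈ I.erase i, c i j := by
        intro i hi
        rw [her i hi, Finset.sum_insert (hna i)]
      rw [Finset.sum_congr rfl h1, Finset.sum_add_distrib, Finset.sum_add_distrib]
      ring
    rw [e1, e2]
    linarith

theorem subsel {ι : Type*} [DecidableEq ι] (I : Finset ι) (c : ι → ι → ℚ)
    (hc : ∀ i j, 0 ≤ c i j) (h4 : ∀ i ∈ I, ∑ j ∈ I.erase i, c i j ≤ 4) :
    ∃ J ⊆ I, I.card ≤ 32 * J.card ∧ ∀ i ∈ J, ∑ j ∈ J.erase i, c i j ≤ 1 / 2 := by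
  obtain ⟨g, hg⟩ := exists_colour c I
  have htot : ∑ i ∈ I, ∑ j ∈ I.erase i, c i j ≤ 4 * I.card := by
    calc ∑ i ∈ I, ∑ j ∈ I.erase i, c i j ≤ ∑ i ∈ I, (4 : ℚ) := Finset.sum_le_sum h4
      _ = 4 * I.card := by rw [Finset.sum_const, nsmul_eq_mul]; ring
  set w : ι → ℚ := fun i => ∑ j ∈ I.erase i, if g i = g j then c i j else 0 with hw
  have hwn : ∀ i, 0 ≤ w i := by
    intro i
    refine Finset.sum_nonneg fun j _ => ?_
    split_ifs
    · exact hc i j
    · exact le_rfl
  have hWw : W c I g = ∑ i ∈ I, w i := rfl
  set I' := I.filter (fun i => w i ≤ 1 / 2) with hI'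
  set B := I.filter (fun i => ¬ w i ≤ 1 / 2) with hB
  have hcard : I'.card + B.card = I.card := Finset.card_filter_add_card_filter_not _
  have hBw : (B.card : ℚ) * (1 / 2) ≤ ∑ i ∈ I, w i := by
    calc (B.card : ℚ) * (1 / 2) = ∑ i ∈ B, (1 / 2 : ℚ) := by
          rw [Finset.sum_const, nsmul_eq_mul]
      _ ≤ ∑ i ∈ B, w i := Finset.sum_le_sum fun i hi => by
          have := (Finset.mem_filter.mp hi).2
          push Not at this
          exact this.le
      _ ≤ ∑ i ∈ I, w i :=
          Finset.sum_le_sum_of_subset_of_nonneg (Finset.filter_subset _ _) fun i _ _ => hwn i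
  have hB2 : (B.card : ℚ) * 2 ≤ I.card := by
    rw [hWw] at hg
    linarith
  have hB3 : B.card * 2 ≤ I.card := by exact_mod_cast hB2
  have hI2 : I.card ≤ 2 * I'.card := by omega
  -- best colour
  have hk : ∃ k : Fin 16, I'.card ≤ 16 * (I'.filter (fun i => g i = k)).card := by
    by_contra hcon
    push Not at hcon
    have h1 : ∑ k : Fin 16, 16 * (I'.filter (fun i => g i = k)).card <
        ∑ k : Fin 16, I'.card :=
      Finset.sum_lt_sum_of_nonempty Finset.univ_nonempty (fun k _ => hcon k)
    rw [← Finset.mul_sum] at h1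
    have h2 : ∑ k : Fin 16, (I'.filter (fun i => g i = k)).card = I'.card :=
      (Finset.card_eq_sum_card_fiberwise (f := g) (s := I') (t := Finset.univ)
        (fun i _ => Finset.mem_univ _)).symm
    rw [h2] at h1
    simp at h1
  obtain ⟨k, hk⟩ := hk
  refine ⟨I'.filter (fun i => g i = k), (Finset.filter_subset _ _).trans
    (Finset.filter_subset _ _), by omega, ?_⟩
  intro i hi
  obtain ⟨hi1, hi2⟩ := Finset.mem_filter.mp hi
  obtain ⟨hi3, hi4⟩ := Finset.mem_filter.mp hi1
  refine le_trans ?_ hi4
  calc ∑ j ∈ (I'.filter (fun i => g i = k)).erase i, c i j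
      = ∑ j ∈ (I'.filter (fun i => g i = k)).erase i, (if g i = g j then c i j else 0) := by
        refine Finset.sum_congr rfl fun j hj => ?_
        have hj2 := (Finset.mem_filter.mp (Finset.mem_of_mem_erase hj)).2
        rw [if_pos (hi2.trans hj2.symm)]
    _ ≤ w i := by
        refine Finset.sum_le_sum_of_subset_of_nonneg ?_ fun j _ _ => ?_
        · exact Finset.erase_subset_erase _ ((Finset.filter_subset _ _).trans
            (Finset.filter_subset _ _))
        · split_ifs
          · exact hc i j
          · exact le_rfl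

end Pool.Agent.Lib.A8780
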