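import Pool.Agent.Lib.A8780.Setup
import Pool.Agent.Lib.A8780.Paths
import Pool.Agent.Lib.A8780.Repair
import Pool.Agent.Lib.A8780.Subsel

/-!
Case B: fewer than `4 k t` paths of the least family have at most three vertices.
-/

set_option autoImplicit false
set_option maxHeartbeats 4000000

namespace Pool.Agent.Lib.A8780

namespace CB

/-! ### lists -/

section lists

variable {V : Type*}

theorem mem_take_or_drop (n : ℕ) {l : List V} {v : V} (h : v ∈ l) : v ∈ l.take n ∨ v ∈ l.drop n := by
  rw [← List.take_append_drop n l] at h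
  exact List.mem_append.mp h

theorem take_mem_rev_drop {l : List V} (h4 : 4 ≤ l.length) {v : V} (hv : v ∈ l.take 2) :
    v ∈ l.reverse.drop 2 := by
  rw [List.drop_reverse, List.mem_reverse]
  exact List.take_subset_take_left l (by omega) hv

theorem rev_take_mem_drop {l : List V} (h4 : 4 ≤ l.length) {v : V} (hv : v ∈ l.reverse.take 2) :
    v ∈ l.drop 2 := by
  have := take_mem_rev_drop (l := l.reverse) (by rwa [List.length_reverse]) hv
  rwa [List.reverse_reverse] at this

variable [DecidableEq V]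

/-- all vertices but the first two and the last two -/
def midF (l : List V) : Finset V :=
  l.toFinset.filter (fun v => v ∈ l.drop 2 ∧ v ∈ l.reverse.drop 2)

/-- the first two and the last two vertices -/
def endF (l : List V) : Finset V := (l.take 2).toFinset ∪ (l.reverse.take 2).toFinset

theorem mem_midF {l : List V} {v : V} : v ∈ midF l ↔ v ∈ l ∧ v ∈ l.drop 2 ∧ v ∈ l.reverse.drop 2 := by
  unfold midF
  rw [Finset.mem_filter, List.mem_toFinset]

theorem mem_endF {l : List V} {v : V} : v ∈ endF l ↔ v ∈ l.take 2 ∨ v ∈ l.reverse.take 2 := by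
  unfold endF
  rw [Finset.mem_union, List.mem_toFinset, List.mem_toFinset]

theorem mid_or_end {l : List V} {v : V} (h : v ∈ l) : v ∈ midF l ∨ v ∈ endF l := by
  rw [mem_midF, mem_endF]
  rcases mem_take_or_drop 2 h with h1 | h1
  · exact Or.inr (Or.inl h1)
  · rcases mem_take_or_drop 2 (List.mem_reverse.mpr h) with h2 | h2
    · exact Or.inr (Or.inr h2)
    · exact Or.inl ⟨h, h1, h2⟩

theorem endF_mem {l : List V} {v : V} (h : v ∈ endF l) : v ∈ l := by
  rcases mem_endF.mp h with h | h
  · exact List.mem_of_mem_take h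
  · exact List.mem_reverse.mp (List.mem_of_mem_take h)

theorem card_take_le (l : List V) (n : ℕ) : ((l.take n).toFinset).card ≤ n :=
  (List.toFinset_card_le _).trans (by rw [List.length_take]; omega)

theorem card_endF (l : List V) : (endF l).card ≤ 4 := by
  have h1 := card_take_le l 2
  have h2 := card_take_le l.reverse 2
  have h3 := Finset.card_union_le (l.take 2).toFinset (l.reverse.take 2).toFinset
  unfold endF
  omega

end lists

variable {V : Type*} [Fintype V] [DecidableEq V] {A : V → V → Prop} {S S' X : Finset V} {M : ℕ}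
  {P : Fin M → List V}

/-- the vertices of the paths -/
def VP (P : Fin M → List V) : Finset V := Finset.univ.biUnion (fun i => (P i).toFinset)

omit [Fintype V] in
theorem mem_VP {v : V} : v ∈ VP P ↔ ∃ i, v ∈ P i := by
  unfold VP
  simp

omit [Fintype V] in
theorem VP_reverse (P : Fin M → List V) : VP (fun i => (P i).reverse) = VP P := by
  ext v
  rw [mem_VP, mem_VP]
  simp

omit [Fintype V] in
/-- the number of unused start vertices -/
theorem card_unused (h : PMin A S S' X M P) : (S \ VP P).card + M = S.card := by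
  have hd : ∀ i, ∃ s, (P i).head? = some s := by
    intro i
    cases hP : P i with
    | nil => exact absurd hP (h.1.ne i)
    | cons a l => exact ⟨a, rfl⟩
  choose hd hhd using hd
  have hmem : ∀ i, hd i ∈ P i := fun i => List.mem_of_mem_head? (hhd i)
  have hinj : Function.Injective hd := by
    intro i j hij
    by_contra hne
    exact h.1.disj i j hne (hmem i) (hij ▸ hmem j)
  have himg : S ∩ VP P = Finset.univ.image hd := by
    ext v
    rw [Finset.mem_inter, mem_VP, Finset.mem_image]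
    constructor
    · rintro ⟨hvS, i, hvi⟩
      refine ⟨i, Finset.mem_univ i, ?_⟩
      rcases mem_take_or_drop 1 hvi with h1 | h1
      · cases hP : P i with
        | nil => rw [hP] at hvi; simp at hvi
        | cons a l =>
          have h2 := hhd i
          rw [hP] at h1 h2
          simp only [List.head?_cons, Option.some.injEq] at h2
          rw [List.take_succ_cons, List.take_zero, List.mem_singleton] at h1
          rw [h1, h2]
      · exact absurd hvS (h.notMem_S i v h1)
    · rintro ⟨i, -, rfl⟩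
      exact ⟨h.1.head i _ (hhd i), i, hmem i⟩
  have h1 : (S ∩ VP P).card = M := by
    rw [himg, Finset.card_image_of_injective _ hinj, Finset.card_univ, Fintype.card_fin]
  have h2 := Finset.card_sdiff_add_card_inter S (VP P)
  omega

omit [Fintype V] in
theorem start' (hT : Tour A) (h : PMin A S S' X M P) {s : V} (hs : s ∈ S \ VP P) (hsX : s ∉ X)
    {i : Fin M} {v : V} (hv : v ∈ (P i).drop 2) : A v s := by
  rw [Finset.mem_sdiff, mem_VP] at hs
  have h1 := h.start s hs.1 hsX (fun j hj => hs.2 ⟨j, hj⟩) i v hv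
  have hne : v ≠ s := by
    rintro rfl
    exact hs.2 ⟨i, List.mem_of_mem_drop hv⟩
  rcases hT.tot v s hne with h2 | h2
  · exact h2
  · exact absurd h2 h1

/-- the bound `hF1` for vertices off the paths -/
theorem F1_side (h : PMin A S S' X M P) {s f : V} (hs : s ∈ S \ VP P)
    (hsX : s ∉ X) (hfX : f ∉ X) (hfP : f ∉ VP P) (hfs : f ≠ s) (hsf : A s f) {F W : Finset V}
    (hF : ∀ v, v ∉ F → v ∈ W ∨ v ∈ VP P) :
    (outN A f).card ≤ (outN A f ∩ F).card + (W.card + 3 * M) := by
  rw [Finset.mem_sdiff, mem_VP] at hs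
  rw [mem_VP] at hfP
  push Not at hfP
  have hsub : outN A f ⊆ (outN A f ∩ F) ∪ (W ∪
      Finset.univ.biUnion (fun i => ((P i).take 3).toFinset)) := by
    intro v hv
    by_cases hvF : v ∈ F
    · exact Finset.mem_union_left _ (Finset.mem_inter.mpr ⟨hv, hvF⟩)
    · refine Finset.mem_union_right _ ?_
      rcases hF v hvF with h1 | h1
      · exact Finset.mem_union_left _ h1
      · refine Finset.mem_union_right _ ?_
        obtain ⟨i, hi⟩ := mem_VP.mp h1
        rcases mem_take_or_drop 3 hi with h2 | h2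
        · exact Finset.mem_biUnion.mpr ⟨i, Finset.mem_univ i, List.mem_toFinset.mpr h2⟩
        · exact absurd ((mem_outN A f v).mp hv) (h.via s hs.1 hsX (fun j hj => hs.2 ⟨j, hj⟩) f hfX
            hfP hfs hsf i v h2)
  have h1 := (Finset.card_le_card hsub).trans (Finset.card_union_le _ _)
  have h2 := Finset.card_union_le W
    (Finset.univ.biUnion (fun i => ((P i).take 3).toFinset))
  have h3 : (Finset.univ.biUnion (fun i => ((P i).take 3).toFinset)).card ≤ 3 * M := by
    refine (Finset.card_biUnion_le).trans ?_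
    refine (Finset.sum_le_sum (fun i _ => card_take_le (P i) 3)).trans ?_
    rw [Finset.sum_const, Finset.card_univ, Fintype.card_fin, smul_eq_mul, mul_comm]
  omega

/-- counting for all vertices -/
theorem count1 {F Y Z : Finset V} (w : V) (hcov : ∀ v, v ∉ F → v ∈ Y ∨ v ∈ Z) :
    (outN A w).card ≤ (outN A w ∩ F).card + (Y.card + (outN A w ∩ Z).card) := by
  have hsub : outN A w ⊆ (outN A w ∩ F) ∪ (Y ∪ (outN A w ∩ Z)) := by
    intro v hv
    by_cases hvF : v ∈ F
    · exact Finset.mem_union_left _ (Finset.mem_inter.mpr ⟨hv, hvF⟩)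
    · refine Finset.mem_union_right _ ?_
      rcases hcov v hvF with h1 | h1
      · exact Finset.mem_union_left _ h1
      · exact Finset.mem_union_right _ (Finset.mem_inter.mpr ⟨hv, h1⟩)
  have h1 := (Finset.card_le_card hsub).trans (Finset.card_union_le _ _)
  have h2 := Finset.card_union_le Y (outN A w ∩ Z)
  omega

/-- counting for the first two vertices of a path of `J` -/
theorem count2 (h : PMin A S S' X M P) {F Y Z : Finset V} {J : Finset (Fin M)} {i : Fin M} {w : V}
    (hw : w ∈ (P i).take 2) (hcov : ∀ v, v ∉ F → v ∈ Y ∨ v ∈ Z)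
    (hZ : ∀ v ∈ Z, ∃ j ∈ J, v ∈ P j)
    (hJ : 2 * (outN A w ∩ (J.erase i).biUnion (fun j => (P j).toFinset)).card
      ≤ (outN A w).card) :
    (outN A w).card ≤ 2 * ((outN A w ∩ F).card + (Y.card + 3)) := by
  have hsub : outN A w ⊆ (outN A w ∩ F) ∪ (Y ∪
      ((outN A w ∩ (J.erase i).biUnion (fun j => (P j).toFinset)) ∪ ((P i).take 3).toFinset)) := by
    intro v hv
    by_cases hvF : v ∈ F
    · exact Finset.mem_union_left _ (Finset.mem_inter.mpr ⟨hv, hvF⟩)
    · refine Finset.mem_union_right _ ?_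
      rcases hcov v hvF with h1 | h1
      · exact Finset.mem_union_left _ h1
      · refine Finset.mem_union_right _ ?_
        obtain ⟨j, hj, hvj⟩ := hZ v h1
        by_cases hji : j = i
        · subst hji
          rcases mem_take_or_drop 3 hvj with h2 | h2
          · exact Finset.mem_union_right _ (List.mem_toFinset.mpr h2)
          · exact absurd ((mem_outN A w v).mp hv) (h.chord j w v hw h2)
        · exact Finset.mem_union_left _ (Finset.mem_inter.mpr ⟨hv, Finset.mem_biUnion.mpr
            ⟨j, Finset.mem_erase.mpr ⟨hji, hj⟩, List.mem_toFinset.mpr hvj⟩⟩)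
  have h1 := (Finset.card_le_card hsub).trans (Finset.card_union_le _ _)
  have h2 := Finset.card_union_le Y
    ((outN A w ∩ (J.erase i).biUnion (fun j => (P j).toFinset)) ∪ ((P i).take 3).toFinset)
  have h3 := Finset.card_union_le (outN A w ∩ (J.erase i).biUnion (fun j => (P j).toFinset))
    ((P i).take 3).toFinset
  have h4 := card_take_le (P i) 3
  omega

/-! ### the weights -/

/-- the share of `P j` in the neighbourhood of `w` -/
noncomputable def rr (A : V → V → Prop) (P : Fin M → List V) (w : V) (j : Fin M) : ℚ :=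
  ((outN A w ∩ (P j).toFinset).card : ℚ) / ((outN A w).card : ℚ)

theorem rr_nonneg (w : V) (j : Fin M) : 0 ≤ rr A P w j := by
  unfold rr
  positivity

theorem sum_rr_le (hd : ∀ i j, i ≠ j → List.Disjoint (P i) (P j)) (w : V) (I : Finset (Fin M)) :
    ∑ j ∈ I, rr A P w j ≤ 1 := by
  unfold rr
  rw [← Finset.sum_div]
  apply div_le_one_of_le₀ _ (by positivity)
  have h1 : ∑ j ∈ I, (outN A w ∩ (P j).toFinset).card
      = (I.biUnion (fun j => outN A w ∩ (P j).toFinset)).card := by
    rw [Finset.card_biUnion]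
    intro i _ j _ hij
    refine Finset.disjoint_left.mpr fun v hv hv' => ?_
    rw [Finset.mem_inter, List.mem_toFinset] at hv hv'
    exact hd i j hij hv.2 hv'.2
  have h2 : (I.biUnion (fun j => outN A w ∩ (P j).toFinset)).card ≤ (outN A w).card := by
    apply Finset.card_le_card
    intro v hv
    obtain ⟨j, _, hj⟩ := Finset.mem_biUnion.mp hv
    exact (Finset.mem_inter.mp hj).1
  exact_mod_cast h1.le.trans h2

theorem rr_use (w : V) (I : Finset (Fin M)) (hw : 0 < (outN A w).card)
    (h : ∑ j ∈ I, rr A P w j ≤ 1 / 2) :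
    2 * (outN A w ∩ I.biUnion (fun j => (P j).toFinset)).card ≤ (outN A w).card := by
  unfold rr at h
  rw [← Finset.sum_div, div_le_iff₀ (by exact_mod_cast hw)] at h
  have h1 : (outN A w ∩ I.biUnion (fun j => (P j).toFinset)).card
      ≤ ∑ j ∈ I, (outN A w ∩ (P j).toFinset).card := by
    have : outN A w ∩ I.biUnion (fun j => (P j).toFinset)
        = I.biUnion (fun j => outN A w ∩ (P j).toFinset) := by
      ext v
      simp only [Finset.mem_inter, Finset.mem_biUnion]
      constructor
      · rintro ⟨h1, j, h2, h3⟩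
        exact ⟨j, h2, h1, h3⟩
      · rintro ⟨j, h2, h1, h3⟩
        exact ⟨h1, j, h2, h3⟩
    rw [this]
    exact Finset.card_biUnion_le
  have h2 : ((outN A w ∩ I.biUnion (fun j => (P j).toFinset)).card : ℚ)
      ≤ ∑ j ∈ I, ((outN A w ∩ (P j).toFinset).card : ℚ) := by
    exact_mod_cast h1
  have h3 : (2 : ℚ) * ((outN A w ∩ I.biUnion (fun j => (P j).toFinset)).card : ℚ)
      ≤ ((outN A w).card : ℚ) := by linarith
  exact_mod_cast h3

theorem exists_J (hd : ∀ i j, i ≠ j → List.Disjoint (P i) (P j)) (I : Finset (Fin M))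
    (h1 : ∀ v, 0 < (outN A v).card) (h2 : ∀ v, 0 < (outN (rev A) v).card) :
    ∃ J ⊆ I, I.card ≤ 32 * J.card ∧ ∀ i ∈ J,
      (∀ w ∈ (P i).take 2, 2 * (outN A w ∩ (J.erase i).biUnion (fun j => (P j).toFinset)).card
        ≤ (outN A w).card) ∧
      (∀ w ∈ (P i).reverse.take 2,
        2 * (outN (rev A) w ∩ (J.erase i).biUnion (fun j => (P j).toFinset)).card
        ≤ (outN (rev A) w).card) := by
  obtain ⟨J, hJI, hJc, hJ⟩ := subsel I
    (fun i j => ∑ w ∈ ((P i).take 2).toFinset, rr A P w j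
      + ∑ w ∈ ((P i).reverse.take 2).toFinset, rr (rev A) P w j)
    (fun i j => add_nonneg (Finset.sum_nonneg fun w _ => rr_nonneg w j)
      (Finset.sum_nonneg fun w _ => rr_nonneg w j)) (by
    intro i _
    rw [Finset.sum_add_distrib, Finset.sum_comm,
      Finset.sum_comm (s := I.erase i) (t := ((P i).reverse.take 2).toFinset)]
    have e1 : ∑ w ∈ ((P i).take 2).toFinset, ∑ j ∈ I.erase i, rr A P w j ≤ 2 := by
      refine (Finset.sum_le_sum (fun w _ => sum_rr_le hd w (I.erase i))).trans ?_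
      rw [Finset.sum_const, nsmul_eq_mul, mul_one]
      exact_mod_cast card_take_le (P i) 2
    have e2 : ∑ w ∈ ((P i).reverse.take 2).toFinset, ∑ j ∈ I.erase i, rr (rev A) P w j ≤ 2 := by
      refine (Finset.sum_le_sum (fun w _ => sum_rr_le hd w (I.erase i))).trans ?_
      rw [Finset.sum_const, nsmul_eq_mul, mul_one]
      exact_mod_cast card_take_le (P i).reverse 2
    linarith)
  refine ⟨J, hJI, hJc, fun i hi => ⟨fun w hw => ?_, fun w hw => ?_⟩⟩
  · apply rr_use w _ (h1 w)
    refine le_trans (Finset.sum_le_sum fun j _ => ?_) (hJ i hi)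
    have e1 : rr A P w j ≤ ∑ w ∈ ((P i).take 2).toFinset, rr A P w j :=
      Finset.single_le_sum (f := fun w => rr A P w j) (fun w _ => rr_nonneg w j)
        (List.mem_toFinset.mpr hw)
    have e2 : (0 : ℚ) ≤ ∑ w ∈ ((P i).reverse.take 2).toFinset, rr (rev A) P w j :=
      Finset.sum_nonneg fun w _ => rr_nonneg w j
    linarith
  · apply rr_use w _ (h2 w)
    refine le_trans (Finset.sum_le_sum fun j _ => ?_) (hJ i hi)
    have e1 : rr (rev A) P w j ≤ ∑ w ∈ ((P i).reverse.take 2).toFinset, rr (rev A) P w j :=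
      Finset.single_le_sum (f := fun w => rr (rev A) P w j) (fun w _ => rr_nonneg w j)
        (List.mem_toFinset.mpr hw)
    have e2 : (0 : ℚ) ≤ ∑ w ∈ ((P i).take 2).toFinset, rr A P w j :=
      Finset.sum_nonneg fun w _ => rr_nonneg w j
    linarith

theorem exists_inj {α β : Type*} [Fintype α] (T : Finset β) (h : Fintype.card α ≤ T.card) :
    ∃ g : α → β, Function.Injective g ∧ ∀ a, g a ∈ T := by
  obtain ⟨f⟩ := Function.Embedding.nonempty_of_card_le (α := α) (β := T)
    (by rwa [Fintype.card_coe])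
  exact ⟨fun a => (f a : β), fun a b hab => f.injective (Subtype.ext hab), fun a => (f a).2⟩

theorem caseB_aux {V : Type*} [Fintype V] [DecidableEq V] {A : V → V → Prop} (hT : Tour A)
    (k t κ M : ℕ) (hκ : κ = k * t) (hM : M = 1800 * κ) (hk : 0 < k) (ht : 0 < t) (K Dp Dm : ℕ)
    (hK : 1200000000 * κ ≤ K)
    (Xs : Fin t → Finset V) (hXk : ∀ j, (Xs j).card ≤ k) (S S' X : Finset V)
    (hX : X = Finset.univ.biUnion Xs)
    (hdeg : ∀ v, K ≤ (outN A v).card) (hdeg' : ∀ v, K ≤ (outN (rev A) v).card)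
    (hS : S.card = 1804 * κ) (hS' : S'.card = 1804 * κ) (hSS : Disjoint S S')
    (hSX : Disjoint S X) (hSX' : Disjoint S' X)
    (hSD : ∀ s ∈ S, (outN A s).card ≤ Dp)
    (hwD : ∀ w, w ∉ S → w ∉ X → Dp ≤ (outN A w).card)
    (hSD' : ∀ s ∈ S', (outN (rev A) s).card ≤ Dm)
    (hwD' : ∀ w, w ∉ S' → w ∉ X → Dm ≤ (outN (rev A) w).card)
    (P : Fin M → List V) (hP : PMin A S S' X M P)
    (hshort : (Finset.univ.filter (fun i => (P i).length ≤ 3)).card < 4 * κ) :
    Nonempty (Setup A k t (120000000 * κ) (5409 * κ) Dp Dm Xs) := by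
  classical
  have hT' : Tour (rev A) := hT.rev
  have hPr := hP.reverse
  have hκ0 : 0 < κ := by rw [hκ]; exact Nat.mul_pos hk ht
  have htκ : t ≤ κ := by rw [hκ]; exact Nat.le_mul_of_pos_left t hk
  have hxX : ∀ j, ∀ v ∈ Xs j, v ∈ X := fun j v hv => by
    rw [hX]; exact Finset.mem_biUnion.2 ⟨j, Finset.mem_univ j, hv⟩
  have cX : X.card ≤ κ := by
    have h1 : X.card ≤ (Finset.univ : Finset (Fin t)).card * k := by
      rw [hX]; exact Finset.card_biUnion_le_card_mul _ _ k (fun j _ => hXk j)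
    rw [Finset.card_univ, Fintype.card_fin, mul_comm, ← hκ] at h1
    exact h1
  -- unused start vertices
  have cS0 : (S \ VP P).card = 4 * κ := by
    have := card_unused hP
    omega
  have cS0' : (S' \ VP P).card = 4 * κ := by
    have := card_unused hPr
    rw [VP_reverse] at this
    omega
  -- short paths
  obtain ⟨Sh, hSh⟩ : ∃ Sh, Sh = (Finset.univ.filter (fun i => (P i).length ≤ 3)).biUnion
    (fun i => (P i).toFinset) := ⟨_, rfl⟩
  have cSh : Sh.card ≤ 12 * κ := by
    have h1 : Sh.card ≤ ∑ i ∈ Finset.univ.filter (fun i => (P i).length ≤ 3), 3 := by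
      rw [hSh]
      refine Finset.card_biUnion_le.trans (Finset.sum_le_sum fun i hi => ?_)
      exact (List.toFinset_card_le _).trans (Finset.mem_filter.mp hi).2
    rw [Finset.sum_const, smul_eq_mul] at h1
    omega
  obtain ⟨W, hW⟩ : ∃ W, W = X ∪ (S \ VP P) ∪ (S' \ VP P) := ⟨_, rfl⟩
  have cW : W.card ≤ 9 * κ := by
    have h1 := Finset.card_union_le (X ∪ (S \ VP P)) (S' \ VP P)
    have h2 := Finset.card_union_le X (S \ VP P)
    rw [← hW] at h1
    omega
  obtain ⟨Y, hY⟩ : ∃ Y, Y = W ∪ Sh := ⟨_, rfl⟩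
  have cY : Y.card ≤ 21 * κ := by
    have h1 := Finset.card_union_le W Sh
    rw [← hY] at h1
    omega
  obtain ⟨En, hEn⟩ : ∃ En, En = Finset.univ.biUnion (fun i => endF (P i)) := ⟨_, rfl⟩
  have cEn : En.card ≤ 7200 * κ := by
    have h1 : En.card ≤ ∑ i : Fin M, 4 := by
      rw [hEn]
      exact Finset.card_biUnion_le.trans (Finset.sum_le_sum fun i _ => card_endF (P i))
    rw [Finset.sum_const, Finset.card_univ, Fintype.card_fin, smul_eq_mul] at h1
    omega
  obtain ⟨YE, hYE⟩ : ∃ YE, YE = Y ∪ En := ⟨_, rfl⟩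
  have cYE : YE.card ≤ 7221 * κ := by
    have h1 := Finset.card_union_le Y En
    rw [← hYE] at h1
    omega
  -- long paths
  obtain ⟨Lg, hLg⟩ : ∃ Lg, Lg = Finset.univ.filter (fun i => ¬ (P i).length ≤ 3) := ⟨_, rfl⟩
  have cLg : 1796 * κ < Lg.card := by
    have h1 := Finset.card_filter_add_card_filter_not (s := (Finset.univ : Finset (Fin M)))
      (p := fun i => (P i).length ≤ 3)
    rw [Finset.card_univ, Fintype.card_fin, ← hLg] at h1
    omega
  have mLg : ∀ i, i ∈ Lg ↔ 4 ≤ (P i).length := by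
    intro i
    rw [hLg, Finset.mem_filter]
    constructor
    · intro h; have := h.2; omega
    · intro h; exact ⟨Finset.mem_univ i, by omega⟩
  obtain ⟨J, hJL, hJc, hJ⟩ := exists_J hP.1.disj Lg (A := A)
    (fun v => by have := hdeg v; omega) (fun v => by have := hdeg' v; omega)
  -- repair
  obtain ⟨N, hN⟩ : ∃ N, N = 120000000 * κ := ⟨_, rfl⟩
  obtain ⟨ao, hao⟩ : ∃ ao : V × Bool → Fin M → ℕ, ao = fun y i =>
    ((outN (if y.2 = true then A else rev A) y.1) ∩ midF (P i)).card := ⟨_, rfl⟩
  obtain ⟨Ys, hYs⟩ : ∃ Ys : Finset (V × Bool), Ys = (Y ×ˢ (Finset.univ : Finset Bool)).filter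
    (fun y => 8 * N ≤ ∑ i ∈ J, ao y i) := ⟨_, rfl⟩
  obtain ⟨U, hUJ, hUc, hU⟩ := repair J Ys ao N
    (fun y hy => by rw [hYs] at hy; exact (Finset.mem_filter.mp hy).2)
  have cYs : Ys.card ≤ 42 * κ := by
    rw [hYs]
    refine (Finset.card_filter_le _ _).trans ?_
    rw [Finset.card_product, Finset.card_univ, Fintype.card_bool]
    omega
  have cJU : 4 * κ ≤ (J \ U).card := by
    have h1 := Finset.card_sdiff_add_card_eq_card hUJ
    omega
  -- injections
  have hcα : Fintype.card (Fin t × Fin (4 * k)) = 4 * κ := by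
    rw [Fintype.card_prod, Fintype.card_fin, Fintype.card_fin, hκ]
    ring
  obtain ⟨e, he, heJ⟩ := exists_inj (α := Fin t × Fin (4 * k)) (J \ U) (by omega)
  obtain ⟨z, hz, hzS⟩ := exists_inj (α := Fin t × Fin (4 * k)) (S \ VP P) (by omega)
  obtain ⟨z', hz', hzS'⟩ := exists_inj (α := Fin t × Fin (4 * k)) (S' \ VP P) (by omega)
  have hzX : ∀ j, z j ∉ X := fun j hj =>
    (Finset.disjoint_left.mp hSX) (Finset.mem_sdiff.mp (hzS j)).1 hj
  have hzX' : ∀ j, z' j ∉ X := fun j hj =>
    (Finset.disjoint_left.mp hSX') (Finset.mem_sdiff.mp (hzS' j)).1 hj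
  have hzP : ∀ j i, z j ∉ P i := fun j i hi => (Finset.mem_sdiff.mp (hzS j)).2 (mem_VP.mpr ⟨i, hi⟩)
  have hzP' : ∀ j i, z' j ∉ P i := fun j i hi =>
    (Finset.mem_sdiff.mp (hzS' j)).2 (mem_VP.mpr ⟨i, hi⟩)
  have hlong : ∀ j, 4 ≤ (P (e j)).length := fun j =>
    (mLg _).mp (hJL (Finset.mem_sdiff.mp (heJ j)).1)
  have hPX : ∀ i v, v ∈ P i → v ∉ X := fun i v hv => hP.1.avoid i v hv
  -- the pool
  obtain ⟨F, hF⟩ : ∃ F, F = (Finset.univ \ (W ∪ VP P)) ∪
    (Lg.filter (fun i => ∀ j, e j ≠ i)).biUnion (fun i => midF (P i)) := ⟨_, rfl⟩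
  obtain ⟨MM, hMM⟩ : ∃ MM : Finset V, MM = Finset.univ.biUnion (fun i => midF (P (e i))) :=
    ⟨_, rfl⟩
  have mF : ∀ v, v ∈ F ↔ (v ∉ W ∧ v ∉ VP P) ∨ ∃ i, 4 ≤ (P i).length ∧ (∀ j, e j ≠ i) ∧
      v ∈ midF (P i) := by
    intro v
    rw [hF, Finset.mem_union, Finset.mem_sdiff, Finset.mem_union, Finset.mem_biUnion]
    simp only [Finset.mem_univ, true_and, not_or, Finset.mem_filter, mLg, and_assoc]
  have mMM : ∀ v, v ∈ MM ↔ ∃ i, v ∈ midF (P (e i)) := by
    intro v
    rw [hMM, Finset.mem_biUnion]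
    simp
  have hcov0 : ∀ v, v ∉ F → v ∈ W ∨ v ∈ VP P := by
    intro v hv
    by_contra hcon
    rw [not_or] at hcon
    exact hv ((mF v).mpr (Or.inl hcon))
  have hcov : ∀ v, v ∉ F → v ∈ YE ∨ v ∈ MM := by
    intro v hv
    rcases hcov0 v hv with h1 | h1
    · left
      rw [hYE, hY]
      exact Finset.mem_union_left _ (Finset.mem_union_left _ h1)
    · obtain ⟨i, hi⟩ := mem_VP.mp h1
      by_cases hs : (P i).length ≤ 3
      · left
        rw [hYE, hY, hSh]
        refine Finset.mem_union_left _ (Finset.mem_union_right _ (Finset.mem_biUnion.mpr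
          ⟨i, Finset.mem_filter.mpr ⟨Finset.mem_univ i, hs⟩, List.mem_toFinset.mpr hi⟩))
      · rcases mid_or_end hi with h2 | h2
        · by_cases hr : ∃ j, e j = i
          · obtain ⟨j, rfl⟩ := hr
            exact Or.inr ((mMM v).mpr ⟨j, h2⟩)
          · push Not at hr
            exact absurd ((mF v).mpr (Or.inr ⟨i, by omega, hr, h2⟩)) hv
        · left
          rw [hYE, hEn]
          exact Finset.mem_union_right _ (Finset.mem_biUnion.mpr ⟨i, Finset.mem_univ i, h2⟩)
  have mid_z : ∀ i v, v ∈ midF (P i) → ∀ j, A v (z j) := by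
    intro i v hv j
    exact start' hT hP (hzS j) (hzX j) (mem_midF.mp hv).2.1
  have hzSr : ∀ j, z' j ∈ S' \ VP (fun i => (P i).reverse) := by
    intro j
    rw [VP_reverse]
    exact hzS' j
  have hzSr0 : ∀ j, z j ∈ S \ VP P := hzS
  have mid_z' : ∀ i v, v ∈ midF (P i) → ∀ j, A (z' j) v := by
    intro i v hv j
    exact start' hT' hPr (hzSr j) (hzX' j) (i := i) (mem_midF.mp hv).2.2
  -- vertices of `Y`
  have hYN : ∀ w ∈ Y, ∀ b : Bool, N ≤ (outN (if b = true then A else rev A) w ∩ F).card := by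
    intro w hw b
    have hdb : K ≤ (outN (if b = true then A else rev A) w).card := by
      cases b
      · simpa using hdeg' w
      · simpa using hdeg w
    have hao' : ∀ i, ao (w, b) i
        = ((outN (if b = true then A else rev A) w) ∩ midF (P i)).card := fun i => by rw [hao]
    by_cases h8 : 8 * N ≤ ∑ i ∈ J, ao (w, b) i
    · have h1 := hU (w, b) (by
        rw [hYs]
        exact Finset.mem_filter.mpr ⟨Finset.mem_product.mpr ⟨hw, Finset.mem_univ _⟩, h8⟩)
      refine h1.trans ?_
      simp only [hao']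
      rw [← Finset.card_biUnion]
      · apply Finset.card_le_card
        intro v hv
        obtain ⟨i, hi, hvi⟩ := Finset.mem_biUnion.mp hv
        rw [Finset.mem_inter] at hvi ⊢
        refine ⟨hvi.1, (mF v).mpr (Or.inr ⟨i, (mLg i).mp (hJL (hUJ hi)), ?_, hvi.2⟩)⟩
        rintro j rfl
        exact (Finset.mem_sdiff.mp (heJ j)).2 hi
      · intro i _ j _ hij
        refine Finset.disjoint_left.mpr fun v hv hv' => ?_
        rw [Finset.mem_inter] at hv hv'
        exact hP.1.disj i j hij (mem_midF.mp hv.2).1 (mem_midF.mp hv'.2).1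
    · have h1 := count1 (A := if b = true then A else rev A) w hcov
      have h2 : (outN (if b = true then A else rev A) w ∩ MM).card
          ≤ ∑ i ∈ J, ao (w, b) i := by
        simp only [hao']
        refine le_trans (Finset.card_le_card ?_) Finset.card_biUnion_le
        intro v hv
        rw [Finset.mem_inter, mMM] at hv
        obtain ⟨h3, i, h4⟩ := hv
        exact Finset.mem_biUnion.mpr ⟨e i, (Finset.mem_sdiff.mp (heJ i)).1,
          Finset.mem_inter.mpr ⟨h3, h4⟩⟩
      omega
  -- ends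
  have hhd : ∀ i, ∃ s, (P i).head? = some s := by
    intro i
    cases hPi : P i with
    | nil => exact absurd hPi (hP.1.ne i)
    | cons a l => exact ⟨a, rfl⟩
  have hgl : ∀ i, ∃ s, (P i).getLast? = some s := by
    intro i
    exact ⟨(P i).getLast (hP.1.ne i), List.getLast?_eq_getLast_of_ne_nil (hP.1.ne i)⟩
  choose hd hhd using hhd
  choose gl hgl using hgl
  have hMJ : ∀ v ∈ MM, ∃ j ∈ J, v ∈ P j := by
    intro v hv
    obtain ⟨i, hi⟩ := (mMM v).mp hv
    exact ⟨e i, (Finset.mem_sdiff.mp (heJ i)).1, (mem_midF.mp hi).1⟩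
  have hzz : ∀ i j, z i ≠ z' j := by
    intro i j h
    have h1 := (Finset.mem_sdiff.mp (hzS i)).1
    have h2 := (Finset.mem_sdiff.mp (hzS' j)).1
    rw [← h] at h2
    exact (Finset.disjoint_left.mp hSS) h1 h2
  have zW : ∀ i, z i ∈ W := fun i => by
    rw [hW]
    exact Finset.mem_union_left _ (Finset.mem_union_right _ (hzS i))
  have zW' : ∀ i, z' i ∈ W := fun i => by
    rw [hW]
    exact Finset.mem_union_right _ (hzS' i)
  have XW : ∀ v, v ∈ X → v ∈ W := fun v hv => by
    rw [hW]
    exact Finset.mem_union_left _ (Finset.mem_union_left _ hv)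
  have mQ : ∀ i v, v ∈ (P (e i)).toFinset ∪ {z i, z' i} ↔ v ∈ P (e i) ∨ v = z i ∨ v = z' i := by
    intro i v
    rw [Finset.mem_union, List.mem_toFinset, Finset.mem_insert, Finset.mem_singleton]
  have hcov0r : ∀ v, v ∉ F → v ∈ W ∨ v ∈ VP (fun i => (P i).reverse) := by
    intro v hv
    rw [VP_reverse]
    exact hcov0 v hv
  refine ⟨{
    F := F
    Q := fun i => (P (e i)).toFinset ∪ {z i, z' i}
    M := fun i => midF (P (e i))
    a := fun i => hd (e i)
    b := fun i => gl (e i)
    z := z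
    z' := z'
    hQd := ?_
    hQF := ?_
    hxQ := ?_
    hxF := ?_
    ha := ?_
    hb := ?_
    hz := ?_
    hz' := ?_
    hconn := ?_
    hMQ := ?_
    hE := ?_
    hM := ?_
    hda := ?_
    hdz := ?_
    hdb := ?_
    hdz' := ?_
    hF1 := ?_
    hF2 := ?_
    hW := ?_
    hcard := ?_ }⟩
  · -- hQd
    intro i j hij
    refine Finset.disjoint_left.mpr fun v hv hv' => ?_
    rw [mQ] at hv hv'
    rcases hv with hv | rfl | rfl
    · rcases hv' with hv' | rfl | rfl
      · exact hP.1.disj (e i) (e j) (fun h => hij (he h)) hv hv'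
      · exact hzP _ _ hv
      · exact hzP' _ _ hv
    · rcases hv' with hv' | hv' | hv'
      · exact hzP _ _ hv'
      · exact hij (hz hv')
      · exact hzz i j hv'
    · rcases hv' with hv' | hv' | hv'
      · exact hzP' _ _ hv'
      · exact hzz j i hv'.symm
      · exact hij (hz' hv')
  · -- hQF
    intro i
    refine Finset.disjoint_left.mpr fun v hv hvF => ?_
    rw [mQ] at hv
    rcases (mF v).mp hvF with ⟨h1, h2⟩ | ⟨i', _, h2, h3⟩
    · rcases hv with hv | rfl | rfl
      · exact h2 (mem_VP.mpr ⟨_, hv⟩)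
      · exact h1 (zW i)
      · exact h1 (zW' i)
    · have h4 := (mem_midF.mp h3).1
      rcases hv with hv | rfl | rfl
      · exact hP.1.disj (e i) i' (h2 i) hv h4
      · exact hzP _ _ h4
      · exact hzP' _ _ h4
  · -- hxQ
    intro j i v hvj hv
    rw [mQ] at hv
    rcases hv with hv | hv | hv
    · exact hPX _ _ hv (hxX j v hvj)
    · exact hzX i (hv ▸ hxX j v hvj)
    · exact hzX' i (hv ▸ hxX j v hvj)
  · -- hxF
    intro j v hvj hv
    rcases (mF _).mp hv with ⟨h1, _⟩ | ⟨i', _, _, h3⟩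
    · exact h1 (XW _ (hxX j v hvj))
    · exact hPX _ _ (mem_midF.mp h3).1 (hxX j v hvj)
  · intro i
    exact (mQ i _).mpr (Or.inl (List.mem_of_mem_head? (hhd (e i))))
  · intro i
    exact (mQ i _).mpr (Or.inl (List.mem_of_getLast? (hgl (e i))))
  · intro i
    exact (mQ i _).mpr (Or.inr (Or.inl rfl))
  · intro i
    exact (mQ i _).mpr (Or.inr (Or.inr rfl))
  · intro i
    refine (hP.1.rin (e i) _ _ (hhd (e i)) (hgl (e i))).mono ?_
    intro v hv
    rw [Finset.mem_coe, List.mem_toFinset] at hv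
    exact Finset.mem_coe.mpr ((mQ i v).mpr (Or.inl hv))
  · intro i v hv
    exact (mQ i v).mpr (Or.inl (mem_midF.mp hv).1)
  · -- hE
    intro i
    have hsub : ((P (e i)).toFinset ∪ {z i, z' i}) \ midF (P (e i)) ⊆
        endF (P (e i)) ∪ {z i, z' i} := by
      intro v hv
      rw [Finset.mem_sdiff, Finset.mem_union, List.mem_toFinset] at hv
      rcases hv.1 with h1 | h1
      · rcases mid_or_end h1 with h2 | h2
        · exact absurd h2 hv.2
        · exact Finset.mem_union_left _ h2
      · exact Finset.mem_union_right _ h1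
    have h1 := (Finset.card_le_card hsub).trans (Finset.card_union_le _ _)
    have h2 := card_endF (P (e i))
    have h3 : ({z i, z' i} : Finset V).card ≤ 2 := Finset.card_le_two
    omega
  · intro i v hv
    exact ⟨mid_z _ v hv, mid_z' _ v hv⟩
  · intro i
    exact hSD _ (hP.1.head _ _ (hhd (e i)))
  · intro i
    exact hSD _ (Finset.mem_sdiff.mp (hzS i)).1
  · intro i
    exact hSD' _ (hP.1.last _ _ (hgl (e i)))
  · intro i
    exact hSD' _ (Finset.mem_sdiff.mp (hzS' i)).1
  · -- hF1
    intro f hf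
    rcases (mF f).mp hf with ⟨h1, h2⟩ | ⟨i', _, _, h3⟩
    · by_cases hall : ∀ j, A f (z j)
      · exact Or.inl hall
      · right
        push Not at hall
        obtain ⟨j, hj⟩ := hall
        have hfX : f ∉ X := fun h => h1 (XW f h)
        have hfS : f ∉ S := fun h => h1 (by
          rw [hW]
          exact Finset.mem_union_left _ (Finset.mem_union_right _ (Finset.mem_sdiff.mpr ⟨h, h2⟩)))
        have hne : f ≠ z j := by
          rintro rfl
          exact h1 (zW j)
        have hzf : A (z j) f := (hT.tot f (z j) hne).resolve_left hj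
        have h4 := F1_side hP (hzS j) (hzX j) hfX h2 hne hzf hcov0
        have h5 := hwD f hfS hfX
        omega
    · exact Or.inl (mid_z i' f h3)
  · -- hF2
    intro f hf
    rcases (mF f).mp hf with ⟨h1, h2⟩ | ⟨i', _, _, h3⟩
    · by_cases hall : ∀ j, A (z' j) f
      · exact Or.inl hall
      · right
        push Not at hall
        obtain ⟨j, hj⟩ := hall
        have hfX : f ∉ X := fun h => h1 (XW f h)
        have hfS : f ∉ S' := fun h => h1 (by
          rw [hW]
          exact Finset.mem_union_right _ (Finset.mem_sdiff.mpr ⟨h, h2⟩))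
        have hne : f ≠ z' j := by
          rintro rfl
          exact h1 (zW' j)
        have hzf : A f (z' j) := (hT.tot f (z' j) hne).resolve_right hj
        have h2r : f ∉ VP (fun i => (P i).reverse) := by
          rw [VP_reverse]
          exact h2
        have h4 := F1_side hPr (hzSr j) (hzX' j) hfX h2r hne hzf hcov0r
        have h5 := hwD' f hfS hfX
        omega
    · exact Or.inl (mid_z' i' f h3)
  · -- hW
    intro w hw
    by_cases hwY : w ∈ Y
    · left
      have h1 := hYN w hwY true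
      have h2 := hYN w hwY false
      rw [if_pos rfl] at h1
      rw [if_neg (by decide)] at h2
      rw [← hN]
      exact ⟨Or.inr h1, Or.inr h2⟩
    rcases hcov w hw with h1 | h1
    · rw [hYE, Finset.mem_union] at h1
      have h2 := h1.resolve_left hwY
      rw [hEn] at h2
      obtain ⟨i, -, hi⟩ := Finset.mem_biUnion.mp h2
      have hwi : w ∈ P i := endF_mem hi
      have hl : 4 ≤ (P i).length := by
        by_contra hcon
        apply hwY
        rw [hY, hSh]
        exact Finset.mem_union_right _ (Finset.mem_biUnion.mpr ⟨i, Finset.mem_filter.mpr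
          ⟨Finset.mem_univ i, by omega⟩, List.mem_toFinset.mpr hwi⟩)
      have hwx : ∀ j, w ∉ Xs j := fun j h => hPX i w hwi (hxX j w h)
      have hwQ : (∀ j, e j ≠ i) → ∀ j, w ∉ (P (e j)).toFinset ∪ {z j, z' j} := by
        intro hne j hv
        rw [mQ] at hv
        rcases hv with hv | rfl | rfl
        · exact hP.1.disj _ _ (hne j) hv hwi
        · exact hzP _ _ hwi
        · exact hzP' _ _ hwi
      rcases mem_endF.mp hi with h3 | h3
      · have hz'w : ∀ j, A (z' j) w := fun j =>
          start' hT' hPr (hzSr j) (hzX' j) (i := i) (take_mem_rev_drop hl h3)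
        by_cases hNF : 120000000 * κ ≤ (outN A w ∩ F).card
        · exact Or.inl ⟨Or.inr hNF, Or.inl hz'w⟩
        · by_cases hne : ∀ j, e j ≠ i
          · right; left
            refine ⟨hwx, hwQ hne, hz'w, ?_⟩
            have h4 := count1 (A := A) w hcov
            have h5 := hdeg w
            rw [← hMM, ← hκ]
            omega
          · exfalso
            push Not at hne
            obtain ⟨j, rfl⟩ := hne
            have h4 := count2 hP h3 hcov hMJ ((hJ (e j) (Finset.mem_sdiff.mp (heJ j)).1).1 w h3)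
            have h5 := hdeg w
            omega
      · have hzw : ∀ j, A w (z j) := fun j =>
          start' hT hP (hzS j) (hzX j) (i := i) (rev_take_mem_drop hl h3)
        by_cases hNF : 120000000 * κ ≤ (outN (rev A) w ∩ F).card
        · exact Or.inl ⟨Or.inl hzw, Or.inr hNF⟩
        · by_cases hne : ∀ j, e j ≠ i
          · right; right
            refine ⟨hwx, hwQ hne, hzw, ?_⟩
            have h4 := count1 (A := rev A) w hcov
            have h5 := hdeg' w
            rw [← hMM, ← hκ]
            omega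
          · exfalso
            push Not at hne
            obtain ⟨j, rfl⟩ := hne
            have hMJr : ∀ v ∈ MM, ∃ j ∈ J, v ∈ (fun i => (P i).reverse) j := by
              intro v hv
              obtain ⟨j, hj, hvj⟩ := hMJ v hv
              exact ⟨j, hj, List.mem_reverse.mpr hvj⟩
            have h6 := (hJ (e j) (Finset.mem_sdiff.mp (heJ j)).1).2 w h3
            have h7 : 2 * (outN (rev A) w ∩ (J.erase (e j)).biUnion
                (fun j => ((fun i => (P i).reverse) j).toFinset)).card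
                ≤ (outN (rev A) w).card := by
              simp only [List.toFinset_reverse]
              exact h6
            have h4 := count2 hPr h3 hcov hMJr h7
            have h5 := hdeg' w
            omega
    · obtain ⟨j, hj⟩ := (mMM w).mp h1
      exact Or.inl ⟨Or.inl (mid_z _ w hj), Or.inl (mid_z' _ w hj)⟩
  · -- hcard
    rw [← hMM]
    have hsub : Finset.univ \ (F ∪ MM) ⊆ YE := by
      intro v hv
      rw [Finset.mem_sdiff, Finset.mem_union, not_or] at hv
      exact (hcov v hv.2.1).resolve_right hv.2.2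
    have := Finset.card_le_card hsub
    omega

end CB

/-- Proof plan.  `κ = k t`, `N = 120000000 κ`, `X = ⋃ Xs j`.
`Lg` = indices with `length ≥ 4` (more than `1796 κ`).  For a path `p` let
`mid p = {v ∈ p : v ∈ p.drop 2 ∧ v ∈ p.reverse.drop 2}` (all but the first two and last two).

1. `subsel` on `Lg` with the weights `c i i' = ∑_{w ∈ (P i).take 2} |N⁺(w) ∩ P i'| / |N⁺(w)| +
   ∑_{w ∈ (P i).reverse.take 2} |N⁻(w) ∩ P i'| / |N⁻(w)|` gives `J ⊆ Lg`, `|Lg| ≤ 32 |J|`, so
   `|J| ≥ 56 κ`, and for `i ∈ J`, `w` one of the first two vertices of `P i`: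
   `2 |N⁺(w) ∩ ⋃_{i' ∈ J, i' ≠ i} P i'| ≤ |N⁺(w)|` (each summand is `≤` the whole sum `≤ 1/2`),
   same for `N⁻` and the last two.
2. `Y = X ∪ ⋃_{short} P i ∪ S₀ ∪ S'₀`, `S₀ = S \ ⋃ P i`, `S'₀` similarly; `|S₀| = |S'₀| = 4 κ`
   (every path has exactly one vertex in `S`), `|Y| ≤ 21 κ`.  `repair` on `J` with the constraints
   `(y, ±)`, `y ∈ Y`, `a = |N^±(y) ∩ mid (P i)|`, `D = N`, for those `(y, ±)` with
   `8 N ≤ ∑_{i ∈ J} a`: gives `U ⊆ J`, `8 |U| ≤ |J| + 8 (42 κ + 1)`, hence `|J \ U| ≥ 4 κ`.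
3. injections `e : Fin t × Fin (4k) → J \ U`, `z → S₀`, `z' → S'₀`.
   `Q i = (P (e i)).toFinset ∪ {z i, z' i}`, `M i = mid (P (e i))`, `a i`, `b i` ends of `P (e i)`.
   `F = (univ \ (X ∪ S₀ ∪ S'₀ ∪ ⋃_all P i)) ∪ ⋃_{i ∈ Lg, i ∉ range e} mid (P i)`.
4. `hM` and `∀ j, A f (z j)` for all middle vertices of long paths: `PMin.start` (+ `Tour.tot`) for
   `P` and `P.reverse`.  `hF1` for `f` off the paths: if `¬ A f (z j)` then `A (z j) f` and by
   `PMin.via` `N⁺(f)` meets each path only in its first three vertices, so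
   `|N⁺(f) \ F| ≤ κ + 8 κ + 3 * 1800 κ`; and `Dp ≤ |N⁺(f)|`.
5. `hW`: (i) `w ∈ Y`: if `8 N ≤ ∑_{i ∈ J} |N⁺(w) ∩ mid (P i)|` then `N ≤ |N⁺(w) ∩ ⋃_{U} mid|` and
   `⋃_U mid ⊆ F`; else `N⁺(w) \ F ⊆ Y ∪ (first two, last two vertices of all paths) ∪ ⋃_J mid`, so
   `|N⁺(w) ∩ F| ≥ K - 21 κ - 7200 κ - 8 N ≥ N`.  (ii) `w ∈ P (e i)`: middle vertices are fine; the
   first two: `∀ j, A (z' j) w` (length ≥ 4, `PMin.start` for the reverse) and
   `|N⁺(w) ∩ F| ≥ |N⁺(w)|/2 - |N⁺(w) ∩ P (e i)| - 21 κ - 7200 κ ≥ N` with `|N⁺(w) ∩ P (e i)| ≤ 3`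
   by `PMin.chord`; the last two symmetric.  (iii) `w` in a long path which is not in the range of
   `e`, `w` not middle: if first two then `∀ j, A (z' j) w`, and either `N ≤ |N⁺(w) ∩ F|` or
   `k t ≤ |N⁺(w) ∩ ⋃ M i|` since `N⁺(w) ⊆ F ∪ Y ∪ ends ∪ ⋃ M i`; last two symmetric.
6. `hcard`: the complement of `F ∪ ⋃ M i` is `Y ∪ ends`. -/
theorem caseB {V : Type*} [Fintype V] [DecidableEq V] {A : V → V → Prop} (hT : Tour A)
    (k t : ℕ) (hk : 0 < k) (ht : 0 < t) (K Dp Dm : ℕ) (hK : 1200000000 * (k * t) ≤ K)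
    (Xs : Fin t → Finset V) (hXk : ∀ j, (Xs j).card ≤ k) (S S' : Finset V)
    (hdeg : ∀ v, K ≤ (outN A v).card) (hdeg' : ∀ v, K ≤ (outN (rev A) v).card)
    (hS : S.card = 1804 * (k * t)) (hS' : S'.card = 1804 * (k * t)) (hSS : Disjoint S S')
    (hSX : Disjoint S (Finset.univ.biUnion Xs)) (hSX' : Disjoint S' (Finset.univ.biUnion Xs))
    (hSD : ∀ s ∈ S, (outN A s).card ≤ Dp)
    (hwD : ∀ w, w ∉ S → w ∉ Finset.univ.biUnion Xs → Dp ≤ (outN A w).card)
    (hSD' : ∀ s ∈ S', (outN (rev A) s).card ≤ Dm)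
    (hwD' : ∀ w, w ∉ S' → w ∉ Finset.univ.biUnion Xs → Dm ≤ (outN (rev A) w).card)
    (P : Fin (1800 * (k * t)) → List V)
    (hP : PMin A S S' (Finset.univ.biUnion Xs) (1800 * (k * t)) P)
    (hshort : (Finset.univ.filter (fun i => (P i).length ≤ 3)).card < 4 * (k * t)) :
    Nonempty (Setup A k t (120000000 * (k * t)) (5409 * (k * t)) Dp Dm Xs) := by
  exact CB.caseB_aux hT k t (k * t) (1800 * (k * t)) rfl rfl hk ht K Dp Dm hK Xs hXk S S' _ rfl hdeg hdeg'
    hS hS' hSS hSX hSX' hSD hwD hSD' hwD' P hP hshort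

end Pool.Agent.Lib.A8780
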