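import Pool.Agent.Lib.A8780.Basic

/-!
Degrees.
-/

set_option autoImplicit false

namespace Pool.Agent.Lib.A8780

variable {V : Type*} {A : V → V → Prop}

theorem KStrong.rev {K : ℕ} {S : Finset V} (h : KStrong A K S) :
    KStrong (Pool.Agent.Lib.A8780.rev A) K S :=
  ⟨h.1, fun X hX u hu v hv hux hvx => (h.2 X hX v hv u hu hvx hux).swap⟩

/-- in a `K`-strong digraph all out-degrees are at least `K` (delete the out-neighbourhood
otherwise) -/
theorem KStrong.deg [Fintype V] [DecidableEq V] {K : ℕ} (hT : Tour A)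
    (h : KStrong A K (Finset.univ : Finset V)) (v : V) : K ≤ (outN A v).card := by
  by_contra hc
  have hvX : v ∉ outN A v := by
    rw [mem_outN]
    exact hT.irr v
  have hcard : (insert v (outN A v)).card < (Finset.univ : Finset V).card := by
    rw [Finset.card_insert_of_notMem hvX]
    have := h.1
    omega
  obtain ⟨u, hu, huX⟩ := Finset.exists_mem_notMem_of_card_lt_card hcard
  rw [Finset.mem_insert, not_or] at huX
  have h2 := h.2 (outN A v) (by omega) v (Finset.mem_univ v) u hu hvX huX.2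
  rcases Relation.ReflTransGen.cases_head h2 with h3 | ⟨c, h3, -⟩
  · exact huX.1 h3.symm
  · exact h3.2.1.2 ((mem_outN A v c).mpr h3.2.2)

theorem deg_add [Fintype V] [DecidableEq V] (hT : Tour A) (v : V) :
    (outN A v).card + (outN (Pool.Agent.Lib.A8780.rev A) v).card + 1 = Fintype.card V := by
  have hd : Disjoint (outN A v) (outN (Pool.Agent.Lib.A8780.rev A) v) := by
    rw [Finset.disjoint_left]
    intro u hu hu'
    rw [mem_outN] at hu hu'
    exact hT.asym _ _ hu hu'
  have hv : v ∉ outN A v ∪ outN (Pool.Agent.Lib.A8780.rev A) v := by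
    rw [Finset.mem_union, mem_outN, mem_outN, not_or]
    exact ⟨hT.irr v, hT.irr v⟩
  have he : insert v (outN A v ∪ outN (Pool.Agent.Lib.A8780.rev A) v) = Finset.univ := by
    rw [Finset.eq_univ_iff_forall]
    intro u
    rw [Finset.mem_insert, Finset.mem_union, mem_outN, mem_outN]
    by_cases huv : u = v
    · exact Or.inl huv
    · rcases hT.tot v u (Ne.symm huv) with h | h
      · exact Or.inr (Or.inl h)
      · exact Or.inr (Or.inr h)
  rw [← Finset.card_union_of_disjoint hd, ← Finset.card_insert_of_notMem hv, he, Finset.card_univ]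

theorem exists_lowest [DecidableEq V] (f : V → ℕ) (B : Finset V) (m : ℕ) (hm : m ≤ B.card) :
    ∃ S ⊆ B, S.card = m ∧ ∀ s ∈ S, ∀ w ∈ B, w ∉ S → f s ≤ f w := by
  induction m with
  | zero => exact ⟨∅, Finset.empty_subset B, rfl, fun s hs => absurd hs (Finset.notMem_empty s)⟩
  | succ m ih =>
    obtain ⟨S, hSB, hS, hf⟩ := ih (by omega)
    have hne : (B \ S).Nonempty := by
      rw [← Finset.card_pos, Finset.card_sdiff_of_subset hSB]
      omega
    obtain ⟨x, hx, hmin⟩ := Finset.exists_min_image (B \ S) f hne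
    rw [Finset.mem_sdiff] at hx
    refine ⟨insert x S, Finset.insert_subset hx.1 hSB, ?_, ?_⟩
    · rw [Finset.card_insert_of_notMem hx.2, hS]
    · intro s hs w hw hwS
      rw [Finset.mem_insert, not_or] at hwS
      rcases Finset.mem_insert.mp hs with rfl | hs
      · exact hmin w (Finset.mem_sdiff.mpr ⟨hw, hwS.2⟩)
      · exact hf s hs w hw hwS.2

/-- `m` vertices of least out-degree and `m` vertices of least in-degree outside `X`, with the
threshold degrees. -/
theorem low_sets [Fintype V] [DecidableEq V] (hT : Tour A) (X : Finset V) (m : ℕ) (hm0 : 0 < m)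
    (hm : 2 * m + X.card ≤ Fintype.card V) :
    ∃ (S S' : Finset V) (Dp Dm : ℕ), S.card = m ∧ S'.card = m ∧ Disjoint S S' ∧ Disjoint S X ∧
      Disjoint S' X ∧ (∀ s ∈ S, (outN A s).card ≤ Dp) ∧ (∀ w, w ∉ S → w ∉ X → Dp ≤ (outN A w).card) ∧
      (∀ s ∈ S', (outN (Pool.Agent.Lib.A8780.rev A) s).card ≤ Dm) ∧
      (∀ w, w ∉ S' → w ∉ X → Dm ≤ (outN (Pool.Agent.Lib.A8780.rev A) w).card) ∧
      (∃ s ∈ S, (outN A s).card = Dp) ∧
      (∃ s ∈ S', (outN (Pool.Agent.Lib.A8780.rev A) s).card = Dm) := by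
  have hB : (Finset.univ \ X : Finset V).card = Fintype.card V - X.card := by
    rw [Finset.card_sdiff_of_subset (Finset.subset_univ X), Finset.card_univ]
  obtain ⟨S, hSB, hS, hf⟩ := exists_lowest (fun v => (outN A v).card) (Finset.univ \ X) m (by omega)
  obtain ⟨S', hSB', hS', hf'⟩ := exists_lowest
    (fun v => (outN (Pool.Agent.Lib.A8780.rev A) v).card) ((Finset.univ \ X) \ S) m (by
      rw [Finset.card_sdiff_of_subset hSB, hS]
      omega)
  obtain ⟨s0, hs0, hmax⟩ := Finset.exists_max_image S (fun v => (outN A v).card)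
    (Finset.card_pos.mp (by omega))
  obtain ⟨s1, hs1, hmax1⟩ := Finset.exists_max_image S'
    (fun v => (outN (Pool.Agent.Lib.A8780.rev A) v).card) (Finset.card_pos.mp (by omega))
  refine ⟨S, S', _, _, hS, hS', ?_, ?_, ?_, hmax, ?_, hmax1, ?_, ⟨s0, hs0, rfl⟩, ⟨s1, hs1, rfl⟩⟩
  · rw [Finset.disjoint_left]
    intro v hv hv'
    exact (Finset.mem_sdiff.mp (hSB' hv')).2 hv
  · rw [Finset.disjoint_left]
    intro v hv
    exact (Finset.mem_sdiff.mp (hSB hv)).2
  · rw [Finset.disjoint_left]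
    intro v hv
    exact (Finset.mem_sdiff.mp (Finset.mem_sdiff.mp (hSB' hv)).1).2
  · intro w hwS hwX
    exact hf s0 hs0 w (Finset.mem_sdiff.mpr ⟨Finset.mem_univ w, hwX⟩) hwS
  · intro w hwS hwX
    by_cases hw : w ∈ S
    · have h1 := hf w hw s1 (Finset.mem_sdiff.mp (hSB' hs1)).1 (Finset.mem_sdiff.mp (hSB' hs1)).2
      have h2 := deg_add hT w
      have h3 := deg_add hT s1
      omega
    · exact hf' s1 hs1 w (Finset.mem_sdiff.mpr
        ⟨Finset.mem_sdiff.mpr ⟨Finset.mem_univ w, hwX⟩, hw⟩) hwS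

end Pool.Agent.Lib.A8780
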