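import Pool.Agent.Lib.A8780.Basic

/-!
Small dominating sets with return vertices.
-/

set_option autoImplicit false

namespace Pool.Agent.Lib.A8780

variable {V : Type*} [Fintype V] [DecidableEq V] {A : V → V → Prop}

/-- some vertex of `H` has out-degree at most `(|H|-1)/2` in the tournament on `H` -/
theorem exists_low (hT : Tour A) (H : Finset V) (hH : H.Nonempty) :
    ∃ h ∈ H, 2 * (outN A h ∩ H).card + 1 ≤ H.card := by
  classical
  by_contra hcon
  push Not at hcon
  -- every vertex has twice its out-degree at least `|H|`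
  have h1 : ∀ h ∈ H, H.card ≤ 2 * (outN A h ∩ H).card := fun h hh => by
    have := hcon h hh
    omega
  have h2 : ∑ h ∈ H, H.card ≤ ∑ h ∈ H, 2 * (outN A h ∩ H).card := Finset.sum_le_sum h1
  have e1 : ∀ h, (outN A h ∩ H).card = ∑ g ∈ H, if A h g then 1 else 0 := by
    intro h
    rw [← Finset.card_filter]
    congr 1
    ext g
    simp [and_comm]
  have h3 : ∑ h ∈ H, 2 * (outN A h ∩ H).card
      = ∑ h ∈ H, ∑ g ∈ H, ((if A h g then 1 else 0) + (if A g h then 1 else 0)) := by
    simp only [Finset.sum_add_distrib]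
    rw [Finset.sum_comm (f := fun h g => if A g h then 1 else 0)]
    rw [← Finset.mul_sum, two_mul]
    simp only [e1]
  have h4 : ∑ h ∈ H, ∑ g ∈ H, ((if A h g then 1 else 0) + (if A g h then 1 else 0))
      ≤ ∑ h ∈ H, (H.card - 1) := by
    refine Finset.sum_le_sum fun h hh => ?_
    rw [← Finset.add_sum_erase _ _ hh]
    have hz : ((if A h h then 1 else 0) + (if A h h then 1 else 0) : ℕ) = 0 := by
      simp [hT.irr h]
    rw [hz, zero_add]
    calc ∑ g ∈ H.erase h, ((if A h g then 1 else 0) + (if A g h then 1 else 0) : ℕ)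
        ≤ ∑ g ∈ H.erase h, 1 := by
          refine Finset.sum_le_sum fun g _ => ?_
          by_cases h5 : A h g
          · simp [h5, hT.asym h g h5]
          · simp only [h5, if_false, zero_add]
            split <;> omega
      _ = H.card - 1 := by rw [Finset.sum_const, smul_eq_mul, mul_one, Finset.card_erase_of_mem hh]
  rw [← h3] at h4
  have h6 := h2.trans h4
  rw [Finset.sum_const, Finset.sum_const, smul_eq_mul, smul_eq_mul] at h6
  have hpos : 0 < H.card := hH.card_pos
  have h7 := Nat.le_of_mul_le_mul_left h6 hpos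
  omega

/-- If `p` has at most `D` out-neighbours and each vertex of `H ⊆ N⁺(p)` has at least `D - r`
out-neighbours inside `N⁺(p)`, then `|H| ≤ 2 r`. -/
theorem few_closed (hT : Tour A) (p : V) (D r : ℕ) (hp : (outN A p).card ≤ D) (H : Finset V)
    (hH : H ⊆ outN A p) (hr : ∀ h ∈ H, D ≤ (outN A h ∩ outN A p).card + r) :
    H.card ≤ 2 * r := by
  classical
  rcases H.eq_empty_or_nonempty with rfl | hne
  · simp
  obtain ⟨h, hh, hlow⟩ := exists_low hT H hne
  have h1 := hr h hh
  -- `H ⊆ (outN h ∩ H) ∪ (outN p \ outN h)`, and `h` is in the second set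
  have hsub : H ⊆ (outN A h ∩ H) ∪ (outN A p \ outN A h) := by
    intro x hx
    by_cases hxh : x ∈ outN A h
    · exact Finset.mem_union_left _ (Finset.mem_inter.mpr ⟨hxh, hx⟩)
    · exact Finset.mem_union_right _ (Finset.mem_sdiff.mpr ⟨hH hx, hxh⟩)
  have h2 : H.card ≤ (outN A h ∩ H).card + (outN A p \ outN A h).card :=
    (Finset.card_le_card hsub).trans (Finset.card_union_le _ _)
  have h3 : (outN A p \ outN A h).card + (outN A p ∩ outN A h).card = (outN A p).card :=
    Finset.card_sdiff_add_card_inter (outN A p) (outN A h)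
  rw [Finset.inter_comm] at h3
  omega

theorem find_w (hT : Tour A) (F U : Finset V) (p h : V) (D q : ℕ) (hpF : p ∉ F)
    (hF : D ≤ (outN A h ∩ F).card + q)
    (hr : (outN A h ∩ outN A p).card + (q + U.card) < D) :
    ∃ w ∈ F, w ∉ U ∧ A h w ∧ A w p := by
  classical
  have hsub : outN A h ∩ F ⊆ (outN A h ∩ outN A p) ∪ (((outN A h ∩ F) \ outN A p)) := by
    intro x hx
    by_cases hxp : x ∈ outN A p
    · exact Finset.mem_union_left _ (Finset.mem_inter.mpr ⟨(Finset.mem_inter.mp hx).1, hxp⟩)
    · exact Finset.mem_union_right _ (Finset.mem_sdiff.mpr ⟨hx, hxp⟩)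
  have h2 := (Finset.card_le_card hsub).trans (Finset.card_union_le _ _)
  have h3 : U.card < ((outN A h ∩ F) \ outN A p).card := by omega
  obtain ⟨w, hw, hwU⟩ := Finset.exists_mem_notMem_of_card_lt_card h3
  rw [Finset.mem_sdiff, Finset.mem_inter, mem_outN, mem_outN] at hw
  refine ⟨w, hw.1.2, hwU, hw.1.1, ?_⟩
  have hne : w ≠ p := fun h => hpF (h ▸ hw.1.2)
  rcases hT.tot w p hne with h4 | h4
  · exact h4
  · exact absurd h4 hw.2

open Classical in
/-- the vertices which are not dominated yet -/
noncomputable def UD (A : V → V → Prop) (F B : Finset V) (O1 : V → Prop) (p : V) : Finset V :=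
  F.filter (fun f => ¬ O1 f ∧ f ∉ B ∧ ∀ b ∈ insert p B, ¬ A f b)

theorem mem_UD (F B : Finset V) (O1 : V → Prop) (p f : V) :
    f ∈ UD A F B O1 p ↔ f ∈ F ∧ (¬ O1 f ∧ f ∉ B ∧ ∀ b ∈ insert p B, ¬ A f b) := by
  classical
  unfold UD
  rw [Finset.mem_filter]

theorem UD_sub (hT : Tour A) (F B : Finset V) (O1 : V → Prop) (p : V) (hpF : p ∉ F) :
    UD A F B O1 p ⊆ outN A p := by
  intro f hf
  rw [mem_UD] at hf
  rw [mem_outN]
  have hne : p ≠ f := fun h => hpF (h ▸ hf.1)
  rcases hT.tot p f hne with h4 | h4
  · exact h4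
  · exact absurd h4 (hf.2.2.2 p (Finset.mem_insert_self _ _))

theorem UD_step (hT : Tour A) (F U B : Finset V) (O1 : V → Prop) (p z : V) (D q : ℕ)
    (hpF : p ∉ F) (hp : (outN A p).card ≤ D)
    (hF : ∀ f ∈ F, O1 f ∨ D ≤ (outN A f ∩ F).card + q)
    (hBF : B ⊆ F \ U)
    (hreach : ∀ v ∈ insert z B, RIn A (↑(insert z (insert p B)) : Set V) v p) :
    ∃ B' : Finset V, B' ⊆ F \ U ∧ B'.card ≤ B.card + 2 ∧
      (∀ v ∈ insert z B', RIn A (↑(insert z (insert p B')) : Set V) v p) ∧
      2 * (UD A F B' O1 p).card ≤ (UD A F B O1 p).card + 3 * (q + U.card) := by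
  classical
  set r := q + U.card with hrdef
  set E := UD A F B O1 p with hE
  have hEp : E ⊆ outN A p := UD_sub hT F B O1 p hpF
  set E2 := E.filter (fun h => h ∉ U ∧ (outN A h ∩ outN A p).card + r < D) with hE2
  -- few are lost
  have hlost : (E \ E2).card ≤ 3 * r := by
    have hs : E \ E2 ⊆ U ∪ E.filter (fun h => D ≤ (outN A h ∩ outN A p).card + r) := by
      intro x hx
      rw [Finset.mem_sdiff, hE2, Finset.mem_filter] at hx
      by_cases hxU : x ∈ U
      · exact Finset.mem_union_left _ hxU
      · refine Finset.mem_union_right _ (Finset.mem_filter.mpr ⟨hx.1, ?_⟩)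
        by_contra hcon
        exact hx.2 ⟨hx.1, hxU, by omega⟩
    have h1 := (Finset.card_le_card hs).trans (Finset.card_union_le _ _)
    have h2 := few_closed hT p D r hp (E.filter (fun h => D ≤ (outN A h ∩ outN A p).card + r))
      ((Finset.filter_subset _ _).trans hEp) (fun h hh => (Finset.mem_filter.mp hh).2)
    omega
  have hsplit : (E \ E2).card + E2.card = E.card :=
    Finset.card_sdiff_add_card_eq_card (Finset.filter_subset _ _)
  rcases E2.eq_empty_or_nonempty with hemp | hne
  · refine ⟨B, hBF, by omega, hreach, ?_⟩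
    rw [← hE]
    have : E2.card = 0 := by rw [hemp]; rfl
    omega
  · obtain ⟨h, hh, hlow⟩ := exists_low hT E2 hne
    have hh' := hh
    rw [hE2, Finset.mem_filter] at hh'
    have hhE : h ∈ UD A F B O1 p := hh'.1
    rw [mem_UD] at hhE
    have hhF : D ≤ (outN A h ∩ F).card + q := by
      rcases hF h hhE.1 with h1 | h1
      · exact absurd h1 hhE.2.1
      · exact h1
    obtain ⟨w, hwF, hwU, hhw, hwp⟩ := find_w hT F U p h D q hpF hhF hh'.2.2
    refine ⟨insert h (insert w B), ?_, ?_, ?_, ?_⟩
    · intro x hx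
      rw [Finset.mem_insert, Finset.mem_insert] at hx
      rcases hx with rfl | rfl | hx
      · exact Finset.mem_sdiff.mpr ⟨hhE.1, hh'.2.1⟩
      · exact Finset.mem_sdiff.mpr ⟨hwF, hwU⟩
      · exact hBF hx
    · exact (Finset.card_insert_le _ _).trans
        (Nat.add_le_add_right (Finset.card_insert_le _ _) 1)
    · have hmono : (↑(insert z (insert p B)) : Set V)
          ⊆ (↑(insert z (insert p (insert h (insert w B)))) : Set V) := by
        intro x hx
        simp only [Finset.coe_insert, Set.mem_insert_iff, Finset.mem_coe] at hx ⊢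
        tauto
      have hwp' : RIn A (↑(insert z (insert p (insert h (insert w B)))) : Set V) w p :=
        RIn.single (by simp) (by simp) hwp
      have hhp' : RIn A (↑(insert z (insert p (insert h (insert w B)))) : Set V) h p :=
        (RIn.single (by simp) (by simp) hhw).trans hwp'
      intro v hv
      rw [Finset.mem_insert, Finset.mem_insert, Finset.mem_insert] at hv
      rcases hv with rfl | rfl | rfl | hv
      · exact (hreach _ (Finset.mem_insert_self _ _)).mono hmono
      · exact hhp'
      · exact hwp'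
      · exact (hreach _ (Finset.mem_insert_of_mem hv)).mono hmono
    · have hs : UD A F (insert h (insert w B)) O1 p ⊆ (outN A h ∩ E2) ∪ (E \ E2) := by
        intro x hx
        rw [mem_UD] at hx
        obtain ⟨hxF, hxO, hxB, hxd⟩ := hx
        have hxE : x ∈ E := by
          rw [hE, mem_UD]
          refine ⟨hxF, hxO, fun hc => hxB (by simp [hc]), fun b hb => hxd b ?_⟩
          rw [Finset.mem_insert] at hb ⊢
          rcases hb with rfl | hb
          · exact Or.inl rfl
          · exact Or.inr (by simp [hb])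
        by_cases hx2 : x ∈ E2
        · refine Finset.mem_union_left _ (Finset.mem_inter.mpr ⟨?_, hx2⟩)
          rw [mem_outN]
          have hne' : h ≠ x := fun hc => hxB (by simp [hc])
          rcases hT.tot h x hne' with h4 | h4
          · exact h4
          · exact absurd h4 (hxd h (by simp))
        · exact Finset.mem_union_right _ (Finset.mem_sdiff.mpr ⟨hxE, hx2⟩)
      have h1 := (Finset.card_le_card hs).trans (Finset.card_union_le _ _)
      omega

/-- `p`, `z` outside the pool `F`; the vertices of `F` satisfy `O1` or have almost `D`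
out-neighbours in `F`; out-neighbours of `z` in `F` do not satisfy `O1`.  Then there is a set `B`
of at most `24` unused pool vertices such that `z` and all of `B` reach `p` inside
`B ∪ {z, p}`, and all but `D / 1000` vertices `f` of `F` which do not satisfy `O1` are in `B` or
have an out-neighbour in `B ∪ {p}`. -/
theorem dom (hT : Tour A) (F U : Finset V) (O1 : V → Prop) (p z : V) (D N q : ℕ)
    (hpF : p ∉ F) (hzF : z ∉ F) (hp : (outN A p).card ≤ D)
    (hz : N ≤ (outN A z ∩ F).card)
    (hzO : ∀ f ∈ F, A z f → ¬ O1 f)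
    (hF : ∀ f ∈ F, O1 f ∨ D ≤ (outN A f ∩ F).card + q)
    (hND : N ≤ D) (hq : 20000 * (q + U.card + 30) ≤ N) :
    ∃ B E : Finset V, B ⊆ F \ U ∧ B.card ≤ 24 ∧ 1000 * E.card ≤ D ∧
      (∀ v ∈ insert z B, RIn A (↑(insert z (insert p B)) : Set V) v p) ∧
      (∀ f ∈ F, O1 f ∨ f ∈ E ∨ f ∈ B ∨ ∃ b ∈ insert p B, A f b) := by
  classical
  -- the start
  have hbase : ∃ B : Finset V, B ⊆ F \ U ∧ B.card ≤ 2 ∧
      (∀ v ∈ insert z B, RIn A (↑(insert z (insert p B)) : Set V) v p) := by
    by_cases hex : ∃ h ∈ (outN A z ∩ F) \ U, A h p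
    · obtain ⟨h, hh, hhp⟩ := hex
      rw [Finset.mem_sdiff, Finset.mem_inter, mem_outN] at hh
      refine ⟨{h}, ?_, by simp, ?_⟩
      · intro x hx
        rw [Finset.mem_singleton] at hx
        subst hx
        exact Finset.mem_sdiff.mpr ⟨hh.1.2, hh.2⟩
      · have h1 : RIn A (↑(insert z (insert p ({h} : Finset V))) : Set V) h p :=
          RIn.single (by simp) (by simp) hhp
        intro v hv
        rw [Finset.mem_insert, Finset.mem_singleton] at hv
        rcases hv with rfl | rfl
        · exact (RIn.single (by simp) (by simp) hh.1.1).trans h1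
        · exact h1
    · push Not at hex
      have hG : (outN A z ∩ F) \ U ⊆ outN A p := by
        intro h hh
        have h1 := hex h hh
        rw [Finset.mem_sdiff, Finset.mem_inter, mem_outN] at hh
        rw [mem_outN]
        have hne : p ≠ h := fun hc => hpF (hc ▸ hh.1.2)
        rcases hT.tot p h hne with h4 | h4
        · exact h4
        · exact absurd h4 h1
      have h2 := few_closed hT p D (q + U.card) hp (((outN A z ∩ F) \ U).filter
        (fun h => D ≤ (outN A h ∩ outN A p).card + (q + U.card)))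
        ((Finset.filter_subset _ _).trans hG) (fun h hh => (Finset.mem_filter.mp hh).2)
      have h3 : (outN A z ∩ F).card ≤ ((outN A z ∩ F) \ U).card + U.card := by
        have := Finset.le_card_sdiff U (outN A z ∩ F)
        omega
      have h4 : (((outN A z ∩ F) \ U).filter
          (fun h => D ≤ (outN A h ∩ outN A p).card + (q + U.card))).card
          < ((outN A z ∩ F) \ U).card := by omega
      obtain ⟨h, hh, hhn⟩ := Finset.exists_mem_notMem_of_card_lt_card h4
      rw [Finset.mem_filter] at hhn
      have hhr : (outN A h ∩ outN A p).card + (q + U.card) < D := by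
        by_contra hcon
        exact hhn ⟨hh, by omega⟩
      rw [Finset.mem_sdiff, Finset.mem_inter, mem_outN] at hh
      have hhF : D ≤ (outN A h ∩ F).card + q := by
        rcases hF h hh.1.2 with h1 | h1
        · exact absurd h1 (hzO h hh.1.2 hh.1.1)
        · exact h1
      obtain ⟨w, hwF, hwU, hhw, hwp⟩ := find_w hT F U p h D q hpF hhF hhr
      refine ⟨{h, w}, ?_, Finset.card_le_two, ?_⟩
      · intro x hx
        rw [Finset.mem_insert, Finset.mem_singleton] at hx
        rcases hx with rfl | rfl
        · exact Finset.mem_sdiff.mpr ⟨hh.1.2, hh.2⟩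
        · exact Finset.mem_sdiff.mpr ⟨hwF, hwU⟩
      · have h1 : RIn A (↑(insert z (insert p ({h, w} : Finset V))) : Set V) w p :=
          RIn.single (by simp) (by simp) hwp
        have h2 : RIn A (↑(insert z (insert p ({h, w} : Finset V))) : Set V) h p :=
          (RIn.single (by simp) (by simp) hhw).trans h1
        intro v hv
        rw [Finset.mem_insert, Finset.mem_insert, Finset.mem_singleton] at hv
        rcases hv with rfl | rfl | rfl
        · exact (RIn.single (by simp) (by simp) hh.1.1).trans h2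
        · exact h2
        · exact h1
  -- iterate
  have hiter : ∀ n : ℕ, ∃ B : Finset V, B ⊆ F \ U ∧ B.card ≤ 2 + 2 * n ∧
      (∀ v ∈ insert z B, RIn A (↑(insert z (insert p B)) : Set V) v p) ∧
      2 ^ n * (UD A F B O1 p).card + 3 * (q + U.card) ≤ D + 3 * (q + U.card) * 2 ^ n := by
    intro n
    induction n with
    | zero =>
      obtain ⟨B, hB1, hB2, hB3⟩ := hbase
      refine ⟨B, hB1, by omega, hB3, ?_⟩
      have := (Finset.card_le_card (UD_sub hT F B O1 p hpF)).trans hp
      rw [pow_zero]
      omega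
    | succ n ih =>
      obtain ⟨B, hB1, hB2, hB3, hB4⟩ := ih
      obtain ⟨B', h1, h2, h3, h4⟩ := UD_step hT F U B O1 p z D q hpF hp hF hB1 hB3
      refine ⟨B', h1, by omega, h3, ?_⟩
      have h5 : 2 ^ n * (2 * (UD A F B' O1 p).card)
          ≤ 2 ^ n * ((UD A F B O1 p).card + 3 * (q + U.card)) := Nat.mul_le_mul_left _ h4
      rw [pow_succ]
      nlinarith
  obtain ⟨B, h1, h2, h3, h4⟩ := hiter 11
  refine ⟨B, UD A F B O1 p, h1, by omega, ?_, h3, ?_⟩
  · norm_num at h4
    omega
  · intro f hf
    by_cases hO : O1 f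
    · exact Or.inl hO
    · by_cases hfB : f ∈ B
      · exact Or.inr (Or.inr (Or.inl hfB))
      · by_cases hd : ∃ b ∈ insert p B, A f b
        · exact Or.inr (Or.inr (Or.inr hd))
        · push Not at hd
          refine Or.inr (Or.inl ?_)
          rw [mem_UD]
          exact ⟨hf, hO, hfB, hd⟩

end Pool.Agent.Lib.A8780
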