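import Pool.Agent.Lib.A8780.Paths
import Pool.Agent.Lib.MP_b399ad_co.Paths

/-!
Existence of `M` disjoint paths (vertex version of Menger's theorem for digraphs).
-/

set_option autoImplicit false

namespace Pool.Agent.Lib.A8780

theorem exists_psys {V : Type*} [Fintype V] [DecidableEq V] {A : V → V → Prop} (K : ℕ)
    (hK : KStrong A K Finset.univ) (S S' X : Finset V) (M : ℕ)
    (hSX : Disjoint S X) (hSX' : Disjoint S' X) (hS : M ≤ S.card) (hS' : M ≤ S'.card)
    (hXM : X.card + M ≤ K) : ∃ P : Fin M → List V, PSys A S S' X M P := by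
  classical
  obtain ⟨p, hp, hd⟩ := B399.menger' (V := V) {v | v ∉ X} (Set.toFinite _)
    (fun x y => A x y ∧ x ∉ X ∧ y ∉ X) (↑S : Set V) (↑S' : Set V)
    (by
      intro v hv hvX
      exact Finset.disjoint_left.mp hSX hv hvX)
    (fun x y h => ⟨h.2.1, h.2.2⟩) M (by
      intro T hT
      have h1 : ∃ s ∈ S, s ∉ T := by
        by_contra hcon
        have hsub : S ⊆ T := by
          intro s hs
          by_contra hsT
          exact hcon ⟨s, hs, hsT⟩
        have := Finset.card_le_card hsub
        omega
      have h2 : ∃ s ∈ S', s ∉ T := by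
        by_contra hcon
        have hsub : S' ⊆ T := by
          intro s hs
          by_contra hsT
          exact hcon ⟨s, hs, hsT⟩
        have := Finset.card_le_card hsub
        omega
      obtain ⟨s, hs, hsT⟩ := h1
      obtain ⟨s', hs', hsT'⟩ := h2
      have hsX : s ∉ X := Finset.disjoint_left.mp hSX hs
      have hsX' : s' ∉ X := Finset.disjoint_left.mp hSX' hs'
      have hcard : (X ∪ T).card + 1 ≤ K := by
        have := Finset.card_union_le X T
        omega
      have hr := hK.2 (X ∪ T) hcard s (Finset.mem_univ _) s' (Finset.mem_univ _)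
        (by simp [hsX, hsT]) (by simp [hsX', hsT'])
      refine ⟨s, hs, hsT, s', hs', ?_⟩
      unfold RIn at hr
      clear hs' hsT' hsX'
      induction hr with
      | refl => exact Relation.ReflTransGen.refl
      | tail _ hab ih =>
        refine Relation.ReflTransGen.tail ih ?_
        obtain ⟨ha, hb, hA⟩ := hab
        have ha2 := ha.2
        have hb2 := hb.2
        rw [Finset.mem_union, not_or] at ha2 hb2
        exact ⟨⟨hA, ha2.1, hb2.1⟩, hb2.2⟩)
  refine ⟨p, ⟨?_, ?_, ?_, ?_, ?_, ?_, ?_⟩⟩
  · intro i
    exact (hp i).2.1.imp (fun a b h => h.1)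
  · intro i
    exact (hp i).1
  · intro i
    exact (hp i).2.2.2.2.1
  · intro i v hv
    obtain ⟨a, ha, haS⟩ := (hp i).2.2.1
    have hav : a = v := by
      have h3 : (p i).head? = some a := ha
      rw [hv] at h3
      exact (Option.some.inj h3).symm
    rw [← hav]
    exact haS
  · intro i v hv
    obtain ⟨a, ha, haS⟩ := (hp i).2.2.2.1
    have hav : a = v := by
      have h3 : (p i).getLast? = some a := ha
      rw [hv] at h3
      exact (Option.some.inj h3).symm
    rw [← hav]
    exact haS
  · intro i v hv
    exact (hp i).2.2.2.2.2 v hv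
  · intro i j hij
    exact hd i j hij

end Pool.Agent.Lib.A8780
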