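import Pool.Agent.Lib.A8780.Basic

/-!
The interface between the two phases.
-/

set_option autoImplicit false

namespace Pool.Agent.Lib.A8780

/-- Blocks `Q i` (`i ∈ [t] × [4k]`) with a path inside from `a i` to `b i`, the special vertices
`z i, z' i ∈ Q i`, the middle vertices `M i ⊆ Q i`, and the pool `F`.  `Xs j` is the set of
vertices prescribed for the part `j`. -/
structure Setup {V : Type*} [Fintype V] [DecidableEq V] (A : V → V → Prop) (k t : ℕ)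
    (N q Dp Dm : ℕ) (Xs : Fin t → Finset V) where
  F : Finset V
  Q : Fin t × Fin (4 * k) → Finset V
  M : Fin t × Fin (4 * k) → Finset V
  a : Fin t × Fin (4 * k) → V
  b : Fin t × Fin (4 * k) → V
  z : Fin t × Fin (4 * k) → V
  z' : Fin t × Fin (4 * k) → V
  hQd : ∀ i j, i ≠ j → Disjoint (Q i) (Q j)
  hQF : ∀ i, Disjoint (Q i) F
  hxQ : ∀ j i, ∀ v ∈ Xs j, v ∉ Q i
  hxF : ∀ j, ∀ v ∈ Xs j, v ∉ F
  ha : ∀ i, a i ∈ Q i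
  hb : ∀ i, b i ∈ Q i
  hz : ∀ i, z i ∈ Q i
  hz' : ∀ i, z' i ∈ Q i
  hconn : ∀ i, RIn A (↑(Q i) : Set V) (a i) (b i)
  hMQ : ∀ i, M i ⊆ Q i
  hE : ∀ i, (Q i \ M i).card ≤ 6
  hM : ∀ i, ∀ v ∈ M i, (∀ j, A v (z j)) ∧ ∀ j, A (z' j) v
  hda : ∀ i, (outN A (a i)).card ≤ Dp
  hdz : ∀ i, (outN A (z i)).card ≤ Dp
  hdb : ∀ i, (outN (rev A) (b i)).card ≤ Dm
  hdz' : ∀ i, (outN (rev A) (z' i)).card ≤ Dm
  hF1 : ∀ f ∈ F, (∀ j, A f (z j)) ∨ Dp ≤ (outN A f ∩ F).card + q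
  hF2 : ∀ f ∈ F, (∀ j, A (z' j) f) ∨ Dm ≤ (outN (rev A) f ∩ F).card + q
  hW : ∀ w, w ∉ F →
      (((∀ j, A w (z j)) ∨ N ≤ (outN A w ∩ F).card) ∧
        ((∀ j, A (z' j) w) ∨ N ≤ (outN (rev A) w ∩ F).card)) ∨
      ((∀ j, w ∉ Xs j) ∧ (∀ i, w ∉ Q i) ∧ (∀ j, A (z' j) w) ∧
        k * t ≤ (outN A w ∩ Finset.univ.biUnion M).card) ∨
      ((∀ j, w ∉ Xs j) ∧ (∀ i, w ∉ Q i) ∧ (∀ j, A w (z j)) ∧
        k * t ≤ (outN (rev A) w ∩ Finset.univ.biUnion M).card)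
  hcard : (Finset.univ \ (F ∪ Finset.univ.biUnion M)).card ≤ N

end Pool.Agent.Lib.A8780
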