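import Pool.Agent.Lib.A8780.Phase2
import Pool.Agent.Lib.A8780.Setup
import Pool.Agent.Lib.A8780.Deg
import Pool.Agent.Lib.A8780.CaseA
import Pool.Agent.Lib.A8780.CaseB
import Pool.Agent.Lib.A8780.Menger

/-!
The linear bound.
-/

set_option autoImplicit false

namespace Pool.Agent.Lib.A8780

theorem phase2 {V : Type*} [Fintype V] [DecidableEq V] {A : V → V → Prop} (hT : Tour A)
    {k t : ℕ} (hk : 0 < k) (ht : 0 < t) {N q Dp Dm : ℕ} {Xs : Fin t → Finset V}
    (hx : ∀ i j, i ≠ j → Disjoint (Xs i) (Xs j)) (hXk : ∀ j, (Xs j).card ≤ k)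
    (D : Setup A k t N q Dp Dm Xs)
    (hq : 20000 * (q + 200 * (k * t) + 30) ≤ N) (hNp : N ≤ Dp) (hNm : N ≤ Dm) :
    ∃ φ : V → Fin t, (∀ j, ∀ v ∈ Xs j, φ v = j) ∧
      ∀ j, KStrong A k (Finset.univ.filter (fun v => φ v = j)) := by
  rcases le_total Dp Dm with h | h
  · exact phase2_le hT k t hk ht N q Dp Dm hq hNp h D.F D.Q D.M D.a D.b D.z D.z' Xs D.hQd D.hQF hx hXk
      D.hxQ D.hxF D.ha D.hb D.hz D.hz' D.hconn D.hMQ D.hE D.hM D.hda D.hdz D.hdb D.hdz' D.hF1
      D.hF2 D.hW D.hcard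
  · obtain ⟨φ, h1, h2⟩ := phase2_le hT.rev k t hk ht N q Dm Dp hq hNm h D.F D.Q D.M D.b D.a D.z'
      D.z Xs D.hQd D.hQF hx hXk D.hxQ D.hxF D.hb D.ha D.hz' D.hz (fun i => (D.hconn i).swap) D.hMQ D.hE
      (fun i v hv => ⟨(D.hM i v hv).2, (D.hM i v hv).1⟩) D.hdb D.hdz' D.hda D.hdz D.hF2 D.hF1
      (by
        intro w hw
        rcases D.hW w hw with h | h | h
        · exact Or.inl ⟨h.2, h.1⟩
        · exact Or.inr (Or.inr h)
        · exact Or.inr (Or.inl h)) D.hcard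
    exact ⟨φ, h1, fun j => (h2 j).rev⟩

/-- The linear bound: each `1200000000 k t`-strong tournament has a partition into `t` parts
inducing `k`-strong tournaments, the `j`-th of which contains the prescribed set `Xs j` of at most
`k` vertices. -/
theorem linear {V : Type*} [Fintype V] [DecidableEq V] {A : V → V → Prop} (hT : Tour A)
    {k t : ℕ} (hk : 0 < k) (ht : 0 < t)
    (hK : KStrong A (1200000000 * (k * t)) (Finset.univ : Finset V))
    (Xs : Fin t → Finset V) (hx : ∀ i j, i ≠ j → Disjoint (Xs i) (Xs j))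
    (hXk : ∀ j, (Xs j).card ≤ k) :
    ∃ φ : V → Fin t, (∀ j, ∀ v ∈ Xs j, φ v = j) ∧
      ∀ j, KStrong A k (Finset.univ.filter (fun v => φ v = j)) := by
  classical
  set κ := k * t with hκ
  have hκ0 : 0 < κ := Nat.mul_pos hk ht
  have htκ : t ≤ κ := Nat.le_mul_of_pos_left t hk
  have hXc : (Finset.univ.biUnion Xs).card ≤ κ := by
    refine (Finset.card_biUnion_le_card_mul _ _ k (fun j _ => hXk j)).trans ?_
    rw [Finset.card_univ, Fintype.card_fin, hκ, mul_comm]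
  have hn : 1200000000 * κ + 1 ≤ Fintype.card V := by
    have := hK.1
    rwa [Finset.card_univ] at this
  obtain ⟨S, S', Dp, Dm, hS, hS', hSS, hSX, hSX', hSD, hwD, hSD', hwD', ⟨s0, -, hs0⟩,
    ⟨s1, -, hs1⟩⟩ := low_sets hT (Finset.univ.biUnion Xs) (1804 * κ) (by omega) (by omega)
  have hdeg : ∀ v, 1200000000 * κ ≤ (outN A v).card := fun v => hK.deg hT v
  have hdeg' : ∀ v, 1200000000 * κ ≤ (outN (rev A) v).card := fun v => hK.rev.deg hT.rev v
  obtain ⟨P, hP⟩ := exists_pmin (exists_psys (1200000000 * κ) hK S S' (Finset.univ.biUnion Xs)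
    (1800 * κ) hSX hSX' (by omega) (by omega) (by omega))
  have hset : Nonempty (Setup A k t (120000000 * κ) (5409 * κ) Dp Dm Xs) := by
    rcases Nat.lt_or_ge (Finset.univ.filter (fun i => (P i).length ≤ 3)).card (4 * κ) with h | h
    · exact caseB hT k t hk ht (1200000000 * κ) Dp Dm le_rfl Xs hXk S S' hdeg hdeg' hS hS' hSS hSX
        hSX' hSD hwD hSD' hwD' P hP h
    · exact caseA hT k t hk ht (1200000000 * κ) Dp Dm le_rfl Xs hXk S S' hdeg hdeg' hS hS' hSS hSX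
        hSX' hSD hwD hSD' hwD' P hP h
  obtain ⟨D⟩ := hset
  have h0 := hdeg s0
  have h1 := hdeg' s1
  exact phase2 hT hk ht hx hXk D (by omega) (by omega) (by omega)

end Pool.Agent.Lib.A8780
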