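import Pool.Agent.Lib.A8780.PoolSplit

/-!
The second phase: from a family of blocks and a pool to the partition.
-/

set_option autoImplicit false

namespace Pool.Agent.Lib.A8780

theorem phase2_le {V : Type*} [Fintype V] [DecidableEq V] {A : V → V → Prop} (hT : Tour A)
    (k t : ℕ) (hk : 0 < k) (ht : 0 < t) (N q Dp Dm : ℕ)
    (hq : 20000 * (q + 200 * (k * t) + 30) ≤ N) (hNp : N ≤ Dp) (hpm : Dp ≤ Dm)
    (F : Finset V) (Q M : Fin t × Fin (4 * k) → Finset V)
    (a b z z' : Fin t × Fin (4 * k) → V) (Xs : Fin t → Finset V)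
    (hQd : ∀ i j, i ≠ j → Disjoint (Q i) (Q j)) (hQF : ∀ i, Disjoint (Q i) F)
    (hx : ∀ i j, i ≠ j → Disjoint (Xs i) (Xs j)) (hXk : ∀ j, (Xs j).card ≤ k)
    (hxQ : ∀ j i, ∀ v ∈ Xs j, v ∉ Q i) (hxF : ∀ j, ∀ v ∈ Xs j, v ∉ F)
    (ha : ∀ i, a i ∈ Q i) (hb : ∀ i, b i ∈ Q i) (hz : ∀ i, z i ∈ Q i) (hz' : ∀ i, z' i ∈ Q i)
    (hconn : ∀ i, RIn A (↑(Q i) : Set V) (a i) (b i))
    (hMQ : ∀ i, M i ⊆ Q i) (hE : ∀ i, (Q i \ M i).card ≤ 6)
    (hM : ∀ i, ∀ v ∈ M i, (∀ j, A v (z j)) ∧ ∀ j, A (z' j) v)
    (hda : ∀ i, (outN A (a i)).card ≤ Dp) (hdz : ∀ i, (outN A (z i)).card ≤ Dp)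
    (hdb : ∀ i, (outN (rev A) (b i)).card ≤ Dm) (hdz' : ∀ i, (outN (rev A) (z' i)).card ≤ Dm)
    (hF1 : ∀ f ∈ F, (∀ j, A f (z j)) ∨ Dp ≤ (outN A f ∩ F).card + q)
    (hF2 : ∀ f ∈ F, (∀ j, A (z' j) f) ∨ Dm ≤ (outN (rev A) f ∩ F).card + q)
    (hW : ∀ w, w ∉ F →
      (((∀ j, A w (z j)) ∨ N ≤ (outN A w ∩ F).card) ∧
        ((∀ j, A (z' j) w) ∨ N ≤ (outN (rev A) w ∩ F).card)) ∨
      ((∀ j, w ∉ Xs j) ∧ (∀ i, w ∉ Q i) ∧ (∀ j, A (z' j) w) ∧
        k * t ≤ (outN A w ∩ Finset.univ.biUnion M).card) ∨
      ((∀ j, w ∉ Xs j) ∧ (∀ i, w ∉ Q i) ∧ (∀ j, A w (z j)) ∧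
        k * t ≤ (outN (rev A) w ∩ Finset.univ.biUnion M).card))
    (hcard : (Finset.univ \ (F ∪ Finset.univ.biUnion M)).card ≤ N) :
    ∃ φ : V → Fin t, (∀ j, ∀ v ∈ Xs j, φ v = j) ∧
      ∀ j, KStrong A k (Finset.univ.filter (fun v => φ v = j)) := by
  classical
  set κ := k * t with hκ
  have hιc : Fintype.card (Fin t × Fin (4 * k)) = 4 * κ := by
    rw [Fintype.card_prod, Fintype.card_fin, Fintype.card_fin, hκ]; ring
  have hkκ : k ≤ κ := Nat.le_mul_of_pos_right k ht
  -- forced vertices are of the first kind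
  have hWQ : ∀ i, ∀ w ∈ Q i, ((∀ j, A w (z j)) ∨ N ≤ (outN A w ∩ F).card) ∧
        ((∀ j, A (z' j) w) ∨ N ≤ (outN (rev A) w ∩ F).card) := by
    intro i w hw
    rcases hW w (Finset.disjoint_left.1 (hQF i) hw) with h | h | h
    · exact h
    · exact absurd hw (h.2.1 i)
    · exact absurd hw (h.2.1 i)
  have hWx : ∀ j, ∀ v ∈ Xs j, ((∀ i, A v (z i)) ∨ N ≤ (outN A v ∩ F).card) ∧
        ((∀ i, A (z' i) v) ∨ N ≤ (outN (rev A) v ∩ F).card) := by
    intro j v hv
    rcases hW v (hxF j v hv) with h | h | h
    · exact h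
    · exact absurd hv (h.1 j)
    · exact absurd hv (h.1 j)
  have hzF : ∀ i, z i ∉ F := fun i => Finset.disjoint_left.1 (hQF i) (hz i)
  have hzF' : ∀ i, z' i ∉ F := fun i => Finset.disjoint_left.1 (hQF i) (hz' i)
  have haF : ∀ i, a i ∉ F := fun i => Finset.disjoint_left.1 (hQF i) (ha i)
  have hbF : ∀ i, b i ∉ F := fun i => Finset.disjoint_left.1 (hQF i) (hb i)
  have hzN : ∀ i, N ≤ (outN A (z i) ∩ F).card := by
    intro i
    rcases (hWQ i (z i) (hz i)).1 with h | h
    · exact absurd (h i) (hT.irr _)
    · exact h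
  have hzN' : ∀ i, N ≤ (outN (rev A) (z' i) ∩ F).card := by
    intro i
    rcases (hWQ i (z' i) (hz' i)).2 with h | h
    · exact absurd (h i) (hT.irr _)
    · exact h
  -- dominating sets
  obtain ⟨Bp, Ep, hBpF, hBpc, -, hBpd, hEp, hBpR, hBpD⟩ := blocks hT F ∅ z a N q Dp (192 * κ)
    (by rw [hιc, Finset.card_empty]; omega) haF hzF hda hzN hF1 hNp
    (by refine le_trans ?_ hq; gcongr; norm_num)
  have hBpu : (Finset.univ.biUnion Bp).card ≤ 96 * κ := by
    calc (Finset.univ.biUnion Bp).card ≤ (Finset.univ : Finset (Fin t × Fin (4 * k))).card * 24 :=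
          Finset.card_biUnion_le_card_mul _ _ _ (fun i _ => hBpc i)
      _ = 96 * κ := by rw [Finset.card_univ, hιc]; ring
  obtain ⟨Bm, Em, hBmF, hBmc, hBmU, hBmd, hEm, hBmR, hBmD⟩ := blocks hT.rev F
    (Finset.univ.biUnion Bp) z' b N q Dm (192 * κ)
    (by rw [hιc]; omega) hbF hzF' hdb hzN' hF2 (hNp.trans hpm)
    (by refine le_trans ?_ hq; gcongr; norm_num)
  have hBmu : (Finset.univ.biUnion Bm).card ≤ 96 * κ := by
    calc (Finset.univ.biUnion Bm).card ≤ (Finset.univ : Finset (Fin t × Fin (4 * k))).card * 24 :=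
          Finset.card_biUnion_le_card_mul _ _ _ (fun i _ => hBmc i)
      _ = 96 * κ := by rw [Finset.card_univ, hιc]; ring
  have hBpBm : ∀ i j, Disjoint (Bm i) (Bp j) := by
    intro i j
    exact Finset.disjoint_of_subset_right
      (Finset.subset_biUnion_of_mem Bp (Finset.mem_univ j)) (hBmU i)
  set AB := Finset.univ.biUnion Bp ∪ Finset.univ.biUnion Bm with hAB
  have hABF : AB ⊆ F := by
    apply Finset.union_subset
    · exact Finset.biUnion_subset.2 (fun i _ => hBpF i)
    · exact Finset.biUnion_subset.2 (fun i _ => hBmF i)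
  have hABc : AB.card ≤ 192 * κ := by
    calc AB.card ≤ _ := Finset.card_union_le _ _
      _ ≤ 192 * κ := by omega
  set Mall := Finset.univ.biUnion M with hMall
  obtain ⟨G, hGF, hGd, hGβ, hGγ, hGα, hGα'⟩ := pool_split z z' N q Dp Dm κ hιc hq hNp
    (hNp.trans hpm) F AB (Finset.univ \ (F ∪ Mall)) hABF hABc hdz hdz' hzF hzF' hT hF1 hF2 hcard
  have htκ : t ≤ κ := Nat.le_mul_of_pos_left t hk
  -- bad sets
  set Badp : Fin t → Finset V := fun j => Finset.univ.filter (fun v : V =>
      k < (Finset.univ.filter (fun m : Fin (4 * k) => v ∈ Ep (j, m))).card) with hBadpdef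
  set Badm : Fin t → Finset V := fun j => Finset.univ.filter (fun v : V =>
      k < (Finset.univ.filter (fun m : Fin (4 * k) => v ∈ Em (j, m))).card) with hBadmdef
  have hBadp : ∀ j, 250 * (Badp j).card ≤ Dp := fun j =>
    bad_bound k Dp (fun m => Ep (j, m)) (fun m => hEp (j, m))
  have hBadm : ∀ j, 250 * (Badm j).card ≤ Dm := fun j =>
    bad_bound k Dm (fun m => Em (j, m)) (fun m => hEm (j, m))
  -- blocks with their dominating sets
  set C : Fin t × Fin (4 * k) → Finset V := fun i => Q i ∪ (Bp i ∪ Bm i) with hCdef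
  have hmemC : ∀ i v, v ∈ C i ↔ v ∈ Q i ∨ v ∈ Bp i ∨ v ∈ Bm i := by
    intro i v
    simp only [hCdef, Finset.mem_union]
  have hCF : ∀ i v, v ∈ C i → v ∈ F → v ∈ Bp i ∪ Bm i := by
    intro i v hv hvF
    rcases (hmemC i v).1 hv with h | h
    · exact absurd hvF (Finset.disjoint_left.1 (hQF i) h)
    · exact Finset.mem_union.2 h
  have hCnF : ∀ i v, v ∈ C i → v ∉ F → v ∈ Q i := by
    intro i v hv hvF
    rcases (hmemC i v).1 hv with h | h | h
    · exact h
    · exact absurd (hBpF i h) hvF
    · exact absurd (hBmF i h) hvF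
  have hCd : ∀ i i', i ≠ i' → Disjoint (C i) (C i') := by
    intro i i' hne
    rw [Finset.disjoint_left]
    intro v hv hv'
    by_cases hvF : v ∈ F
    · rcases Finset.mem_union.1 (hCF i v hv hvF) with h1 | h1 <;>
        rcases Finset.mem_union.1 (hCF i' v hv' hvF) with h2 | h2
      · exact Finset.disjoint_left.1 (hBpd i i' hne) h1 h2
      · exact Finset.disjoint_left.1 (hBpBm i' i) h2 h1
      · exact Finset.disjoint_left.1 (hBpBm i i') h1 h2
      · exact Finset.disjoint_left.1 (hBmd i i' hne) h1 h2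
    · exact Finset.disjoint_left.1 (hQd i i' hne) (hCnF i v hv hvF) (hCnF i' v hv' hvF)
  have hxC : ∀ j i, ∀ v ∈ Xs j, v ∉ C i := fun j i v hv h => hxQ j i v hv (hCnF i _ h (hxF j v hv))
  set Forced : Fin t → V → Prop := fun j v => (∃ m, v ∈ C (j, m)) ∨ v ∈ Xs j with hForced
  have hFu : ∀ j j' v, Forced j v → Forced j' v → j = j' := by
    rintro j j' v (⟨m, hm⟩ | h1) (⟨m', hm'⟩ | h2)
    · by_contra hne
      exact Finset.disjoint_left.1 (hCd (j, m) (j', m') (fun h => hne (Prod.mk.inj h).1)) hm hm'
    · exact absurd hm (hxC j' (j, m) v h2)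
    · exact absurd hm' (hxC j (j', m') v h1)
    · by_contra hne
      exact Finset.disjoint_left.1 (hx j j' hne) h1 h2
  let π0 : V → Option (Fin t) := fun v => if h : ∃ j, Forced j v then some h.choose else none
  have hπ0 : ∀ v j, π0 v = some j ↔ Forced j v := by
    intro v j
    constructor
    · intro h
      simp only [π0] at h
      split_ifs at h with h1
      · have h2 := h1.choose_spec
        rw [Option.some.injEq] at h
        rw [← h]; exact h2
    · intro h
      have h1 : ∃ j, Forced j v := ⟨j, h⟩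
      simp only [π0]
      rw [dif_pos h1, Option.some.injEq]
      exact hFu _ _ v h1.choose_spec h
  have hGF' : ∀ a v, v ∈ G a → v ∈ F := fun a v hv => (Finset.mem_sdiff.1 (hGF a hv)).1
  have hGforced : ∀ a v j, v ∈ G a → ¬ Forced j v := by
    rintro a v j hv (⟨m, hm⟩ | h)
    · have h1 := Finset.mem_sdiff.1 (hGF a hv)
      apply h1.2
      rcases Finset.mem_union.1 (hCF (j, m) v hm h1.1) with h2 | h2
      · exact Finset.mem_union_left _ (Finset.mem_biUnion.2 ⟨(j, m), Finset.mem_univ _, h2⟩)
      · exact Finset.mem_union_right _ (Finset.mem_biUnion.2 ⟨(j, m), Finset.mem_univ _, h2⟩)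
    · exact hxF j v h (hGF' a v hv)
  have hπ0G : ∀ a, ∀ v ∈ G a, π0 v = none := by
    intro a v hv
    rcases hc : π0 v with _ | j
    · rfl
    · exact absurd ((hπ0 v j).1 hc) (hGforced a v j hv)
  -- forced vertices outside the pool are of the first kind
  have hfor : ∀ w, w ∉ F → ∀ j, Forced j w →
      ((∀ j, A w (z j)) ∨ N ≤ (outN A w ∩ F).card) ∧
        ((∀ j, A (z' j) w) ∨ N ≤ (outN (rev A) w ∩ F).card) := by
    rintro w hw j (⟨m, hm⟩ | h)
    · exact hWQ (j, m) w (hCnF _ _ hm hw)
    · exact hWx j w h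
  have hMF : ∀ i v, v ∈ M i → Forced i.1 v := by
    intro i v hv
    left
    exact ⟨i.2, (hmemC _ _).2 (Or.inl (hMQ i hv))⟩
  -- round 1
  set c1 : V × Bool → Fin t := fun p => (π0 p.1).getD ⟨0, ht⟩ with hc1
  set X1 : V × Bool → Finset V := fun p => (if p.2 then outN A p.1 else outN (rev A) p.1) ∩ G 1
    with hX1
  set s1 : Finset (V × Bool) := Finset.univ.filter (fun p => p.1 ∉ F ∧ (∃ j, Forced j p.1) ∧
    (p.2 = true → ¬ ∀ j, A p.1 (z j)) ∧ (p.2 = false → ¬ ∀ j, A (z' j) p.1)) with hs1
  have hs1c : ∀ j, (s1.filter (fun p => c1 p = j)).card ≤ 50 * k := by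
    intro j
    have h1 : s1.filter (fun p => c1 p = j) ⊆
        (Xs j ∪ (Finset.univ.biUnion (fun m : Fin (4 * k) => Q (j, m) \ M (j, m)))) ×ˢ
          (Finset.univ : Finset Bool) := by
      rintro ⟨w, bb⟩ hp
      rw [Finset.mem_filter, hs1, Finset.mem_filter] at hp
      obtain ⟨⟨-, hwF, ⟨j', hj'⟩, hO, hI⟩, hc⟩ := hp
      simp only at hwF hj' hO hI
      have hc' : j' = j := by
        simp only [hc1] at hc
        rw [(hπ0 w j').2 hj'] at hc
        exact hc
      subst hc'
      rw [Finset.mem_product]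
      refine ⟨?_, Finset.mem_univ _⟩
      rw [Finset.mem_union, Finset.mem_biUnion]
      rcases hj' with ⟨m, hm⟩ | h
      · right
        refine ⟨m, Finset.mem_univ _, ?_⟩
        rw [Finset.mem_sdiff]
        refine ⟨hCnF _ _ hm hwF, ?_⟩
        intro hMm
        have h2 := hM _ _ hMm
        cases bb
        · exact hI rfl h2.2
        · exact hO rfl h2.1
      · left; exact h
    calc (s1.filter (fun p => c1 p = j)).card ≤ _ := Finset.card_le_card h1
      _ = (Xs j ∪ (Finset.univ.biUnion
            (fun m : Fin (4 * k) => Q (j, m) \ M (j, m)))).card * 2 := by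
          rw [Finset.card_product, Finset.card_univ, Fintype.card_bool]
      _ ≤ (k + 4 * k * 6) * 2 := by
          apply Nat.mul_le_mul_right
          refine (Finset.card_union_le _ _).trans ?_
          apply Nat.add_le_add (hXk j)
          calc _ ≤ (Finset.univ : Finset (Fin (4 * k))).card * 6 :=
                Finset.card_biUnion_le_card_mul _ _ _ (fun m _ => hE (j, m))
            _ = 4 * k * 6 := by rw [Finset.card_univ, Fintype.card_fin]
      _ ≤ 50 * k := by omega
  have hk2 : k ≤ 2 ^ k := Nat.lt_two_pow_self.le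
  obtain ⟨π1, h1a, h1b, h1c, h1d⟩ := round k (k + 6) π0 (G 1) (hπ0G 1) s1 c1 X1
    (fun p _ => Finset.inter_subset_right)
    (fun j => (hs1c j).trans (by rw [pow_add]; omega))
    (by
      rintro ⟨w, bb⟩ hp
      rw [hs1, Finset.mem_filter] at hp
      obtain ⟨-, hwF, ⟨j, hj⟩, hO, hI⟩ := hp
      simp only at hwF hj hO hI
      have hwM : w ∈ Finset.univ \ (F ∪ Mall) := by
        rw [Finset.mem_sdiff, Finset.mem_union]
        refine ⟨Finset.mem_univ _, ?_⟩
        rintro (h | h)
        · exact hwF h
        · obtain ⟨i, -, hi⟩ := Finset.mem_biUnion.1 h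
          have h2 := hM _ _ hi
          cases bb
          · exact hI rfl h2.2
          · exact hO rfl h2.1
      have hf := hfor w hwF j hj
      have harith : 64 * (k + (k + 6) + 4) * t = 128 * κ + 640 * t := by rw [hκ]; ring
      rw [harith]
      cases bb
      · have h3 := hGα' w hwM (hf.2.resolve_left (hI rfl)) 1
        simp only [hX1]
        rw [if_neg (by decide)]
        omega
      · have h3 := hGα w hwM (hf.1.resolve_left (hO rfl)) 1
        simp only [hX1, if_true]
        omega)
  have hX1F : ∀ p v, v ∈ X1 p → v ∈ G 1 := fun p v hv => (Finset.mem_inter.1 hv).2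
  have h1G : ∀ a, a ≠ 1 → ∀ v ∈ G a, π1 v = none := by
    intro a ha v hv
    rcases hc : π1 v with _ | j
    · rfl
    · rcases h1b v j hc with h | ⟨p, -, -, hp⟩
      · rw [hπ0G a v hv] at h; exact absurd h (by simp)
      · exact absurd (hX1F p v hp) (Finset.disjoint_left.1 (hGd a 1 ha) hv)
  have hBB : ∀ j, (Finset.univ.biUnion
      (fun m : Fin (4 * k) => Bp (j, m) ∪ Bm (j, m))).card ≤ 192 * k := by
    intro j
    calc _ ≤ (Finset.univ : Finset (Fin (4 * k))).card * 48 :=
          Finset.card_biUnion_le_card_mul _ _ _ (fun m _ => (Finset.card_union_le _ _).trans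
            (by have := hBpc (j, m); have := hBmc (j, m); omega))
      _ = 192 * k := by rw [Finset.card_univ, Fintype.card_fin]; ring
  have hF1c : ∀ j, (F.filter (fun v => π1 v = some j)).card ≤ 192 * k + k * (50 * k) := by
    intro j
    have h1 : F.filter (fun v => π1 v = some j) ⊆
        Finset.univ.biUnion (fun m : Fin (4 * k) => Bp (j, m) ∪ Bm (j, m)) ∪
          Finset.univ.filter (fun v => π1 v = some j ∧ π0 v ≠ some j) := by
      intro v hv
      rw [Finset.mem_filter] at hv
      rw [Finset.mem_union]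
      by_cases h0 : π0 v = some j
      · left
        rcases (hπ0 v j).1 h0 with ⟨m, hm⟩ | h
        · rw [Finset.mem_biUnion]
          exact ⟨m, Finset.mem_univ _, hCF _ _ hm hv.1⟩
        · exact absurd hv.1 (hxF j v h)
      · right
        exact Finset.mem_filter.2 ⟨Finset.mem_univ _, hv.2, h0⟩
    calc _ ≤ _ := Finset.card_le_card h1
      _ ≤ _ := Finset.card_union_le _ _
      _ ≤ 192 * k + k * (50 * k) := by
          apply Nat.add_le_add (hBB j)
          exact (h1d j).trans (Nat.mul_le_mul_left _ (hs1c j))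
  -- round 2
  set c2 : V → Fin t := fun f => (π1 f).getD ⟨0, ht⟩ with hc2
  set X2 : V → Finset V := fun f => (outN A f ∩ G 2) \ Badp (c2 f) with hX2
  set s2 : Finset V := F.filter (fun f => (∃ j, π1 f = some j) ∧ ¬ ∀ j, A f (z j)) with hs2
  have hs2c : ∀ j, (s2.filter (fun f => c2 f = j)).card ≤ 242 * k ^ 2 := by
    intro j
    have h1 : s2.filter (fun f => c2 f = j) ⊆ F.filter (fun v => π1 v = some j) := by
      intro f hf
      rw [Finset.mem_filter, hs2, Finset.mem_filter] at hf
      obtain ⟨⟨hfF, ⟨j', hj'⟩, -⟩, hc⟩ := hf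
      rw [Finset.mem_filter]
      refine ⟨hfF, ?_⟩
      simp only [hc2] at hc
      rw [hj'] at hc ⊢
      rw [← hc]; rfl
    refine (Finset.card_le_card h1).trans ((hF1c j).trans ?_)
    nlinarith
  obtain ⟨π2, h2a, h2b, h2c, h2d⟩ := round k (k + 9) π1 (G 2) (h1G 2 (by decide)) s2 c2 X2
    (fun f _ => Finset.sdiff_subset.trans Finset.inter_subset_right)
    (fun j => (hs2c j).trans (by
      have := sq_le_two_pow k
      rw [pow_add]; omega))
    (by
      intro f hf
      rw [hs2, Finset.mem_filter] at hf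
      obtain ⟨hfF, ⟨j, hj⟩, hO⟩ := hf
      have h3 := (hGβ f hfF).resolve_left hO 2
      have h4 := hBadp (c2 f)
      have h5 := Finset.le_card_sdiff (Badp (c2 f)) (outN A f ∩ G 2)
      have harith : 64 * (k + (k + 9) + 4) * t = 128 * κ + 832 * t := by rw [hκ]; ring
      rw [harith]
      simp only [hX2]
      omega)
  have hX2F : ∀ f v, v ∈ X2 f → v ∈ G 2 := fun f v hv =>
    (Finset.mem_inter.1 (Finset.mem_sdiff.1 hv).1).2
  have h2G : ∀ a, a ≠ 1 → a ≠ 2 → ∀ v ∈ G a, π2 v = none := by
    intro a ha1 ha2 v hv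
    rcases hc : π2 v with _ | j
    · rfl
    · rcases h2b v j hc with h | ⟨p, -, -, hp⟩
      · rw [h1G a ha1 v hv] at h; exact absurd h (by simp)
      · exact absurd (hX2F p v hp) (Finset.disjoint_left.1 (hGd a 2 ha2) hv)
  have hF2c : ∀ j, (F.filter (fun v => π2 v = some j)).card ≤ 484 * k ^ 3 := by
    intro j
    have h1 : F.filter (fun v => π2 v = some j) ⊆ F.filter (fun v => π1 v = some j) ∪
          Finset.univ.filter (fun v => π2 v = some j ∧ π1 v ≠ some j) := by
      intro v hv
      rw [Finset.mem_filter] at hv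
      rw [Finset.mem_union, Finset.mem_filter, Finset.mem_filter]
      by_cases h0 : π1 v = some j
      · left; exact ⟨hv.1, h0⟩
      · right; exact ⟨Finset.mem_univ _, hv.2, h0⟩
    calc _ ≤ _ := Finset.card_le_card h1
      _ ≤ _ := Finset.card_union_le _ _
      _ ≤ (192 * k + k * (50 * k)) + k * (242 * k ^ 2) := by
          apply Nat.add_le_add (hF1c j)
          exact (h2d j).trans (Nat.mul_le_mul_left _ (hs2c j))
      _ ≤ 484 * k ^ 3 := by
          have h5 : k * k ≤ k * k * k := Nat.le_mul_of_pos_right _ hk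
          have h6 : k ≤ k * k := Nat.le_mul_of_pos_right _ hk
          nlinarith
  -- round 3
  set c3 : V → Fin t := fun f => (π2 f).getD ⟨0, ht⟩ with hc3
  set X3 : V → Finset V := fun f => (outN (rev A) f ∩ G 3) \ (Badp (c3 f) ∪ Badm (c3 f)) with hX3
  set s3 : Finset V := F.filter (fun f => (∃ j, π2 f = some j) ∧ ¬ ∀ j, A (z' j) f) with hs3
  have hs3c : ∀ j, (s3.filter (fun f => c3 f = j)).card ≤ 484 * k ^ 3 := by
    intro j
    have h1 : s3.filter (fun f => c3 f = j) ⊆ F.filter (fun v => π2 v = some j) := by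
      intro f hf
      rw [Finset.mem_filter, hs3, Finset.mem_filter] at hf
      obtain ⟨⟨hfF, ⟨j', hj'⟩, -⟩, hc⟩ := hf
      rw [Finset.mem_filter]
      refine ⟨hfF, ?_⟩
      simp only [hc3] at hc
      rw [hj'] at hc ⊢
      rw [← hc]; rfl
    exact (Finset.card_le_card h1).trans (hF2c j)
  obtain ⟨π3, h3a, h3b, h3c, h3d⟩ := round k (2 * k + 9) π2 (G 3)
    (h2G 3 (by decide) (by decide)) s3 c3 X3
    (fun f _ => Finset.sdiff_subset.trans Finset.inter_subset_right)
    (fun j => (hs3c j).trans (by
      have := cube_le k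
      rw [pow_add, pow_mul]; norm_num; omega))
    (by
      intro f hf
      rw [hs3, Finset.mem_filter] at hf
      obtain ⟨hfF, ⟨j, hj⟩, hO⟩ := hf
      have h3 := (hGγ f hfF).resolve_left hO 3
      have h4 := hBadp (c3 f)
      have h4' := hBadm (c3 f)
      have h5 := Finset.le_card_sdiff (Badp (c3 f) ∪ Badm (c3 f)) (outN (rev A) f ∩ G 3)
      have h6 := Finset.card_union_le (Badp (c3 f)) (Badm (c3 f))
      have harith : 64 * (k + (2 * k + 9) + 4) * t = 192 * κ + 832 * t := by rw [hκ]; ring
      rw [harith]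
      simp only [hX3]
      omega)
  have hX3F : ∀ f v, v ∈ X3 f → v ∈ G 3 := fun f v hv =>
    (Finset.mem_inter.1 (Finset.mem_sdiff.1 hv).1).2
  -- the final assignment
  have hρ : ∀ w : V, ∃ j : Fin t, w ∉ F →
      ¬ (((∀ j, A w (z j)) ∨ N ≤ (outN A w ∩ F).card) ∧
        ((∀ j, A (z' j) w) ∨ N ≤ (outN (rev A) w ∩ F).card)) →
      ((∀ j, A (z' j) w) ∧ k ≤ (outN A w ∩
        Finset.univ.biUnion (fun m : Fin (4 * k) => M (j, m))).card) ∨
      ((∀ j, A w (z j)) ∧ k ≤ (outN (rev A) w ∩
        Finset.univ.biUnion (fun m : Fin (4 * k) => M (j, m))).card) := by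
    intro w
    by_cases hwF : w ∉ F
    · by_cases hfirst : (((∀ j, A w (z j)) ∨ N ≤ (outN A w ∩ F).card) ∧
        ((∀ j, A (z' j) w) ∨ N ≤ (outN (rev A) w ∩ F).card))
      · exact ⟨⟨0, ht⟩, fun _ h => absurd hfirst h⟩
      · rcases (hW w hwF).resolve_left hfirst with h | h
        · obtain ⟨j, hj⟩ := pigeon_parts k t hk ht (outN A w) M h.2.2.2
          exact ⟨j, fun _ _ => Or.inl ⟨h.2.2.1, hj⟩⟩
        · obtain ⟨j, hj⟩ := pigeon_parts k t hk ht (outN (rev A) w) M h.2.2.2
          exact ⟨j, fun _ _ => Or.inr ⟨h.2.2.1, hj⟩⟩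
    · exact ⟨⟨0, ht⟩, fun h => absurd h hwF⟩
  choose ρ hρ using hρ
  set φ : V → Fin t := fun v => (π3 v).getD (if v ∈ F ∨
      (((∀ j, A v (z j)) ∨ N ≤ (outN A v ∩ F).card) ∧
        ((∀ j, A (z' j) v) ∨ N ≤ (outN (rev A) v ∩ F).card)) then ⟨0, ht⟩ else ρ v) with hφ
  have hφ3 : ∀ v j, π3 v = some j → φ v = j := by
    intro v j h
    simp only [hφ, h, Option.getD_some]
  have h03 : ∀ v j, Forced j v → π3 v = some j := fun v j h =>
    h3a v j (h2a v j (h1a v j ((hπ0 v j).2 h)))
  have hφF : ∀ v j, Forced j v → φ v = j := fun v j h => hφ3 v j (h03 v j h)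
  have h3G : ∀ v ∈ G 0, π3 v = none := by
    intro v hv
    rcases hc : π3 v with _ | j
    · rfl
    · rcases h3b v j hc with h | ⟨p, -, -, hp⟩
      · rw [h2G 0 (by decide) (by decide) v hv] at h; exact absurd h (by simp)
      · exact absurd (hX3F p v hp) (Finset.disjoint_left.1 (hGd 0 3 (by decide)) hv)
  have hφG : ∀ v ∈ G 0, φ v = ⟨0, ht⟩ := by
    intro v hv
    simp only [hφ, h3G v hv, Option.getD_none]
    rw [if_pos (Or.inl (hGF' 0 v hv))]
  have hφMj : ∀ j v, v ∈ Finset.univ.biUnion (fun m : Fin (4 * k) => M (j, m)) →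
      φ v = j ∧ (∀ i, A v (z i)) ∧ ∀ i, A (z' i) v := by
    intro j v hv
    obtain ⟨m, -, hm⟩ := Finset.mem_biUnion.1 hv
    exact ⟨hφF v j (hMF (j, m) v hm), hM _ _ hm⟩
  have hnM : ∀ w, w ∉ F → π3 w = none → w ∈ Finset.univ \ (F ∪ Mall) := by
    intro w hwF hw3
    rw [Finset.mem_sdiff, Finset.mem_union]
    refine ⟨Finset.mem_univ _, ?_⟩
    rintro (h | h)
    · exact hwF h
    · obtain ⟨i, -, hi⟩ := Finset.mem_biUnion.1 h
      rw [h03 w i.1 (hMF i w hi)] at hw3
      exact absurd hw3 (by simp)
  have hwf : ∀ w j, w ∉ F → π3 w = some j → Forced j w := by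
    intro w j hwF hw
    rcases h3b w j hw with h | ⟨p, -, -, hp⟩
    · rcases h2b w j h with h | ⟨p, -, -, hp⟩
      · rcases h1b w j h with h | ⟨p, -, -, hp⟩
        · exact (hπ0 w j).1 h
        · exact absurd (hGF' 1 w (hX1F p w hp)) hwF
      · exact absurd (hGF' 2 w (hX2F p w hp)) hwF
    · exact absurd (hGF' 3 w (hX3F p w hp)) hwF
  refine ⟨φ, fun j v hv => hφF v j (Or.inr hv), ?_⟩
  intro j
  have h4k : (Finset.univ : Finset (Fin (4 * k))).card = 4 * k := by
    rw [Finset.card_univ, Fintype.card_fin]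
  constructor
  · -- size
    have h1 : (Finset.univ.image (fun m : Fin (4 * k) => a (j, m))).card = 4 * k := by
      rw [Finset.card_image_of_injective, h4k]
      intro m m' hmm
      by_contra hne
      have h2 : (j, m) ≠ (j, m') := fun h => hne (Prod.mk.inj h).2
      have hmm' : a (j, m) = a (j, m') := hmm
      exact Finset.disjoint_left.1 (hQd _ _ h2) (ha (j, m)) (hmm' ▸ ha (j, m'))
    have h2 : Finset.univ.image (fun m : Fin (4 * k) => a (j, m)) ⊆
        Finset.univ.filter (fun v => φ v = j) := by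
      intro v hv
      obtain ⟨m, -, rfl⟩ := Finset.mem_image.1 hv
      rw [Finset.mem_filter]
      exact ⟨Finset.mem_univ _, hφF _ j (Or.inl ⟨m, (hmemC _ _).2 (Or.inl (ha (j, m)))⟩)⟩
    have h3 := Finset.card_le_card h2
    omega
  · intro X hX u hu v hv huX hvX
    rw [Finset.mem_filter] at hu hv
    have hset : {w | w ∈ Finset.univ.filter (fun v => φ v = j) ∧ w ∉ X} =
        {w | w ∈ {v | φ v = j} ∧ w ∉ X} := by
      ext w; simp
    rw [hset]
    -- the two base properties
    set L : V → Prop := fun v => ∃ s : Finset (Fin (4 * k)), 3 * k ≤ s.card ∧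
      ∀ m ∈ s, ∃ w ∈ insert (z (j, m)) (insert (a (j, m)) (Bp (j, m))), w = v ∨ A v w with hL
    set L' : V → Prop := fun v => ∃ s : Finset (Fin (4 * k)), 3 * k ≤ s.card ∧
      ∀ m ∈ s, ∃ w ∈ insert (z' (j, m)) (insert (b (j, m)) (Bm (j, m))), w = v ∨ A w v with hL'
    have hLO : ∀ v, (∀ i, A v (z i)) → L v := by
      intro v hv
      refine ⟨Finset.univ, by omega, fun m _ => ⟨z (j, m), Finset.mem_insert_self _ _, ?_⟩⟩
      exact Or.inr (hv (j, m))
    have hLO' : ∀ v, (∀ i, A (z' i) v) → L' v := by
      intro v hv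
      refine ⟨Finset.univ, by omega, fun m _ => ⟨z' (j, m), Finset.mem_insert_self _ _, ?_⟩⟩
      exact Or.inr (hv (j, m))
    have hLF : ∀ f ∈ F, f ∉ Badp j → L f := by
      intro f hf hfB
      have h1 : (Finset.univ.filter (fun m : Fin (4 * k) => f ∈ Ep (j, m))).card ≤ k := by
        by_contra hcon
        push Not at hcon
        exact hfB (Finset.mem_filter.2 ⟨Finset.mem_univ _, hcon⟩)
      refine ⟨Finset.univ \ Finset.univ.filter (fun m : Fin (4 * k) => f ∈ Ep (j, m)), ?_, ?_⟩
      · have h2 := Finset.le_card_sdiff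
          (Finset.univ.filter (fun m : Fin (4 * k) => f ∈ Ep (j, m)))
          (Finset.univ : Finset (Fin (4 * k)))
        omega
      · intro m hm
        have hm2 : f ∉ Ep (j, m) := by
          intro h
          exact (Finset.mem_sdiff.1 hm).2 (Finset.mem_filter.2 ⟨Finset.mem_univ _, h⟩)
        rcases hBpD (j, m) f hf with h | h | h | ⟨w, hw, hfw⟩
        · exact ⟨z (j, m), Finset.mem_insert_self _ _, Or.inr (h (j, m))⟩
        · exact absurd h hm2
        · exact ⟨f, Finset.mem_insert_of_mem (Finset.mem_insert_of_mem h), Or.inl rfl⟩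
        · exact ⟨w, Finset.mem_insert_of_mem hw, Or.inr hfw⟩
    have hLF' : ∀ f ∈ F, f ∉ Badm j → L' f := by
      intro f hf hfB
      have h1 : (Finset.univ.filter (fun m : Fin (4 * k) => f ∈ Em (j, m))).card ≤ k := by
        by_contra hcon
        push Not at hcon
        exact hfB (Finset.mem_filter.2 ⟨Finset.mem_univ _, hcon⟩)
      refine ⟨Finset.univ \ Finset.univ.filter (fun m : Fin (4 * k) => f ∈ Em (j, m)), ?_, ?_⟩
      · have h2 := Finset.le_card_sdiff
          (Finset.univ.filter (fun m : Fin (4 * k) => f ∈ Em (j, m)))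
          (Finset.univ : Finset (Fin (4 * k)))
        omega
      · intro m hm
        have hm2 : f ∉ Em (j, m) := by
          intro h
          exact (Finset.mem_sdiff.1 hm).2 (Finset.mem_filter.2 ⟨Finset.mem_univ _, h⟩)
        rcases hBmD (j, m) f hf with h | h | h | ⟨w, hw, hfw⟩
        · exact ⟨z' (j, m), Finset.mem_insert_self _ _, Or.inr (h (j, m))⟩
        · exact absurd h hm2
        · exact ⟨f, Finset.mem_insert_of_mem (Finset.mem_insert_of_mem h), Or.inl rfl⟩
        · exact ⟨w, Finset.mem_insert_of_mem hw, Or.inr hfw⟩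
    -- all vertices are good for leaving
    have hG1 : ∀ v ∈ ({v | φ v = j} : Set V), Good A k {v | φ v = j} L v := by
      apply good_all {v | φ v = j} L (fun v => ∀ i, A v (z i)) F
      · intro v _ h
        exact hLO v h
      · intro f hfP hfF
        by_cases hO : ∀ i, A f (z i)
        · exact Or.inl (hLO f hO)
        rcases hc : π3 f with _ | j'
        · right
          have h0 : φ f = ⟨0, ht⟩ := by
            simp only [hφ, hc, Option.getD_none]
            rw [if_pos (Or.inl hfF)]
          have hj0 : j = ⟨0, ht⟩ := by rw [← h0]; exact hfP.symm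
          have h3 := (hGβ f hfF).resolve_left hO 0
          have h4 := hBadp j
          have h5 := Finset.le_card_sdiff (Badp j) (outN A f ∩ G 0)
          refine ⟨(outN A f ∩ G 0) \ Badp j, by omega, ?_⟩
          intro u hu
          rw [Finset.mem_sdiff, Finset.mem_inter, mem_outN] at hu
          refine ⟨?_, hu.1.1, hLF u (hGF' 0 u hu.1.2) hu.2⟩
          show φ u = j
          rw [hj0]; exact hφG u hu.1.2
        · have hj' : j' = j := by rw [← hφ3 f j' hc]; exact hfP
          subst hj'
          by_cases hp1 : π1 f = some j'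
          · right
            have hfs : f ∈ s2 := by
              rw [hs2, Finset.mem_filter]; exact ⟨hfF, ⟨j', hp1⟩, hO⟩
            have hcf : c2 f = j' := by simp only [hc2, hp1, Option.getD_some]
            refine ⟨_, h2c f hfs, ?_⟩
            intro u hu
            rw [Finset.mem_filter, hcf] at hu
            have hu1 := hu.1
            simp only [hX2] at hu1
            rw [Finset.mem_sdiff, Finset.mem_inter, mem_outN, hcf] at hu1
            exact ⟨hφ3 u j' (h3a u j' hu.2), hu1.1.1, hLF u (hGF' 2 u hu1.1.2) hu1.2⟩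
          · left
            rcases h3b f j' hc with h | ⟨p, -, hp, hpX⟩
            · rcases h2b f j' h with h | ⟨p, -, hp, hpX⟩
              · exact absurd h hp1
              · simp only [hX2] at hpX
                rw [hp, Finset.mem_sdiff] at hpX
                exact hLF f hfF hpX.2
            · simp only [hX3] at hpX
              rw [hp, Finset.mem_sdiff, Finset.mem_union] at hpX
              exact hLF f hfF (fun h => hpX.2 (Or.inl h))
      · intro w hwP hwF
        by_cases hO : ∀ i, A w (z i)
        · exact Or.inl hO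
        right
        rcases hc : π3 w with _ | j'
        · by_cases hfirst : (((∀ j, A w (z j)) ∨ N ≤ (outN A w ∩ F).card) ∧
            ((∀ j, A (z' j) w) ∨ N ≤ (outN (rev A) w ∩ F).card))
          · have h0 : φ w = ⟨0, ht⟩ := by
              simp only [hφ, hc, Option.getD_none]
              rw [if_pos (Or.inr hfirst)]
            have hj0 : j = ⟨0, ht⟩ := by rw [← h0]; exact hwP.symm
            have h3 := hGα w (hnM w hwF hc) (hfirst.1.resolve_left hO) 0
            refine ⟨outN A w ∩ G 0, by omega, ?_, Or.inl ?_⟩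
            · intro u hu
              rw [Finset.mem_inter, mem_outN] at hu
              refine ⟨?_, hu.1⟩
              show φ u = j
              rw [hj0]; exact hφG u hu.2
            · intro u hu
              exact hGF' 0 u (Finset.mem_inter.1 hu).2
          · have h0 : φ w = ρ w := by
              simp only [hφ, hc, Option.getD_none]
              rw [if_neg]
              rintro (h | h)
              · exact hwF h
              · exact hfirst h
            have hj0 : ρ w = j := by rw [← h0]; exact hwP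
            rcases hρ w hwF hfirst with h | h
            · refine ⟨_, h.2, ?_, Or.inr ?_⟩
              · intro u hu
                rw [Finset.mem_inter, mem_outN, hj0] at hu
                exact ⟨(hφMj j u hu.2).1, hu.1⟩
              · intro u hu
                exact (hφMj _ u (Finset.mem_inter.1 hu).2).2.1
            · exact absurd h.1 hO
        · have hj' : j' = j := by rw [← hφ3 w j' hc]; exact hwP
          subst hj'
          have hfw := hwf w j' hwF hc
          have hws : (w, true) ∈ s1 := by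
            rw [hs1, Finset.mem_filter]
            exact ⟨Finset.mem_univ _, hwF, ⟨j', hfw⟩, fun _ => hO, fun h => absurd h (by simp)⟩
          have hcf : c1 (w, true) = j' := by
            simp only [hc1]
            rw [(hπ0 w j').2 hfw]; rfl
          refine ⟨_, h1c _ hws, ?_, Or.inl ?_⟩
          · intro u hu
            rw [Finset.mem_filter, hcf] at hu
            have hu1 := hu.1
            simp only [hX1, if_true] at hu1
            rw [Finset.mem_inter, mem_outN] at hu1
            exact ⟨hφ3 u j' (h3a u j' (h2a u j' hu.2)), hu1.1⟩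
          · intro u hu
            exact hGF' 1 u (hX1F _ u (Finset.mem_filter.1 hu).1)
    have hG2 : ∀ v ∈ ({v | φ v = j} : Set V), Good (rev A) k {v | φ v = j} L' v := by
      apply good_all {v | φ v = j} L' (fun v => ∀ i, A (z' i) v) F
      · intro v _ h
        exact hLO' v h
      · intro f hfP hfF
        by_cases hO : ∀ i, A (z' i) f
        · exact Or.inl (hLO' f hO)
        rcases hc : π3 f with _ | j'
        · right
          have h0 : φ f = ⟨0, ht⟩ := by
            simp only [hφ, hc, Option.getD_none]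
            rw [if_pos (Or.inl hfF)]
          have hj0 : j = ⟨0, ht⟩ := by rw [← h0]; exact hfP.symm
          have h3 := (hGγ f hfF).resolve_left hO 0
          have h4 := hBadm j
          have h5 := Finset.le_card_sdiff (Badm j) (outN (rev A) f ∩ G 0)
          refine ⟨(outN (rev A) f ∩ G 0) \ Badm j, by omega, ?_⟩
          intro u hu
          rw [Finset.mem_sdiff, Finset.mem_inter, mem_outN] at hu
          refine ⟨?_, hu.1.1, hLF' u (hGF' 0 u hu.1.2) hu.2⟩
          show φ u = j
          rw [hj0]; exact hφG u hu.1.2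
        · have hj' : j' = j := by rw [← hφ3 f j' hc]; exact hfP
          subst hj'
          by_cases hp2 : π2 f = some j'
          · right
            have hfs : f ∈ s3 := by
              rw [hs3, Finset.mem_filter]; exact ⟨hfF, ⟨j', hp2⟩, hO⟩
            have hcf : c3 f = j' := by simp only [hc3, hp2, Option.getD_some]
            refine ⟨_, h3c f hfs, ?_⟩
            intro u hu
            rw [Finset.mem_filter, hcf] at hu
            have hu1 := hu.1
            simp only [hX3] at hu1
            rw [Finset.mem_sdiff, Finset.mem_inter, mem_outN, hcf, Finset.mem_union] at hu1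
            exact ⟨hφ3 u j' hu.2, hu1.1.1, hLF' u (hGF' 3 u hu1.1.2) (fun h => hu1.2 (Or.inr h))⟩
          · left
            rcases h3b f j' hc with h | ⟨p, -, hp, hpX⟩
            · exact absurd h hp2
            · simp only [hX3] at hpX
              rw [hp, Finset.mem_sdiff, Finset.mem_union] at hpX
              exact hLF' f hfF (fun h => hpX.2 (Or.inr h))
      · intro w hwP hwF
        by_cases hO : ∀ i, A (z' i) w
        · exact Or.inl hO
        right
        rcases hc : π3 w with _ | j'
        · by_cases hfirst : (((∀ j, A w (z j)) ∨ N ≤ (outN A w ∩ F).card) ∧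
            ((∀ j, A (z' j) w) ∨ N ≤ (outN (rev A) w ∩ F).card))
          · have h0 : φ w = ⟨0, ht⟩ := by
              simp only [hφ, hc, Option.getD_none]
              rw [if_pos (Or.inr hfirst)]
            have hj0 : j = ⟨0, ht⟩ := by rw [← h0]; exact hwP.symm
            have h3 := hGα' w (hnM w hwF hc) (hfirst.2.resolve_left hO) 0
            refine ⟨outN (rev A) w ∩ G 0, by omega, ?_, Or.inl ?_⟩
            · intro u hu
              rw [Finset.mem_inter, mem_outN] at hu
              refine ⟨?_, hu.1⟩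
              show φ u = j
              rw [hj0]; exact hφG u hu.2
            · intro u hu
              exact hGF' 0 u (Finset.mem_inter.1 hu).2
          · have h0 : φ w = ρ w := by
              simp only [hφ, hc, Option.getD_none]
              rw [if_neg]
              rintro (h | h)
              · exact hwF h
              · exact hfirst h
            have hj0 : ρ w = j := by rw [← h0]; exact hwP
            rcases hρ w hwF hfirst with h | h
            · exact absurd h.1 hO
            · refine ⟨_, h.2, ?_, Or.inr ?_⟩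
              · intro u hu
                rw [Finset.mem_inter, mem_outN, hj0] at hu
                exact ⟨(hφMj j u hu.2).1, hu.1⟩
              · intro u hu
                exact (hφMj _ u (Finset.mem_inter.1 hu).2).2.2
        · have hj' : j' = j := by rw [← hφ3 w j' hc]; exact hwP
          subst hj'
          have hfw := hwf w j' hwF hc
          have hws : (w, false) ∈ s1 := by
            rw [hs1, Finset.mem_filter]
            exact ⟨Finset.mem_univ _, hwF, ⟨j', hfw⟩, fun h => absurd h (by simp), fun _ => hO⟩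
          have hcf : c1 (w, false) = j' := by
            simp only [hc1]
            rw [(hπ0 w j').2 hfw]; rfl
          refine ⟨_, h1c _ hws, ?_, Or.inl ?_⟩
          · intro u hu
            rw [Finset.mem_filter, hcf] at hu
            have hu1 := hu.1
            simp only [hX1] at hu1
            rw [if_neg (by decide), Finset.mem_inter, mem_outN] at hu1
            exact ⟨hφ3 u j' (h3a u j' (h2a u j' hu.2)), hu1.1⟩
          · intro u hu
            exact hGF' 1 u (hX1F _ u (Finset.mem_filter.1 hu).1)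
    refine part_strong {v | φ v = j} (fun m => C (j, m))
      (fun m => insert (z (j, m)) (insert (a (j, m)) (Bp (j, m))))
      (fun m => insert (z' (j, m)) (insert (b (j, m)) (Bm (j, m)))) ?_ ?_ ?_ ?_ ?_ L L'
      (fun v h => h) (fun v h => h) hG1 hG2 X hX u v hu.2 huX hv.2 hvX
    · intro m v hv
      exact hφF v j (Or.inl ⟨m, hv⟩)
    · intro m m' hne
      exact hCd _ _ (fun h => hne (Prod.mk.inj h).2)
    · intro m w hw
      rw [Finset.mem_insert, Finset.mem_insert] at hw
      rw [hmemC]
      rcases hw with rfl | rfl | h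
      · exact Or.inl (hz _)
      · exact Or.inl (ha _)
      · exact Or.inr (Or.inl h)
    · intro m w hw
      rw [Finset.mem_insert, Finset.mem_insert] at hw
      rw [hmemC]
      rcases hw with rfl | rfl | h
      · exact Or.inl (hz' _)
      · exact Or.inl (hb _)
      · exact Or.inr (Or.inr h)
    · intro m u hu w hw
      have hCsub : ∀ y ∈ Q (j, m), y ∈ C (j, m) := fun y hy => (hmemC _ _).2 (Or.inl hy)
      have e1 : RIn A (↑(C (j, m)) : Set V) u (a (j, m)) := by
        by_cases hua : u = a (j, m)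
        · rw [hua]; exact RIn.refl _
        · have hu' : u ∈ insert (z (j, m)) (Bp (j, m)) := by
            rw [Finset.mem_insert, Finset.mem_insert] at hu
            rw [Finset.mem_insert]
            tauto
          refine (hBpR (j, m) u hu').mono ?_
          intro y hy
          rw [Finset.mem_coe, Finset.mem_insert, Finset.mem_insert] at hy
          rw [Finset.mem_coe, hmemC]
          rcases hy with rfl | rfl | h
          · exact Or.inl (hz _)
          · exact Or.inl (ha _)
          · exact Or.inr (Or.inl h)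
      have e2 : RIn A (↑(C (j, m)) : Set V) (a (j, m)) (b (j, m)) :=
        (hconn (j, m)).mono (fun y hy => hCsub y hy)
      have e3 : RIn A (↑(C (j, m)) : Set V) (b (j, m)) w := by
        by_cases hwb : w = b (j, m)
        · rw [hwb]; exact RIn.refl _
        · have hw' : w ∈ insert (z' (j, m)) (Bm (j, m)) := by
            rw [Finset.mem_insert, Finset.mem_insert] at hw
            rw [Finset.mem_insert]
            tauto
          have h5 := (hBmR (j, m) w hw').swap
          rw [rev_rev] at h5
          refine h5.mono ?_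
          intro y hy
          rw [Finset.mem_coe, Finset.mem_insert, Finset.mem_insert] at hy
          rw [Finset.mem_coe, hmemC]
          rcases hy with rfl | rfl | h
          · exact Or.inl (hz' _)
          · exact Or.inl (hb _)
          · exact Or.inr (Or.inr h)
      exact e1.trans (e2.trans e3)

end Pool.Agent.Lib.A8780
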