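import Pool.Agent.Lib.A8780.Blocks

/-!
The second phase: from a family of blocks and a pool to the partition.
-/

set_option autoImplicit false

namespace Pool.Agent.Lib.A8780

/-- four balanced parts of the pool -/
theorem pool_split {V ι : Type*} [Fintype V] [DecidableEq V] [Fintype ι] {A : V → V → Prop}
    (z z' : ι → V) (N q Dp Dm κ : ℕ)
    (hι : Fintype.card ι = 4 * κ)
    (hq : 20000 * (q + 200 * κ + 30) ≤ N) (hNp : N ≤ Dp) (hNm : N ≤ Dm)
    (F AB W : Finset V) (hAB : AB ⊆ F) (hABc : AB.card ≤ 192 * κ)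
    (hdz : ∀ i, (outN A (z i)).card ≤ Dp) (hdz' : ∀ i, (outN (rev A) (z' i)).card ≤ Dm)
    (hzne : ∀ i, z i ∉ F) (hzne' : ∀ i, z' i ∉ F)
    (hT : Tour A)
    (hF1 : ∀ f ∈ F, (∀ j, A f (z j)) ∨ Dp ≤ (outN A f ∩ F).card + q)
    (hF2 : ∀ f ∈ F, (∀ j, A (z' j) f) ∨ Dm ≤ (outN (rev A) f ∩ F).card + q)
    (hcard : W.card ≤ N) :
    ∃ G : Fin 4 → Finset V, (∀ a, G a ⊆ F \ AB) ∧ (∀ a b, a ≠ b → Disjoint (G a) (G b)) ∧
      (∀ f ∈ F, (∀ j, A f (z j)) ∨ ∀ a, Dp ≤ 16 * (outN A f ∩ G a).card + q + 192 * κ) ∧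
      (∀ f ∈ F, (∀ j, A (z' j) f) ∨ ∀ a, Dm ≤ 16 * (outN (rev A) f ∩ G a).card + q + 192 * κ) ∧
      (∀ w ∈ W, N ≤ (outN A w ∩ F).card → ∀ a, N ≤ 16 * (outN A w ∩ G a).card + 192 * κ) ∧
      (∀ w ∈ W, N ≤ (outN (rev A) w ∩ F).card →
        ∀ a, N ≤ 16 * (outN (rev A) w ∩ G a).card + 192 * κ) := by
  classical
  set F' := F \ AB with hF'
  have hsub : ∀ S : Finset V, (S ∩ F).card ≤ (S ∩ F').card + 192 * κ := by
    intro S
    have h1 : S ∩ F ⊆ (S ∩ F') ∪ AB := by
      intro v hv
      rw [Finset.mem_inter] at hv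
      rw [Finset.mem_union, Finset.mem_inter, hF', Finset.mem_sdiff]
      tauto
    calc (S ∩ F).card ≤ ((S ∩ F') ∪ AB).card := Finset.card_le_card h1
      _ ≤ (S ∩ F').card + AB.card := Finset.card_union_le _ _
      _ ≤ (S ∩ F').card + 192 * κ := by omega
  let X : V × Bool → Finset V := fun p => (if p.2 then outN A p.1 else outN (rev A) p.1) ∩ F'
  set s1 : Finset (V × Bool) := (F.filter (fun f => ¬ ∀ j, A f (z j))) ×ˢ {true} with hs1
  set s2 : Finset (V × Bool) := (F.filter (fun f => ¬ ∀ j, A (z' j) f)) ×ˢ {false} with hs2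
  set s3 : Finset (V × Bool) := (W.filter (fun w => N ≤ (outN A w ∩ F).card)) ×ˢ {true} with hs3
  set s4 : Finset (V × Bool) := (W.filter (fun w => N ≤ (outN (rev A) w ∩ F).card)) ×ˢ {false}
    with hs4
  have hκ4 : 4 * κ ≤ N := by omega
  -- the numbers of sets
  have c1 : s1.card ≤ 4 * κ * Dp := by
    rw [hs1, Finset.card_product, Finset.card_singleton, mul_one]
    have h1 : F.filter (fun f => ¬ ∀ j, A f (z j)) ⊆ Finset.univ.biUnion (fun i => outN A (z i)) := by
      intro f hf
      rw [Finset.mem_filter] at hf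
      obtain ⟨hfF, hf⟩ := hf
      push Not at hf
      obtain ⟨j, hj⟩ := hf
      rw [Finset.mem_biUnion]
      refine ⟨j, Finset.mem_univ j, ?_⟩
      rw [mem_outN]
      rcases hT.tot f (z j) (by rintro rfl; exact hzne j hfF) with h | h
      · exact absurd h hj
      · exact h
    calc _ ≤ _ := Finset.card_le_card h1
      _ ≤ (Finset.univ : Finset ι).card * Dp :=
          Finset.card_biUnion_le_card_mul _ _ _ (fun i _ => hdz i)
      _ = 4 * κ * Dp := by rw [Finset.card_univ, hι]
  have c2 : s2.card ≤ 4 * κ * Dm := by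
    rw [hs2, Finset.card_product, Finset.card_singleton, mul_one]
    have h1 : F.filter (fun f => ¬ ∀ j, A (z' j) f) ⊆
        Finset.univ.biUnion (fun i => outN (rev A) (z' i)) := by
      intro f hf
      rw [Finset.mem_filter] at hf
      obtain ⟨hfF, hf⟩ := hf
      push Not at hf
      obtain ⟨j, hj⟩ := hf
      rw [Finset.mem_biUnion]
      refine ⟨j, Finset.mem_univ j, ?_⟩
      rw [mem_outN]
      rcases hT.tot f (z' j) (by rintro rfl; exact hzne' j hfF) with h | h
      · exact h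
      · exact absurd h hj
    calc _ ≤ _ := Finset.card_le_card h1
      _ ≤ (Finset.univ : Finset ι).card * Dm :=
          Finset.card_biUnion_le_card_mul _ _ _ (fun i _ => hdz' i)
      _ = 4 * κ * Dm := by rw [Finset.card_univ, hι]
  have c3 : s3.card ≤ N := by
    rw [hs3, Finset.card_product, Finset.card_singleton, mul_one]
    exact (Finset.card_filter_le _ _).trans hcard
  have c4 : s4.card ≤ N := by
    rw [hs4, Finset.card_product, Finset.card_singleton, mul_one]
    exact (Finset.card_filter_le _ _).trans hcard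
  -- the tail sums
  have arith : ∀ D : ℕ, N ≤ D → 4 * κ * D ≤ 4 * (D / 2 + 1) ^ 2 := by
    intro D hD
    have h1 : D ≤ 2 * (D / 2) + 1 := by omega
    have h2 : 4 * κ ≤ D := by omega
    have h3 : 4 * κ * D ≤ D * D := Nat.mul_le_mul_right _ h2
    have h4 : D * D ≤ (2 * (D / 2 + 1)) * (2 * (D / 2 + 1)) := Nat.mul_le_mul (by omega) (by omega)
    nlinarith
  have t1 : ∑ p ∈ s1, (15 / 16 : ℝ) ^ (X p).card ≤ 1 / 50 := by
    apply sum_tail s1 X (Dp / 2) (by omega) (c1.trans (arith Dp hNp))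
    rintro ⟨f, b⟩ hp
    rw [hs1, Finset.mem_product, Finset.mem_filter, Finset.mem_singleton] at hp
    obtain ⟨⟨hfF, hf⟩, hb⟩ := hp
    simp only at hfF hf hb
    subst hb
    have h1 := (hF1 f hfF).resolve_left hf
    have h2 := hsub (outN A f)
    simp only [X, if_true]
    omega
  have t2 : ∑ p ∈ s2, (15 / 16 : ℝ) ^ (X p).card ≤ 1 / 50 := by
    apply sum_tail s2 X (Dm / 2) (by omega) (c2.trans (arith Dm hNm))
    rintro ⟨f, b⟩ hp
    rw [hs2, Finset.mem_product, Finset.mem_filter, Finset.mem_singleton] at hp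
    obtain ⟨⟨hfF, hf⟩, hb⟩ := hp
    simp only at hfF hf hb
    subst hb
    have h1 := (hF2 f hfF).resolve_left hf
    have h2 := hsub (outN (rev A) f)
    simp only [X]
    rw [if_neg (by decide)]
    omega
  have arithN : N ≤ 4 * (N / 2 + 1) ^ 2 := by
    nlinarith [Nat.div_add_mod N 2, Nat.mod_lt N (by norm_num : 0 < 2)]
  have t3 : ∑ p ∈ s3, (15 / 16 : ℝ) ^ (X p).card ≤ 1 / 50 := by
    apply sum_tail s3 X (N / 2) (by omega) (c3.trans arithN)
    rintro ⟨f, b⟩ hp
    rw [hs3, Finset.mem_product, Finset.mem_filter, Finset.mem_singleton] at hp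
    obtain ⟨⟨hfF, hf⟩, hb⟩ := hp
    simp only at hfF hf hb
    subst hb
    have h2 := hsub (outN A f)
    simp only [X, if_true]
    omega
  have t4 : ∑ p ∈ s4, (15 / 16 : ℝ) ^ (X p).card ≤ 1 / 50 := by
    apply sum_tail s4 X (N / 2) (by omega) (c4.trans arithN)
    rintro ⟨f, b⟩ hp
    rw [hs4, Finset.mem_product, Finset.mem_filter, Finset.mem_singleton] at hp
    obtain ⟨⟨hfF, hf⟩, hb⟩ := hp
    simp only at hfF hf hb
    subst hb
    have h2 := hsub (outN (rev A) f)
    simp only [X]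
    rw [if_neg (by decide)]
    omega
  have hun : ∀ s s' : Finset (V × Bool), ∑ p ∈ s ∪ s', (15 / 16 : ℝ) ^ (X p).card ≤
      ∑ p ∈ s, (15 / 16 : ℝ) ^ (X p).card + ∑ p ∈ s', (15 / 16 : ℝ) ^ (X p).card := by
    intro s s'
    rw [← Finset.sum_union_inter]
    have : (0 : ℝ) ≤ ∑ p ∈ s ∩ s', (15 / 16 : ℝ) ^ (X p).card :=
      Finset.sum_nonneg (fun _ _ => by positivity)
    linarith
  have htot : ∑ p ∈ s1 ∪ (s2 ∪ (s3 ∪ s4)), (15 / 16 : ℝ) ^ (X p).card < 1 / 8 := by
    have h1 := hun s1 (s2 ∪ (s3 ∪ s4))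
    have h2 := hun s2 (s3 ∪ s4)
    have h3 := hun s3 s4
    linarith
  obtain ⟨f4, hf4⟩ := split4 (s1 ∪ (s2 ∪ (s3 ∪ s4))) X htot
  have hfil : ∀ (S : Finset V) (a : Fin 4), (S ∩ F').filter (fun v => f4 v = a) =
      S ∩ F'.filter (fun v => f4 v = a) := by
    intro S a
    ext v
    simp only [Finset.mem_filter, Finset.mem_inter]
    tauto
  refine ⟨fun a => F'.filter (fun v => f4 v = a), ?_, ?_, ?_, ?_, ?_, ?_⟩
  · intro a
    exact Finset.filter_subset _ _
  · intro a b hab
    rw [Finset.disjoint_left]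
    intro v hv hv'
    exact hab ((Finset.mem_filter.1 hv).2.symm.trans (Finset.mem_filter.1 hv').2)
  · intro f hf
    by_cases hO : ∀ j, A f (z j)
    · exact Or.inl hO
    · right
      intro a
      have h1 := hf4 (f, true) (by
        apply Finset.mem_union_left
        rw [hs1, Finset.mem_product, Finset.mem_filter, Finset.mem_singleton]
        exact ⟨⟨hf, hO⟩, rfl⟩) a
      simp only [X, if_true] at h1
      rw [hfil] at h1
      have h2 := hsub (outN A f)
      have h3 := (hF1 f hf).resolve_left hO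
      beta_reduce
      omega
  · intro f hf
    by_cases hO : ∀ j, A (z' j) f
    · exact Or.inl hO
    · right
      intro a
      have h1 := hf4 (f, false) (by
        apply Finset.mem_union_right
        apply Finset.mem_union_left
        rw [hs2, Finset.mem_product, Finset.mem_filter, Finset.mem_singleton]
        exact ⟨⟨hf, hO⟩, rfl⟩) a
      simp only [X] at h1
      rw [if_neg (by decide), hfil] at h1
      have h2 := hsub (outN (rev A) f)
      have h3 := (hF2 f hf).resolve_left hO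
      beta_reduce
      omega
  · intro w hw hN a
    have h1 := hf4 (w, true) (by
      apply Finset.mem_union_right
      apply Finset.mem_union_right
      apply Finset.mem_union_left
      rw [hs3, Finset.mem_product, Finset.mem_filter, Finset.mem_singleton]
      exact ⟨⟨hw, hN⟩, rfl⟩) a
    simp only [X, if_true] at h1
    rw [hfil] at h1
    have h2 := hsub (outN A w)
    beta_reduce
    omega
  · intro w hw hN a
    have h1 := hf4 (w, false) (by
      apply Finset.mem_union_right
      apply Finset.mem_union_right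
      apply Finset.mem_union_right
      rw [hs4, Finset.mem_product, Finset.mem_filter, Finset.mem_singleton]
      exact ⟨⟨hw, hN⟩, rfl⟩) a
    simp only [X] at h1
    rw [if_neg (by decide), hfil] at h1
    have h2 := hsub (outN (rev A) w)
    beta_reduce
    omega

end Pool.Agent.Lib.A8780
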