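import Pool.Agent.Lib.A8780.Basic

/-!
Sharpness: a `k`-strong tournament has at least `2 k + 1` vertices, and the rotational tournament
on `2 m + 1` vertices (`u → v` iff `v - u ∈ {1, …, m}`) is `m`-strong: after deleting fewer than
`m` vertices each remaining vertex still has an arc to one of its next `m` vertices, so one walks
around the circle.  With `2 m + 1 < t (2 k + 1)` there is no partition into `t` `k`-strong parts.
-/

set_option autoImplicit false

namespace Pool.Agent.Lib.A8780

theorem KStrong.card {V : Type*} [Fintype V] {A : V → V → Prop} (hT : Tour A) (k : ℕ)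
    (hk : 0 < k) (S : Finset V) (h : KStrong A k S) : 2 * k + 1 ≤ S.card := by
  classical
  obtain ⟨hS, h⟩ := h
  -- each vertex has at least `k` out-neighbours in `S`
  have hdeg : ∀ v ∈ S, k ≤ (S.filter (fun u => A v u)).card := by
    intro v hv
    by_contra hlt
    obtain ⟨X, hX⟩ : ∃ X : Finset V, X = S.filter (fun u => A v u) := ⟨_, rfl⟩
    rw [← hX] at hlt
    have hvX : v ∉ X := by
      rw [hX, Finset.mem_filter]
      exact fun h' => hT.irr v h'.2
    have h1 : (insert v X).card < S.card := by
      have := Finset.card_insert_le v X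
      omega
    obtain ⟨w, hwS, hw⟩ := Finset.exists_mem_notMem_of_card_lt_card h1
    rw [Finset.mem_insert, not_or] at hw
    have h2 := h X (by omega) v hv w hwS hvX hw.2
    unfold RIn at h2
    rcases Relation.ReflTransGen.cases_head h2 with h3 | ⟨c, h3, _⟩
    · exact hw.1 h3.symm
    · refine h3.2.1.2 ?_
      rw [hX, Finset.mem_filter]
      exact ⟨h3.2.1.1, h3.2.2⟩
  have h1 : k * S.card ≤ ((S ×ˢ S).filter (fun p => A p.1 p.2)).card := by
    rw [Finset.card_filter, Finset.sum_product, mul_comm]
    have : ∑ _v ∈ S, k ≤ ∑ v ∈ S, ∑ u ∈ S, (if A v u then 1 else 0) := by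
      refine Finset.sum_le_sum fun v hv => ?_
      rw [← Finset.card_filter]
      exact hdeg v hv
    rwa [Finset.sum_const, smul_eq_mul] at this
  have h2 : ((S ×ˢ S).filter (fun p => A p.1 p.2)).card = ((S ×ˢ S).filter (fun p => A p.2 p.1)).card := by
    refine Finset.card_bij (fun p _ => (p.2, p.1)) ?_ ?_ ?_
    · rintro ⟨a, b⟩ hp
      rw [Finset.mem_filter, Finset.mem_product] at hp ⊢
      exact ⟨⟨hp.1.2, hp.1.1⟩, hp.2⟩
    · rintro ⟨a, b⟩ _ ⟨c, d⟩ _ he
      rw [Prod.mk.injEq] at he
      exact Prod.ext he.2 he.1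
    · rintro ⟨a, b⟩ hp
      rw [Finset.mem_filter, Finset.mem_product] at hp
      refine ⟨(b, a), ?_, rfl⟩
      rw [Finset.mem_filter, Finset.mem_product]
      exact ⟨⟨hp.1.2, hp.1.1⟩, hp.2⟩
  have h3 : ((S ×ˢ S).filter (fun p => A p.1 p.2)).card + ((S ×ˢ S).filter (fun p => A p.2 p.1)).card ≤
      S.offDiag.card := by
    rw [← Finset.card_union_of_disjoint]
    · refine Finset.card_le_card fun p hp => ?_
      rw [Finset.mem_union, Finset.mem_filter, Finset.mem_filter, Finset.mem_product] at hp
      rw [Finset.mem_offDiag]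
      rcases hp with hp | hp
      · refine ⟨hp.1.1, hp.1.2, fun he => hT.irr p.1 ?_⟩
        have := hp.2
        rwa [← he] at this
      · refine ⟨hp.1.1, hp.1.2, fun he => hT.irr p.1 ?_⟩
        have := hp.2
        rwa [← he] at this
    · rw [Finset.disjoint_left]
      intro p hp hq
      rw [Finset.mem_filter] at hp hq
      exact hT.asym _ _ hp.2 hq.2
  rw [Finset.offDiag_card, ← h2] at h3
  have h4 : 0 < S.card := by omega
  obtain ⟨s, hs⟩ : ∃ s, S.card = s + 1 := ⟨S.card - 1, by omega⟩
  rw [hs] at h1 h3 ⊢
  have h5 : (s + 1) * (s + 1) - (s + 1) = (s + 1) * s := by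
    rw [Nat.mul_succ (s + 1) s]
    omega
  rw [h5] at h3
  have h6 : (s + 1) * (2 * k) ≤ (s + 1) * s := by
    have : (s + 1) * (2 * k) = 2 * (k * (s + 1)) := by ring
    omega
  have h7 := Nat.le_of_mul_le_mul_left h6 (by omega)
  omega

/-- residue class of a number -/
def toF (m j : ℕ) : Fin (2 * m + 1) := ⟨j % (2 * m + 1), Nat.mod_lt _ (by omega)⟩

/-- the rotational tournament -/
def rot (m : ℕ) (u v : Fin (2 * m + 1)) : Prop := 1 ≤ (v - u).val ∧ (v - u).val ≤ m

theorem rot_neg (m : ℕ) {x : Fin (2 * m + 1)} (hx : x ≠ 0) : (-x).val = 2 * m + 1 - x.val := by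
  have h1 : x.val ≠ 0 := fun h => hx (Fin.ext h)
  rw [Fin.val_neg', Nat.mod_eq_of_lt]
  omega

theorem rot_tour (m : ℕ) : Tour (rot m) where
  irr v h := by
    unfold rot at h
    rw [sub_self] at h
    have : (0 : Fin (2 * m + 1)).val = 0 := rfl
    omega
  asym u v h h' := by
    unfold rot at h h'
    have h1 : v - u ≠ 0 := by
      intro h2
      rw [h2] at h
      have : (0 : Fin (2 * m + 1)).val = 0 := rfl
      omega
    have h2 := rot_neg m h1
    rw [neg_sub] at h2
    omega
  tot u v huv := by
    unfold rot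
    have h1 : v - u ≠ 0 := sub_ne_zero.mpr huv.symm
    have h2 := rot_neg m h1
    rw [neg_sub] at h2
    have h3 : (v - u).val ≠ 0 := fun h => h1 (Fin.ext h)
    have h4 := (v - u).isLt
    omega

theorem rot_strong (m : ℕ) : KStrong (rot m) m (Finset.univ : Finset (Fin (2 * m + 1))) := by
  classical
  refine ⟨?_, ?_⟩
  · rw [Finset.card_univ, Fintype.card_fin]
    omega
  · intro X hX u _ v _ hu hv
    have key : ∀ D : ℕ, ∀ u : Fin (2 * m + 1), (v - u).val = D → u ∉ X →
        RIn (rot m) {w | w ∈ (Finset.univ : Finset (Fin (2 * m + 1))) ∧ w ∉ X} u v := by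
      intro D
      induction D using Nat.strong_induction_on with
      | _ D ih =>
        intro u hD hu
        rcases Nat.eq_zero_or_pos D with h0 | h0
        · have h1 : v - u = 0 := Fin.ext (by rw [hD, h0]; rfl)
          rw [sub_eq_zero.mp h1]
          exact RIn.refl _
        · by_cases hm : D ≤ m
          · refine RIn.single ⟨Finset.mem_univ _, hu⟩ ⟨Finset.mem_univ _, hv⟩ ?_
            unfold rot
            omega
          · -- a vertex outside `X` among the next `m` vertices
            have hinj : ∀ j ∈ Finset.Icc 1 m, (toF m j).val = j := by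
              intro j hj
              rw [Finset.mem_Icc] at hj
              exact Nat.mod_eq_of_lt (by omega)
            have h1 : X.card < ((Finset.Icc 1 m).image (fun j : ℕ => u + (toF m j))).card := by
              rw [Finset.card_image_of_injOn, Nat.card_Icc]
              · omega
              · intro i hi j hj hij
                have h2 : toF m i = (toF m j) := add_left_cancel hij
                rw [← hinj i hi, ← hinj j hj, h2]
            obtain ⟨w, hw, hwX⟩ := Finset.exists_mem_notMem_of_card_lt_card h1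
            rw [Finset.mem_image] at hw
            obtain ⟨j, hj, rfl⟩ := hw
            have hjv := hinj j hj
            rw [Finset.mem_Icc] at hj
            have h2 : (v - (u + (toF m j))).val = D - j := by
              rw [← sub_sub, Fin.sub_val_of_le, hD, hjv]
              rw [Fin.le_def, hjv, hD]
              omega
            refine RIn.trans (RIn.single ⟨Finset.mem_univ _, hu⟩ ⟨Finset.mem_univ _, hwX⟩ ?_)
              (ih (D - j) (by omega) _ h2 hwX)
            unfold rot
            rw [add_sub_cancel_left, hjv]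
            exact hj
    exact key _ u rfl hu

/-- For all `k, t ≥ 1` there is a `(k t - 1)`-strong tournament whose vertex set has no partition
into `t` sets inducing `k`-strong tournaments. -/
theorem sharp (k t : ℕ) (hk : 0 < k) (ht : 0 < t) (hkt : 2 ≤ k * t) :
    ∃ (n : ℕ) (A : Fin n → Fin n → Prop), Tour A ∧ KStrong A (k * t - 1) Finset.univ ∧
      ¬ ∃ φ : Fin n → Fin t, ∀ j, KStrong A k (Finset.univ.filter (fun v => φ v = j)) := by
  classical
  refine ⟨2 * (k * t - 1) + 1, rot (k * t - 1), rot_tour _, rot_strong _, ?_⟩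
  rintro ⟨φ, hφ⟩
  have h1 : (Finset.univ : Finset (Fin (2 * (k * t - 1) + 1))).card =
      ∑ j : Fin t, (Finset.univ.filter (fun v => φ v = j)).card :=
    Finset.card_eq_sum_card_fiberwise fun v _ => Finset.mem_coe.mpr (Finset.mem_univ _)
  have h2 : ∑ _j : Fin t, (2 * k + 1) ≤ ∑ j : Fin t, (Finset.univ.filter (fun v => φ v = j)).card :=
    Finset.sum_le_sum fun j _ => KStrong.card (rot_tour _) k hk _ (hφ j)
  rw [← h1, Finset.card_univ, Fintype.card_fin, Finset.sum_const, Finset.card_univ, Fintype.card_fin,
    smul_eq_mul] at h2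
  have h3 : t * (2 * k + 1) = 2 * (k * t) + t := by ring
  omega

end Pool.Agent.Lib.A8780
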